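import Pool.Agent.Lib_helper72.Hyp.Nielsen

/-!
# The length of the boundary circles is an isometry invariant
-/

open Metric Set UpperHalfPlane Topology
open scoped MatrixGroups
open Pool.Agent.SimpleSpectrum

noncomputable section

namespace Pool.Agent.Hyp72

lemma surfaceBoundary_map {X Y : Type} [MetricSpace X] [MetricSpace Y] (f : X ≃ᵢ Y) {x : X}
    (hx : x ∈ surfaceBoundary X) : f x ∈ surfaceBoundary Y := by
  obtain ⟨φ, r, h⟩ := hx
  have hball : ∀ y, y ∈ ball (f x) r ↔ f.symm y ∈ ball x r := by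
    intro y
    rw [mem_ball, mem_ball, ← f.isometry.dist_eq, f.apply_symm_apply]
  refine ⟨φ ∘ f.symm, r, h.pos, fun y hy z hz => ?_, ?_, ?_⟩
  · simp only [Function.comp]
    rw [h.isom _ ((hball y).mp hy) _ ((hball z).mp hz), f.symm.isometry.dist_eq]
  · simp only [Function.comp, f.symm_apply_apply]; exact h.center
  · simp only [Function.comp, f.symm_apply_apply]
    rw [← h.image]
    ext w
    constructor
    · rintro ⟨y, hy, rfl⟩
      exact ⟨f.symm y, (hball y).mp hy, rfl⟩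
    · rintro ⟨y, hy, rfl⟩
      refine ⟨f y, ?_, by simp⟩
      rw [hball, f.symm_apply_apply]; exact hy

lemma joinedIn_map {X Y : Type} [MetricSpace X] [MetricSpace Y] (f : X ≃ᵢ Y) {x y : X}
    (h : JoinedIn (surfaceBoundary X) x y) : JoinedIn (surfaceBoundary Y) (f x) (f y) := by
  obtain ⟨p, hp⟩ := h
  exact ⟨p.map f.continuous, fun t => surfaceBoundary_map f (hp t)⟩

namespace Poly

variable {P : Poly}

lemma exists_far_boundary (P : Poly) {L : ℝ} (hL : 0 < L)
    (hc : Real.cosh L = - bil (P.v 0) (P.v 2)) :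
    ∃ x y : P.X, JoinedIn (surfaceBoundary P.X) x y ∧ dist x y = L := by
  obtain ⟨L', l, hL', hc', hd, hF⟩ := P.exists_arcQ (n := 0) (m := 2) (by omega)
  have hLL : L' = L := by
    have h1 : Real.cosh L' = Real.cosh L := by rw [hc, hc']
    exact Real.cosh_strictMonoOn.injOn (mem_Ici.mpr hL'.le) (mem_Ici.mpr hL.le) h1
  subst hLL
  have h00 : (0 : ℝ) ∈ Icc 0 L' := ⟨le_rfl, hL.le⟩
  have hLm : L' ∈ Icc 0 L' := ⟨hL.le, le_rfl⟩
  have hdist : dist (P.E false false (l 0)) (P.E false false (l L')) = L' := by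
    rw [dist_E, hd 0 h00 L' hLm, zero_sub, abs_neg, abs_of_pos hL]
  have hgeod : IsGeod (fun t => P.E false false (l t)) (P.E false false (l 0))
      (P.E false false (l L')) := by
    refine ⟨rfl, by rw [hdist], fun s hs t ht => ?_⟩
    rw [hdist] at hs ht
    rw [dist_E]; exact hd s hs t ht
  obtain ⟨p, -, hp⟩ := hgeod.exists_path
  refine ⟨_, _, ⟨p, fun t => ?_⟩, hdist⟩
  obtain ⟨s, hs, hst⟩ := hp t
  rw [hdist] at hs
  rw [← hst, mem_surfaceBoundary, π_E, hF 1 s hs, bil_comm (P.v 1) (P.v 0), P.adj 0, P.adj 1]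
  simp

lemma exists_boundary_rep {p : P.X} (hp : p ∈ surfaceBoundary P.X) :
    ∃ (i j : Bool) (q : P.Q), F (P.v 1) q = 0 ∧ P.E i j q = p := by
  rw [mem_surfaceBoundary] at hp
  obtain ⟨i, j, q, rfl⟩ := exists_rep p
  rw [π_E] at hp
  exact ⟨i, j, q, hp, rfl⟩

lemma same_sheet {i j i' j' : Bool} {q q' : P.Q} (hq : F (P.v 1) q = 0)
    (h : P.E i j q = P.E i' j' q') : j = j' := by
  by_contra hne
  rw [E_eq_iff] at h
  obtain ⟨n, hn3, hn, hF⟩ := h.2.2 hne
  have := active_adj hF hq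
  omega

lemma joined_same_sheet {x y : P.X} (h : JoinedIn (surfaceBoundary P.X) x y) :
    ∃ (j i i' : Bool) (q q' : P.Q), F (P.v 1) q = 0 ∧ F (P.v 1) q' = 0 ∧ x = P.E i j q ∧ y = P.E i' j q' := by
  obtain ⟨p, hp⟩ := h
  set D : Bool → Set P.X := fun j => ⋃ i : Bool, P.E i j '' {q : P.Q | F (P.v 1) q = 0} with hD
  have hDc : ∀ j, IsClosed (D j) := fun j =>
    (isCompact_iUnion fun i => isCompact_side_one.image (isometry_E i j).continuous).isClosed
  have hcover : ∀ t, p t ∈ D false ∨ p t ∈ D true := by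
    intro t
    obtain ⟨i, j, q, hq, he⟩ := exists_boundary_rep (hp t)
    cases j
    · exact Or.inl (mem_iUnion.mpr ⟨i, q, hq, he⟩)
    · exact Or.inr (mem_iUnion.mpr ⟨i, q, hq, he⟩)
  have hdisj : ∀ t, ¬ (p t ∈ D false ∧ p t ∈ D true) := by
    rintro t ⟨h1, h2⟩
    obtain ⟨i, q, hq, he⟩ := mem_iUnion.mp h1
    obtain ⟨i', q', hq', he'⟩ := mem_iUnion.mp h2
    have := same_sheet hq (he.trans he'.symm)
    simp at this
  have hpre : IsPreconnected (univ : Set unitInterval) := isPreconnected_univ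
  rw [isPreconnected_closed_iff] at hpre
  have h01 : (p 0 ∈ D false ∧ p 1 ∈ D false) ∨ (p 0 ∈ D true ∧ p 1 ∈ D true) := by
    by_contra hcon
    have hne1 : ((univ : Set unitInterval) ∩ p ⁻¹' D false).Nonempty := by
      rcases hcover 0 with h | h
      · exact ⟨0, trivial, h⟩
      · rcases hcover 1 with h' | h'
        · exact ⟨1, trivial, h'⟩
        · exact absurd (Or.inr ⟨h, h'⟩) hcon
    have hne2 : ((univ : Set unitInterval) ∩ p ⁻¹' D true).Nonempty := by
      rcases hcover 0 with h | h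
      · rcases hcover 1 with h' | h'
        · exact absurd (Or.inl ⟨h, h'⟩) hcon
        · exact ⟨1, trivial, h'⟩
      · exact ⟨0, trivial, h⟩
    obtain ⟨t, -, ht1, ht2⟩ := hpre (p ⁻¹' D false) (p ⁻¹' D true)
      ((hDc false).preimage p.continuous) ((hDc true).preimage p.continuous)
      (fun t _ => hcover t) hne1 hne2
    exact hdisj t ⟨ht1, ht2⟩
  rw [p.source, p.target] at h01
  have : ∃ j, x ∈ D j ∧ y ∈ D j := by
    rcases h01 with h | h
    · exact ⟨false, h⟩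
    · exact ⟨true, h⟩
  obtain ⟨j, hx, hy⟩ := this
  obtain ⟨i, q, hq, he⟩ := mem_iUnion.mp hx
  obtain ⟨i', q', hq', he'⟩ := mem_iUnion.mp hy
  exact ⟨j, i, i', q, q', hq, hq', he.symm, he'.symm⟩

lemma dist_boundary_le (P : Poly) {L : ℝ} (hL : 0 < L)
    (hc : Real.cosh L = - bil (P.v 0) (P.v 2)) {x y : P.X}
    (h : JoinedIn (surfaceBoundary P.X) x y) : dist x y ≤ L := by
  obtain ⟨j, i, i', q, q', hq, hq', rfl, rfl⟩ := joined_same_sheet h
  obtain ⟨L', l, hL', hc', hd, hF⟩ := P.exists_arcQ (n := 0) (m := 2) (by omega)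
  have hLL : L' = L := by
    have h1 : Real.cosh L' = Real.cosh L := by rw [hc, hc']
    exact Real.cosh_strictMonoOn.injOn (mem_Ici.mpr hL'.le) (mem_Ici.mpr hL.le) h1
  subst hLL
  obtain ⟨s, hs, rfl⟩ := mem_arc_of_side (n := 0) hL hc hF hq
  obtain ⟨t, ht, rfl⟩ := mem_arc_of_side (n := 0) hL hc hF hq'
  have h00 : (0 : ℝ) ∈ Icc 0 L' := ⟨le_rfl, hL.le⟩
  have hLm : L' ∈ Icc 0 L' := ⟨hL.le, le_rfl⟩
  by_cases hii : i = i'
  · subst hii
    rw [dist_E, hd s hs t ht, abs_le]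
    constructor <;> linarith [hs.1, hs.2, ht.1, ht.2]
  · show dist (Double.mk P.B j (Double.mk P.S i (l s))) (Double.mk P.B j (Double.mk P.S i' (l t))) ≤ L'
    rw [Double.dist_mk_same, Double.dist_mk_ne hii]
    have h0 : l 0 ∈ P.S := ⟨0, rfl, by rw [hF 0 0 h00, arc_start hL hc, Real.sinh_zero]⟩
    have h2 : l L' ∈ P.S := ⟨2, rfl, by
      rw [hF 2 L' hLm, arc_finish hL hc, sub_self, Real.sinh_zero]⟩
    have e1 := crossDist_le h0 (l s) (l t)
    have e2 := crossDist_le h2 (l s) (l t)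
    rw [hd s hs 0 h00, hd 0 h00 t ht, sub_zero, zero_sub, abs_neg, abs_of_nonneg hs.1,
      abs_of_nonneg ht.1] at e1
    rw [hd s hs L' hLm, hd L' hLm t ht, abs_sub_comm, abs_of_nonneg (by linarith [hs.2]),
      abs_of_nonneg (by linarith [ht.2])] at e2
    linarith

theorem not_isometric {P P' : Poly} (h : bil (P.v 0) (P.v 2) ≠ bil (P'.v 0) (P'.v 2)) :
    IsEmpty (P.X ≃ᵢ P'.X) := by
  refine ⟨fun f => ?_⟩
  obtain ⟨L, -, hL, hc, -⟩ := P.exists_arc (n := 0) (m := 2) (by omega)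
  obtain ⟨L', -, hL', hc', -⟩ := P'.exists_arc (n := 0) (m := 2) (by omega)
  obtain ⟨x, y, hxy, hd⟩ := P.exists_far_boundary hL hc
  obtain ⟨x', y', hxy', hd'⟩ := P'.exists_far_boundary hL' hc'
  have h1 := P'.dist_boundary_le hL' hc' (joinedIn_map f hxy)
  have h2 := P.dist_boundary_le hL hc (joinedIn_map f.symm hxy')
  rw [f.isometry.dist_eq, hd] at h1
  rw [f.symm.isometry.dist_eq, hd'] at h2
  have : L = L' := le_antisymm h1 h2
  rw [this, hc'] at hc
  exact h (by linarith)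

end Poly

end Pool.Agent.Hyp72
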