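import Mathlib

/-!
# The double of a metric space along a closed subset
-/

open Metric Set Topology

noncomputable section

namespace Pool.Agent.Hyp72

/-- Two copies of `M` (before gluing along `B`). -/
structure PreDouble (M : Type) (B : Set M) where
  /-- the point -/
  pt : M
  /-- the sheet -/
  sh : Bool

section Cross

variable {M : Type} [MetricSpace M] (B : Set M)

/-- Length of the shortest connection from `x` to `y` through `B`. -/
def crossDist (x y : M) : ℝ := ⨅ b : B, (dist x (b : M) + dist (b : M) y)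

variable {B}

lemma crossDist_bddBelow (x y : M) :
    BddBelow (range fun b : B => dist x (b : M) + dist (b : M) y) :=
  ⟨0, by rintro _ ⟨b, rfl⟩; positivity⟩

lemma crossDist_le {b : M} (hb : b ∈ B) (x y : M) : crossDist B x y ≤ dist x b + dist b y :=
  ciInf_le (crossDist_bddBelow x y) (⟨b, hb⟩ : B)

lemma le_crossDist [Nonempty B] {x y : M} {c : ℝ} (h : ∀ b ∈ B, c ≤ dist x b + dist b y) :
    c ≤ crossDist B x y := le_ciInf fun b => h b b.2

lemma crossDist_comm (x y : M) : crossDist B x y = crossDist B y x := by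
  unfold crossDist
  congr 1; funext b
  rw [dist_comm x, dist_comm _ y, add_comm]

lemma dist_le_crossDist [Nonempty B] (x y : M) : dist x y ≤ crossDist B x y :=
  le_crossDist fun b _ => dist_triangle x b y

lemma crossDist_le_add (x y z : M) [Nonempty B] :
    crossDist B x z ≤ dist x y + crossDist B y z := by
  have : crossDist B x z - dist x y ≤ crossDist B y z := le_crossDist fun b hb => by
    have h1 := crossDist_le hb x z
    have h2 := dist_triangle x y b
    linarith
  linarith

lemma crossDist_le_add' (x y z : M) [Nonempty B] :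
    crossDist B x z ≤ crossDist B x y + dist y z := by
  rw [crossDist_comm x z, crossDist_comm x y, dist_comm y z, add_comm]
  exact crossDist_le_add z y x

lemma dist_le_crossDist_add (x y z : M) [Nonempty B] :
    dist x z ≤ crossDist B x y + crossDist B y z := by
  have h1 := dist_triangle x y z
  have h2 := dist_le_crossDist (B := B) x y
  have h3 := dist_le_crossDist (B := B) y z
  linarith

instance [Nonempty B] : PseudoMetricSpace (PreDouble M B) where
  dist p q := if p.sh = q.sh then dist p.pt q.pt else crossDist B p.pt q.pt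
  dist_self p := by simp
  dist_comm p q := by
    by_cases h : p.sh = q.sh
    · simp [h, dist_comm]
    · simp [h, Ne.symm h, crossDist_comm]
  dist_triangle p q r := by
    obtain ⟨x, i⟩ := p
    obtain ⟨y, j⟩ := q
    obtain ⟨z, k⟩ := r
    cases i <;> cases j <;> cases k <;>
      simp [dist_triangle, crossDist_le_add, crossDist_le_add', dist_le_crossDist_add]

lemma preDist_def [Nonempty B] (p q : PreDouble M B) :
    dist p q = if p.sh = q.sh then dist p.pt q.pt else crossDist B p.pt q.pt := rfl

end Cross

/-- The double of `M` along `B`. -/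
def Double (M : Type) [MetricSpace M] (B : Set M) [Nonempty B] : Type :=
  SeparationQuotient (PreDouble M B)

namespace Double

variable {M : Type} [MetricSpace M] {B : Set M} [hBne : Nonempty B]

instance : MetricSpace (Double M B) := inferInstanceAs (MetricSpace (SeparationQuotient _))

/-- The inclusion of the sheet `i`. -/
def mk (B : Set M) [Nonempty B] (i : Bool) (x : M) : Double M B :=
  SeparationQuotient.mk ⟨x, i⟩

lemma dist_mk (i j : Bool) (x y : M) :
    dist (mk B i x) (mk B j y) = if i = j then dist x y else crossDist B x y := rfl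

@[simp] lemma dist_mk_same (i : Bool) (x y : M) : dist (mk B i x) (mk B i y) = dist x y := by
  simp [dist_mk]

lemma dist_mk_ne {i j : Bool} (h : i ≠ j) (x y : M) :
    dist (mk B i x) (mk B j y) = crossDist B x y := by simp [dist_mk, h]

lemma isometry_mk (i : Bool) : Isometry (mk B i) := Isometry.of_dist_eq (dist_mk_same i)

lemma exists_rep (p : Double M B) : ∃ i x, mk B i x = p := by
  obtain ⟨⟨x, i⟩, rfl⟩ := SeparationQuotient.surjective_mk p
  exact ⟨i, x, rfl⟩

lemma dist_le_dist_mk (i j : Bool) (x y : M) : dist x y ≤ dist (mk B i x) (mk B j y) := by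
  rw [dist_mk]
  split_ifs
  · exact le_rfl
  · exact dist_le_crossDist x y

/-- The folding map. -/
def fold (p : Double M B) : M := (exists_rep p).choose_spec.choose

@[simp] lemma fold_mk (i : Bool) (x : M) : fold (mk B i x) = x := by
  have h := (exists_rep (mk B i x)).choose_spec.choose_spec
  have h2 := dist_le_dist_mk (B := B) (exists_rep (mk B i x)).choose i
    (exists_rep (mk B i x)).choose_spec.choose x
  rw [h, dist_self] at h2
  exact dist_le_zero.mp h2

lemma exists_eq_mk (p : Double M B) : ∃ i, mk B i (fold p) = p := by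
  obtain ⟨i, x, rfl⟩ := exists_rep p
  exact ⟨i, by simp⟩

lemma dist_fold_le (p q : Double M B) : dist (fold p) (fold q) ≤ dist p q := by
  obtain ⟨i, x, rfl⟩ := exists_rep p
  obtain ⟨j, y, rfl⟩ := exists_rep q
  simpa using dist_le_dist_mk i j x y

lemma lipschitz_fold : LipschitzWith 1 (fold : Double M B → M) :=
  LipschitzWith.of_dist_le_mul fun p q => by simpa using dist_fold_le p q

lemma continuous_fold : Continuous (fold : Double M B → M) := lipschitz_fold.continuous

lemma mk_eq_of_mem {x : M} (hx : x ∈ B) (i j : Bool) : mk B i x = mk B j x := by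
  apply dist_le_zero.mp
  rw [dist_mk]
  split_ifs
  · simp
  · exact (crossDist_le hx x x).trans (by simp)

lemma crossDist_pos (hB : IsClosed B) {x : M} (hx : x ∉ B) (y : M) : 0 < crossDist B x y := by
  obtain ⟨ε, hε, h⟩ := Metric.isOpen_iff.mp hB.isOpen_compl x hx
  refine hε.trans_le (le_crossDist fun b hb => ?_)
  by_contra hcon
  push Not at hcon
  have : b ∈ ball x ε := by
    rw [mem_ball, dist_comm]
    have := dist_nonneg (x := b) (y := y)
    linarith
  exact h this hb

lemma mk_eq_mk_iff (hB : IsClosed B) {i j : Bool} {x y : M} :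
    mk B i x = mk B j y ↔ x = y ∧ (i ≠ j → x ∈ B) := by
  constructor
  · intro h
    have hxy : x = y := by simpa using congrArg fold h
    subst hxy
    refine ⟨rfl, fun hij => ?_⟩
    by_contra hx
    have := crossDist_pos hB hx x
    rw [← dist_mk_ne (B := B) hij, h, dist_self] at this
    exact lt_irrefl _ this
  · rintro ⟨rfl, h⟩
    by_cases hij : i = j
    · rw [hij]
    · exact mk_eq_of_mem (h hij) i j

/-- In a proper space the cross distance is attained. -/
lemma exists_crossDist [ProperSpace M] (hB : IsClosed B) (x y : M) :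
    ∃ b ∈ B, crossDist B x y = dist x b + dist b y := by
  obtain ⟨b0, hb0⟩ := hBne
  set R := dist x b0 + dist b0 y with hR
  have hcomp : IsCompact (B ∩ closedBall x R) :=
    (isCompact_closedBall x R).inter_left hB
  have hne : (B ∩ closedBall x R).Nonempty :=
    ⟨b0, hb0, by rw [mem_closedBall, dist_comm, hR]; linarith [dist_nonneg (x := b0) (y := y)]⟩
  obtain ⟨b, ⟨hbB, -⟩, hmin⟩ := hcomp.exists_isMinOn hne
    (f := fun b => dist x b + dist b y) (by fun_prop)
  have : Nonempty B := ⟨⟨b0, hb0⟩⟩
  refine ⟨b, hbB, le_antisymm (crossDist_le hbB x y) (le_crossDist fun b' hb' => ?_)⟩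
  by_cases h : b' ∈ closedBall x R
  · exact hmin ⟨hb', h⟩
  · have h1 : R < dist x b' := by rw [mem_closedBall, dist_comm] at h; linarith
    have h2 : dist x b + dist b y ≤ R := by
      apply hmin
      exact ⟨hb0, by rw [mem_closedBall, dist_comm, hR]; linarith [dist_nonneg (x := b0) (y := y)]⟩
    have := dist_nonneg (x := b') (y := y)
    linarith

instance [ProperSpace M] : ProperSpace (Double M B) where
  isCompact_closedBall p r := by
    have h : closedBall p r ⊆ ⋃ i : Bool, mk B i '' closedBall (fold p) r := by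
      intro q hq
      obtain ⟨i, hi⟩ := exists_eq_mk q
      refine mem_iUnion.mpr ⟨i, fold q, ?_, hi⟩
      rw [mem_closedBall] at hq ⊢
      exact (dist_fold_le q p).trans hq
    refine IsCompact.of_isClosed_subset ?_ isClosed_closedBall h
    exact isCompact_iUnion fun i => (isCompact_closedBall _ _).image (isometry_mk i).continuous

end Double

/-! ### Geodesic spaces -/

/-- `γ` is a geodesic from `x` to `y`. -/
structure IsGeod {X : Type} [MetricSpace X] (γ : ℝ → X) (x y : X) : Prop where
  start : γ 0 = x
  finish : γ (dist x y) = y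
  dist_eq : ∀ s ∈ Icc 0 (dist x y), ∀ t ∈ Icc 0 (dist x y), dist (γ s) (γ t) = |s - t|

/-- Every two points are joined by a geodesic. -/
def IsGeodesicSpace (X : Type) [MetricSpace X] : Prop := ∀ x y : X, ∃ γ : ℝ → X, IsGeod γ x y

lemma IsGeod.comp {X Y : Type} [MetricSpace X] [MetricSpace Y] {γ : ℝ → X} {x y : X}
    (h : IsGeod γ x y) {f : X → Y} (hf : Isometry f) : IsGeod (f ∘ γ) (f x) (f y) := by
  refine ⟨by simp [h.start], by simp [hf.dist_eq, h.finish], ?_⟩
  intro s hs t ht
  rw [hf.dist_eq] at hs ht
  simp only [Function.comp, hf.dist_eq]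
  exact h.dist_eq s hs t ht

lemma IsGeod.trans {X : Type} [MetricSpace X] {γ δ : ℝ → X} {x y z : X}
    (h1 : IsGeod γ x y) (h2 : IsGeod δ y z) (hd : dist x z = dist x y + dist y z) :
    IsGeod (fun t => if t ≤ dist x y then γ t else δ (t - dist x y)) x z := by
  have hxy := dist_nonneg (x := x) (y := y)
  have hyz := dist_nonneg (x := y) (y := z)
  have hδ : ∀ t, dist x y ≤ t → (if t ≤ dist x y then γ t else δ (t - dist x y)) =
      δ (t - dist x y) := by
    intro t ht
    split_ifs with h
    · rw [le_antisymm h ht, h1.finish, sub_self, h2.start]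
    · rfl
  have hγ : ∀ t, t ≤ dist x y → (if t ≤ dist x y then γ t else δ (t - dist x y)) = γ t := by
    intro t ht; rw [if_pos ht]
  have hcross : ∀ s ∈ Icc 0 (dist x z), ∀ t ∈ Icc 0 (dist x z), s ≤ dist x y → dist x y ≤ t →
      dist (γ s) (δ (t - dist x y)) = t - s := by
    intro s hs t ht hs' ht'
    have a1 : dist (γ s) y = dist x y - s := by
      conv_lhs => rw [← h1.finish]
      rw [h1.dist_eq s ⟨hs.1, hs'⟩ _ ⟨hxy, le_rfl⟩, abs_sub_comm, abs_of_nonneg (by linarith)]
    have a2 : dist y (δ (t - dist x y)) = t - dist x y := by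
      have e := h2.dist_eq 0 ⟨le_rfl, hyz⟩ (t - dist x y) ⟨by linarith, by linarith [ht.2]⟩
      rw [h2.start] at e
      rw [e, zero_sub, abs_neg, abs_of_nonneg (by linarith)]
    have a3 : dist x (γ s) = s := by
      conv_lhs => rw [← h1.start]
      rw [h1.dist_eq 0 ⟨le_rfl, hxy⟩ _ ⟨hs.1, hs'⟩, zero_sub, abs_neg, abs_of_nonneg hs.1]
    have a4 : dist (δ (t - dist x y)) z = dist y z - (t - dist x y) := by
      conv_lhs => rw [← h2.finish]
      rw [h2.dist_eq _ ⟨by linarith, by linarith [ht.2]⟩ _ ⟨hyz, le_rfl⟩, abs_sub_comm,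
        abs_of_nonneg (by linarith [ht.2])]
    have b1 := dist_triangle (γ s) y (δ (t - dist x y))
    have b2 := dist_triangle x (γ s) z
    have b3 := dist_triangle (γ s) (δ (t - dist x y)) z
    linarith
  refine ⟨?_, ?_, ?_⟩
  · show (if (0:ℝ) ≤ dist x y then γ 0 else _) = x
    rw [hγ 0 hxy, h1.start]
  · show (if dist x z ≤ dist x y then γ (dist x z) else _) = z
    rw [hδ _ (by linarith)]
    have : dist x z - dist x y = dist y z := by linarith
    rw [this, h2.finish]
  · intro s hs t ht
    rcases le_total s (dist x y) with hs' | hs' <;> rcases le_total t (dist x y) with ht' | ht'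
    · simp only [hγ s hs', hγ t ht']
      exact h1.dist_eq s ⟨hs.1, hs'⟩ t ⟨ht.1, ht'⟩
    · simp only [hγ s hs', hδ t ht']
      rw [hcross s hs t ht hs' ht', abs_sub_comm, abs_of_nonneg (by linarith)]
    · simp only [hδ s hs', hγ t ht']
      rw [dist_comm, hcross t ht s hs ht' hs', abs_of_nonneg (by linarith)]
    · simp only [hδ s hs', hδ t ht']
      rw [h2.dist_eq _ ⟨by linarith, by linarith [hs.2]⟩ _ ⟨by linarith, by linarith [ht.2]⟩]
      congr 1; ring

lemma IsGeodesicSpace.double {M : Type} [MetricSpace M] [ProperSpace M] {B : Set M}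
    [Nonempty B] (hB : IsClosed B) (hM : IsGeodesicSpace M) : IsGeodesicSpace (Double M B) := by
  intro p q
  obtain ⟨i, x, rfl⟩ := Double.exists_rep p
  obtain ⟨j, y, rfl⟩ := Double.exists_rep q
  by_cases hij : i = j
  · subst hij
    obtain ⟨γ, hγ⟩ := hM x y
    exact ⟨_, hγ.comp (Double.isometry_mk i)⟩
  · obtain ⟨b, hb, hbd⟩ := Double.exists_crossDist hB x y
    obtain ⟨γ, hγ⟩ := hM x b
    obtain ⟨δ, hδ⟩ := hM b y
    have h1 := hγ.comp (Double.isometry_mk (B := B) i)
    have h2 := hδ.comp (Double.isometry_mk (B := B) j)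
    rw [Double.mk_eq_of_mem hb i j] at h1
    refine ⟨_, h1.trans h2 ?_⟩
    rw [Double.dist_mk_ne hij, hbd, Double.dist_mk_same, ← Double.mk_eq_of_mem hb i j,
      Double.dist_mk_same]

lemma IsGeod.exists_path {X : Type} [MetricSpace X] {γ : ℝ → X} {x y : X} (h : IsGeod γ x y) :
    ∃ p : Path x y, eVariationOn p univ ≤ ENNReal.ofReal (dist x y) ∧
      ∀ t, p t ∈ γ '' Icc 0 (dist x y) := by
  have hd := dist_nonneg (x := x) (y := y)
  have hmaps : ∀ t : unitInterval, (t : ℝ) * dist x y ∈ Icc 0 (dist x y) := fun t =>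
    ⟨mul_nonneg t.2.1 hd, mul_le_of_le_one_left hd t.2.2⟩
  have hL : LipschitzOnWith 1 γ (Icc 0 (dist x y)) :=
    LipschitzOnWith.of_dist_le_mul fun s hs t ht => by
      rw [h.dist_eq s hs t ht, Real.dist_eq]; simp
  refine ⟨⟨⟨fun t => γ ((t : ℝ) * dist x y), ?_⟩, ?_, ?_⟩, ?_, ?_⟩
  · exact hL.continuousOn.comp_continuous (by fun_prop) hmaps
  · simp [h.start]
  · simp [h.finish]
  · have h1 := hL.comp_eVariationOn_le (g := fun t : unitInterval => (t : ℝ) * dist x y)
      (s := univ) (fun t _ => hmaps t)
    have h2 : eVariationOn (fun t : unitInterval => (t : ℝ) * dist x y) (univ ∩ Icc 0 1) =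
        ENNReal.ofReal ((1:ℝ) * dist x y - (0:ℝ) * dist x y) := by
      apply MonotoneOn.eVariationOn_eq
      · intro a _ b _ hab
        exact mul_le_mul_of_nonneg_right hab hd
      · trivial
      · trivial
    have h3 : (univ : Set unitInterval) ∩ Icc 0 1 = univ := by
      ext t
      simp only [univ_inter, mem_Icc, mem_univ, iff_true]
      exact ⟨unitInterval.nonneg t, unitInterval.le_one t⟩
    rw [h3, one_mul, zero_mul, sub_zero] at h2
    rw [h2, ENNReal.coe_one, one_mul] at h1
    exact h1
  · intro t
    exact ⟨_, hmaps t, rfl⟩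

end Pool.Agent.Hyp72
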