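import Pool.Agent.Lib_helper72.Hyp.Plane2
import Pool.Agent.Lib_helper72.Hyp.Double

/-!
# Isometric charts and doubling
-/

open Metric Set UpperHalfPlane Topology
open scoped MatrixGroups

noncomputable section

namespace Pool.Agent.Hyp72

/-- An isometric chart at `x` whose image is the intersection of a ball with the half-planes
`{F u ≥ 0}`, `u ∈ U`. -/
structure LChart {X : Type} [MetricSpace X] (x : X) (φ : X → ℍ) (r : ℝ) (U : Set V) : Prop where
  pos : 0 < r
  isom : ∀ y ∈ ball x r, ∀ z ∈ ball x r, dist (φ y) (φ z) = dist y z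
  image : φ '' ball x r = ball (φ x) r ∩ {w | ∀ u ∈ U, 0 ≤ F u w}

namespace LChart

variable {X : Type} [MetricSpace X] {x : X} {φ : X → ℍ} {r : ℝ} {U : Set V}

lemma mem_self (h : LChart x φ r U) : x ∈ ball x r := mem_ball_self h.pos

lemma nonneg (h : LChart x φ r U) {y : X} (hy : y ∈ ball x r) {u : V} (hu : u ∈ U) :
    0 ≤ F u (φ y) := by
  have : φ y ∈ φ '' ball x r := mem_image_of_mem _ hy
  rw [h.image] at this
  exact this.2 u hu

lemma exists_preim (h : LChart x φ r U) {w : ℍ} (hw : w ∈ ball (φ x) r)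
    (hu : ∀ u ∈ U, 0 ≤ F u w) : ∃ y ∈ ball x r, φ y = w := by
  have : w ∈ φ '' ball x r := by rw [h.image]; exact ⟨hw, hu⟩
  exact this

lemma mono (h : LChart x φ r U) {r' : ℝ} (h0 : 0 < r') (hr : r' ≤ r) : LChart x φ r' U := by
  have hsub : ball x r' ⊆ ball x r := ball_subset_ball hr
  refine ⟨h0, fun y hy z hz => h.isom y (hsub hy) z (hsub hz), ?_⟩
  ext w
  constructor
  · rintro ⟨y, hy, rfl⟩
    refine ⟨?_, fun u hu => h.nonneg (hsub hy) hu⟩
    rw [mem_ball, h.isom y (hsub hy) x h.mem_self]; exact hy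
  · rintro ⟨hw, hu⟩
    obtain ⟨y, hy, rfl⟩ := h.exists_preim (ball_subset_ball hr hw) hu
    refine ⟨y, ?_, rfl⟩
    rw [mem_ball, h.isom y hy x h.mem_self] at hw; exact hw

lemma smul (h : LChart x φ r U) (g : GL (Fin 2) ℝ) {U' : Set V}
    (hg : ∀ z, (∀ u ∈ U', 0 ≤ F u (g • z)) ↔ (∀ u ∈ U, 0 ≤ F u z)) :
    LChart x (fun y => g • φ y) r U' := by
  refine ⟨h.pos, fun y hy z hz => by rw [dist_gl_smul]; exact h.isom y hy z hz, ?_⟩
  ext w
  constructor
  · rintro ⟨y, hy, rfl⟩
    refine ⟨?_, ?_⟩
    · rw [mem_ball, dist_gl_smul, h.isom y hy x h.mem_self]; exact hy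
    · exact (hg _).mpr fun u hu => h.nonneg hy hu
  · rintro ⟨hw, hu⟩
    have e : g • (g⁻¹ • w) = w := smul_inv_smul g w
    have h1 : g⁻¹ • w ∈ ball (φ x) r := by
      rw [mem_ball, ← dist_gl_smul g, e]; exact hw
    have h2 : ∀ u ∈ U, 0 ≤ F u (g⁻¹ • w) := by
      rw [← hg, e]; exact hu
    obtain ⟨y, hy, hyw⟩ := h.exists_preim h1 h2
    exact ⟨y, hy, by simp only [hyw, e]⟩

/-- Two maps agreeing on the ball. -/
lemma congr (h : LChart x φ r U) {ψ : X → ℍ} (hψ : ∀ y ∈ ball x r, ψ y = φ y) :
    LChart x ψ r U := by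
  refine ⟨h.pos, fun y hy z hz => by rw [hψ y hy, hψ z hz]; exact h.isom y hy z hz, ?_⟩
  rw [hψ x h.mem_self, ← h.image]
  exact image_congr hψ

end LChart

open Classical in
/-- The doubled chart. -/
def dbl {M : Type} [MetricSpace M] {B : Set M} [Nonempty B] (g : GL (Fin 2) ℝ) (φ : M → ℍ)
    (p : Double M B) : ℍ :=
  if p = Double.mk B false (Double.fold p) then φ (Double.fold p) else g • φ (Double.fold p)

section dbl

variable {M : Type} [MetricSpace M] {B : Set M} [hBn : Nonempty B]

lemma dbl_false (g : GL (Fin 2) ℝ) (φ : M → ℍ) (y : M) : dbl g φ (Double.mk B false y) = φ y := by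
  simp [dbl]

lemma dbl_true (g : GL (Fin 2) ℝ) (φ : M → ℍ) (hB : IsClosed B) {y : M}
    (hy : y ∈ B → g • φ y = φ y) : dbl g φ (Double.mk B true y) = g • φ y := by
  unfold dbl
  rw [Double.fold_mk]
  split_ifs with h
  · rw [Double.mk_eq_mk_iff hB] at h
    exact (hy (h.2 (by simp))).symm
  · rfl

lemma mem_ball_mk {x : M} (hx : x ∈ B) {r : ℝ} (i j : Bool) (y : M) :
    Double.mk B j y ∈ ball (Double.mk B i x) r ↔ y ∈ ball x r := by
  rw [mem_ball, Double.mk_eq_of_mem hx i j, Double.dist_mk_same, mem_ball]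

/-- Doubling a chart at a point of the mirror. -/
lemma LChart.double_on {x : M} {φ : M → ℍ} {r : ℝ} {U : Set V} {v : V} (hB : IsClosed B)
    (hx : x ∈ B) (hv : bil v v = 1) (h : LChart x φ r (insert v U))
    (hUv : ∀ u ∈ U, bil u v = 0) (hBr : ∀ y ∈ ball x r, y ∈ B ↔ F v (φ y) = 0) (i : Bool) :
    LChart (Double.mk B i x) (dbl (refl v hv) φ) (r / 2) U ∧
      ∀ j, ∀ y ∈ ball x r, dbl (refl v hv) φ (Double.mk B j y) =
        if j then refl v hv • φ y else φ y := by
  have hval : ∀ j, ∀ y ∈ ball x r, dbl (refl v hv) φ (Double.mk B j y) =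
        if j then refl v hv • φ y else φ y := by
    intro j y hy
    cases j
    · simp [dbl_false]
    · rw [dbl_true _ _ hB]
      · simp
      · intro hyB
        exact refl_smul_eq_self hv ((hBr y hy).mp hyB)
  refine ⟨?_, hval⟩
  have hr := h.pos
  have hsub : ball x (r / 2) ⊆ ball x r := ball_subset_ball (by linarith)
  have hxx := h.mem_self
  have hFx : F v (φ x) = 0 := (hBr x hxx).mp hx
  have hFnn : ∀ y ∈ ball x r, 0 ≤ F v (φ y) := fun y hy => h.nonneg hy (mem_insert _ _)
  have hcenter : dbl (refl v hv) φ (Double.mk B i x) = φ x := by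
    rw [hval i x hxx]
    split_ifs
    · exact refl_smul_eq_self hv hFx
    · rfl
  -- the cross distance
  have hcross : ∀ y ∈ ball x (r / 2), ∀ z ∈ ball x (r / 2),
      crossDist B y z = dist (φ y) (refl v hv • φ z) := by
    intro y hy z hz
    have hyx : dist (φ y) (φ x) < r / 2 := by rw [h.isom y (hsub hy) x hxx]; exact hy
    have hzx : dist (φ z) (φ x) < r / 2 := by rw [h.isom z (hsub hz) x hxx]; exact hz
    have hzx' : dist (refl v hv • φ z) (φ x) < r / 2 := by
      rw [dist_comm, dist_refl_eq hv hFx, dist_comm]; exact hzx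
    have hsum : dist (φ y) (refl v hv • φ z) < r := by
      have := dist_triangle_right (φ y) (refl v hv • φ z) (φ x)
      linarith
    apply le_antisymm
    · obtain ⟨m, hm0, hmd, hmU⟩ := exists_cross v (φ y) (refl v hv • φ z) (hFnn y (hsub hy))
        (by rw [F_refl_self]; linarith [hFnn z (hsub hz)])
      have hmball : m ∈ ball (φ x) r := by
        rw [mem_ball]
        have t1 := dist_triangle m (φ y) (φ x)
        have t2 := dist_triangle m (refl v hv • φ z) (φ x)
        rw [dist_comm m (φ y)] at t1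
        linarith
      obtain ⟨b, hb, hbm⟩ := h.exists_preim hmball (by
        intro u hu
        rcases hu with rfl | hu
        · rw [hm0]
        · apply hmU u (h.nonneg (hsub hy) (mem_insert_of_mem _ hu))
          rw [F_refl, hUv u hu, mul_zero, sub_zero]
          exact h.nonneg (hsub hz) (mem_insert_of_mem _ hu))
      have hbB : b ∈ B := (hBr b hb).mpr (by rw [hbm, hm0])
      refine (crossDist_le hbB y z).trans (le_of_eq ?_)
      rw [← h.isom y (hsub hy) b hb, ← h.isom b hb z (hsub hz), hbm, ← hmd]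
      rw [dist_refl_eq hv hm0]
    · refine le_crossDist fun b hb => ?_
      by_cases hbr : b ∈ ball x r
      · have hFb : F v (φ b) = 0 := (hBr b hbr).mp hb
        rw [← h.isom y (hsub hy) b hbr, ← h.isom b hbr z (hsub hz), ← dist_refl_eq hv hFb]
        exact dist_triangle _ _ _
      · have hbr' : r ≤ dist b x := not_lt.mp hbr
        have t1 := dist_triangle b y x
        have t2 := dist_triangle b z x
        rw [mem_ball] at hy hz
        rw [dist_comm b y] at t1
        linarith
  have hcrossball : ∀ j k, ∀ y ∈ ball x (r / 2), ∀ z ∈ ball x (r / 2),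
      dist (dbl (refl v hv) φ (Double.mk B j y)) (dbl (refl v hv) φ (Double.mk B k z)) =
        dist (Double.mk B j y) (Double.mk B k z) := by
    intro j k y hy z hz
    rw [hval j y (hsub hy), hval k z (hsub hz)]
    cases j <;> cases k
    · simp [h.isom y (hsub hy) z (hsub hz)]
    · simp only [Bool.false_eq_true, if_false, if_true]
      rw [Double.dist_mk_ne (by simp), hcross y hy z hz]
    · simp only [Bool.false_eq_true, if_false, if_true]
      rw [Double.dist_mk_ne (by simp), crossDist_comm, hcross z hz y hy, dist_comm]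
    · simp only [if_true]
      rw [dist_gl_smul, h.isom y (hsub hy) z (hsub hz)]; simp
  refine ⟨by linarith, ?_, ?_⟩
  · intro p hp q hq
    obtain ⟨j, y, rfl⟩ := Double.exists_rep p
    obtain ⟨k, z, rfl⟩ := Double.exists_rep q
    rw [mem_ball_mk hx] at hp hq
    exact hcrossball j k y hp z hq
  · ext w
    rw [hcenter]
    constructor
    · rintro ⟨p, hp, rfl⟩
      obtain ⟨j, y, rfl⟩ := Double.exists_rep p
      rw [mem_ball_mk hx] at hp
      refine ⟨?_, fun u hu => ?_⟩
      · rw [mem_ball, ← hcenter, hcrossball j i y hp x (mem_ball_self (by linarith)),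
          Double.mk_eq_of_mem hx i j, Double.dist_mk_same]
        exact hp
      · rw [hval j y (hsub hp)]
        have := h.nonneg (hsub hp) (mem_insert_of_mem v hu)
        split_ifs
        · rw [F_refl, hUv u hu, mul_zero, sub_zero]; exact this
        · exact this
    · rintro ⟨hw, hwU⟩
      rcases le_total 0 (F v w) with hpos | hneg
      · obtain ⟨y, hy, hyw⟩ := h.exists_preim (w := w) (ball_subset_ball (by linarith) hw) (by
          intro u hu
          rcases hu with rfl | hu
          · exact hpos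
          · exact hwU u hu)
        refine ⟨Double.mk B false y, ?_, ?_⟩
        · rw [mem_ball_mk hx, mem_ball, ← h.isom y hy x hxx, hyw]; exact hw
        · rw [hval _ y hy]; simpa using hyw
      · have hw' : refl v hv • w ∈ ball (φ x) (r / 2) := by
          rw [mem_ball, dist_comm, dist_refl_eq hv hFx, dist_comm]; exact hw
        obtain ⟨y, hy, hyw⟩ := h.exists_preim (w := refl v hv • w)
          (ball_subset_ball (by linarith) hw') (by
          intro u hu
          rcases hu with rfl | hu
          · rw [F_refl_self]; linarith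
          · rw [F_refl, hUv u hu, mul_zero, sub_zero]; exact hwU u hu)
        refine ⟨Double.mk B true y, ?_, ?_⟩
        · rw [mem_ball_mk hx, mem_ball, ← h.isom y hy x hxx, hyw]; exact hw'
        · rw [hval _ y hy]; simp [hyw, refl_smul_refl_smul]

/-- Doubling a chart away from the mirror. -/
lemma LChart.double_off {x : M} {φ : M → ℍ} {r : ℝ} {U : Set V} (hB : IsClosed B)
    (hx : x ∉ B) (h : LChart x φ r U) : ∃ r', 0 < r' ∧ r' ≤ r ∧ ∀ i,
      LChart (Double.mk B i x) (φ ∘ Double.fold) r' U ∧
      ∀ j y, Double.mk B j y ∈ ball (Double.mk B i x) r' → j = i := by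
  obtain ⟨ε, hε, hεB⟩ := Metric.isOpen_iff.mp hB.isOpen_compl x hx
  have hr := h.pos
  refine ⟨min r ε, lt_min hr hε, min_le_left _ _, fun i => ?_⟩
  have hsheet : ∀ j y, Double.mk B j y ∈ ball (Double.mk B i x) (min r ε) → j = i := by
    intro j y hy
    by_contra hji
    rw [mem_ball, Double.dist_mk_ne hji] at hy
    have : ε ≤ crossDist B y x := le_crossDist fun b hb => by
      have : b ∉ ball x ε := fun hb' => hεB hb' hb
      have h1 : ε ≤ dist b x := not_lt.mp this
      have := dist_nonneg (x := y) (y := b)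
      linarith
    have := min_le_right r ε
    linarith
  refine ⟨⟨lt_min hr hε, ?_, ?_⟩, hsheet⟩
  · intro p hp q hq
    obtain ⟨j, y, rfl⟩ := Double.exists_rep p
    obtain ⟨k, z, rfl⟩ := Double.exists_rep q
    obtain rfl := hsheet _ _ hp
    obtain rfl := hsheet _ _ hq
    simp only [Function.comp, Double.fold_mk, Double.dist_mk_same, mem_ball] at hp hq ⊢
    exact h.isom y (lt_of_lt_of_le hp (min_le_left _ _)) z (lt_of_lt_of_le hq (min_le_left _ _))
  · have hmin := h.mono (lt_min hr hε) (min_le_left r ε)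
    simp only [Function.comp, Double.fold_mk]
    rw [← hmin.image]
    ext w
    constructor
    · rintro ⟨p, hp, rfl⟩
      obtain ⟨j, y, rfl⟩ := Double.exists_rep p
      obtain rfl := hsheet _ _ hp
      simp only [Double.dist_mk_same, mem_ball] at hp
      exact ⟨y, hp, by simp⟩
    · rintro ⟨y, hy, rfl⟩
      exact ⟨Double.mk B i y, by simpa using hy, by simp⟩

end dbl

end Pool.Agent.Hyp72
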