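import Mathlib

/-!
# Hyperbolic surfaces, simple closed geodesics, simple length spectrum

A hyperbolic surface (possibly with geodesic boundary) is treated as a metric space, with the
distance function of the Riemannian metric.  The hyperbolic plane is Mathlib's `ℍ`.
-/

open Metric Set UpperHalfPlane Topology
open scoped MatrixGroups

namespace Pool.Agent.SimpleSpectrum

/-- `φ` maps the ball of radius `r` at `x` isometrically onto a ball of the hyperbolic plane. -/
structure IsInteriorChart {X : Type} [MetricSpace X] (x : X) (φ : X → ℍ) (r : ℝ) : Prop where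
  pos : 0 < r
  isom : ∀ y ∈ ball x r, ∀ z ∈ ball x r, dist (φ y) (φ z) = dist y z
  image : φ '' ball x r = ball (φ x) r

/-- `φ` maps the ball of radius `r` at `x` isometrically onto the intersection of a ball, centred
on the geodesic `re = 0`, with the closed half-plane `0 ≤ re` bounded by this geodesic. -/
structure IsBoundaryChart {X : Type} [MetricSpace X] (x : X) (φ : X → ℍ) (r : ℝ) : Prop where
  pos : 0 < r
  isom : ∀ y ∈ ball x r, ∀ z ∈ ball x r, dist (φ y) (φ z) = dist y z
  center : (φ x).re = 0
  image : φ '' ball x r = ball (φ x) r ∩ {w | 0 ≤ w.re}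

/-- The boundary points: those which have a boundary chart. -/
def surfaceBoundary (X : Type) [MetricSpace X] : Set X :=
  {x | ∃ φ r, IsBoundaryChart x φ r}

/-- A metric space is a hyperbolic surface, possibly with compact geodesic boundary: it is
connected, second countable, its distance is the infimum of the lengths of paths, it has an atlas
of isometric charts, onto discs or half discs of the hyperbolic plane, whose transition maps are
orientation preserving isometries of the hyperbolic plane, and its boundary is compact. -/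
structure IsHyperbolicSurface (X : Type) [MetricSpace X] : Prop where
  connected : ConnectedSpace X
  secondCountable : SecondCountableTopology X
  length : ∀ (x y : X) (ε : ℝ), 0 < ε →
    ∃ p : Path x y, eVariationOn p univ ≤ ENNReal.ofReal (dist x y + ε)
  atlas : ∃ (φ : X → X → ℍ) (r : X → ℝ),
    (∀ x, IsInteriorChart x (φ x) (r x) ∨ IsBoundaryChart x (φ x) (r x)) ∧
    ∀ x y, ∀ z ∈ ball x (r x) ∩ ball y (r y), ∃ g : SL(2, ℝ), ∀ᶠ w in 𝓝 z, φ y w = g • φ x w
  compact_boundary : IsCompact (surfaceBoundary X)

/-- `γ` is locally distance preserving on `I` (for an interval `I`: a unit speed geodesic). -/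
def IsGeodesicOn {X : Type} [MetricSpace X] (γ : ℝ → X) (I : Set ℝ) : Prop :=
  ∀ t ∈ I, ∃ ε > 0, ∀ s ∈ I, ∀ s' ∈ I, |s - t| < ε → |s' - t| < ε → dist (γ s) (γ s') = |s - s'|

/-- `C` is (the image of) a simple closed geodesic of length `ℓ`. -/
def IsSimpleClosedGeodesic {X : Type} [MetricSpace X] (ℓ : ℝ) (C : Set X) : Prop :=
  0 < ℓ ∧ ∃ γ : ℝ → X, IsGeodesicOn γ univ ∧ (∀ s t, γ s = γ t ↔ ∃ n : ℤ, s - t = n * ℓ) ∧
    C = range γ

/-- Every point lies on a geodesic segment whose endpoints lie on simple closed geodesics. -/
def NielsenConvex (X : Type) [MetricSpace X] : Prop :=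
  ∀ x : X, ∃ (γ : ℝ → X) (a b : ℝ), a < b ∧ IsGeodesicOn γ (Icc a b) ∧ x ∈ γ '' Icc a b ∧
    (∃ ℓ C, IsSimpleClosedGeodesic ℓ C ∧ γ a ∈ C) ∧ (∃ ℓ C, IsSimpleClosedGeodesic ℓ C ∧ γ b ∈ C)

/-- The simple length spectrum, as the function which counts for every `ℓ` the simple closed
geodesics of length `ℓ` (the geodesic representatives of the essential and boundary curves). -/
noncomputable def simpleLengthSpectrum (X : Type) [MetricSpace X] (ℓ : ℝ) : ℕ∞ :=
  {C : Set X | IsSimpleClosedGeodesic ℓ C}.encard

end Pool.Agent.SimpleSpectrum
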