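import Pool.Agent.Lib_helper72.Hyp.Double
import Pool.Agent.Lib_helper72.Hyp.Defs

/-!
# Closed geodesics in a double
-/

open Metric Set Topology
open Pool.Agent.SimpleSpectrum

noncomputable section

namespace Pool.Agent.Hyp72

section

variable {M : Type} [MetricSpace M] {B : Set M} [hBn : Nonempty B]

/-- The doubled arc. -/
def loopFun (B : Set M) [Nonempty B] (L : ℝ) (hL : 0 < 2 * L) (l : ℝ → M) (t : ℝ) : Double M B :=
  if 0 ≤ toIcoMod hL (-L) t then Double.mk B false (l (toIcoMod hL (-L) t))
  else Double.mk B true (l (-toIcoMod hL (-L) t))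

lemma loopFun_add (L : ℝ) (hL : 0 < 2 * L) (l : ℝ → M) (t : ℝ) (k : ℤ) :
    loopFun B L hL l (t + k * (2 * L)) = loopFun B L hL l t := by
  unfold loopFun
  have : t + k * (2 * L) = t + k • (2 * L) := by simp
  rw [this, toIcoMod_add_zsmul]

lemma loopFun_eq {L : ℝ} (hL : 0 < 2 * L) {l : ℝ → M} (hlL : l L ∈ B) {t : ℝ}
    (ht : t ∈ Icc (-L) L) : loopFun B L hL l t =
      if 0 ≤ t then Double.mk B false (l t) else Double.mk B true (l (-t)) := by
  rcases ht.2.lt_or_eq with h | h
  · have : toIcoMod hL (-L) t = t := by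
      rw [toIcoMod_eq_self]; exact ⟨ht.1, by linarith⟩
    unfold loopFun
    rw [this]
  · subst h
    have : toIcoMod hL (-t) t = -t := by
      rw [toIcoMod_eq_iff]
      exact ⟨⟨le_rfl, by linarith⟩, 1, by simp; ring⟩
    unfold loopFun
    rw [this, if_neg (by linarith), if_pos (by linarith), neg_neg]
    exact Double.mk_eq_of_mem hlL _ _

lemma loopFun_eq_of_nonneg {L : ℝ} (hL : 0 < 2 * L) {l : ℝ → M} (hlL : l L ∈ B) {t : ℝ}
    (ht : t ∈ Icc 0 L) : loopFun B L hL l t = Double.mk B false (l t) := by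
  rw [loopFun_eq hL hlL ⟨by linarith [ht.1], ht.2⟩, if_pos ht.1]

lemma loopFun_eq_of_nonpos {L : ℝ} (hL : 0 < 2 * L) {l : ℝ → M} (hl0 : l 0 ∈ B)
    (hlL : l L ∈ B) {t : ℝ} (ht : t ∈ Icc (-L) 0) :
    loopFun B L hL l t = Double.mk B true (l (-t)) := by
  rw [loopFun_eq hL hlL ⟨ht.1, by linarith [ht.1, ht.2]⟩]
  split_ifs with h
  · obtain rfl : t = 0 := le_antisymm ht.2 h
    rw [neg_zero]
    exact Double.mk_eq_of_mem hl0 _ _
  · rfl

theorem isSimpleClosedGeodesic_double (hB : IsClosed B) {L : ℝ} (hL : 0 < L) {l : ℝ → M}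
    (hd : ∀ s ∈ Icc 0 L, ∀ t ∈ Icc 0 L, dist (l s) (l t) = |s - t|)
    (h0 : l 0 ∈ B) (h1 : l L ∈ B) (hin : ∀ t ∈ Ioo 0 L, l t ∉ B) {ε : ℝ} (hε : 0 < ε)
    (hs0 : ∀ s ∈ Icc 0 L, s < ε → ∀ b ∈ B, s ≤ dist (l s) b)
    (hs1 : ∀ s ∈ Icc 0 L, L - s < ε → ∀ b ∈ B, L - s ≤ dist (l s) b) :
    IsSimpleClosedGeodesic (2 * L) {p : Double M B | ∃ i, ∃ t ∈ Icc 0 L, p = Double.mk B i (l t)} := by
  have hL2 : 0 < 2 * L := by linarith
  have cross0 : ∀ s ∈ Icc 0 L, ∀ t ∈ Icc 0 L, s < ε → t < ε → crossDist B (l s) (l t) = s + t := by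
    intro s hs t ht hsε htε
    apply le_antisymm
    · refine (crossDist_le h0 _ _).trans (le_of_eq ?_)
      rw [hd s hs 0 ⟨le_rfl, hL.le⟩, hd 0 ⟨le_rfl, hL.le⟩ t ht, sub_zero, zero_sub, abs_neg,
        abs_of_nonneg hs.1, abs_of_nonneg ht.1]
    · refine le_crossDist fun b hb => ?_
      have e1 := hs0 s hs hsε b hb
      have e2 := hs0 t ht htε b hb
      rw [dist_comm b]; linarith
  have crossL : ∀ s ∈ Icc 0 L, ∀ t ∈ Icc 0 L, L - s < ε → L - t < ε →
      crossDist B (l s) (l t) = (L - s) + (L - t) := by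
    intro s hs t ht hsε htε
    apply le_antisymm
    · refine (crossDist_le h1 _ _).trans (le_of_eq ?_)
      rw [hd s hs L ⟨hL.le, le_rfl⟩, hd L ⟨hL.le, le_rfl⟩ t ht, abs_sub_comm,
        abs_of_nonneg (by linarith [hs.2]), abs_of_nonneg (by linarith [ht.2])]
    · refine le_crossDist fun b hb => ?_
      have e1 := hs1 s hs hsε b hb
      have e2 := hs1 t ht htε b hb
      rw [dist_comm b]; linarith
  refine ⟨hL2, loopFun B L hL2 l, ?_, ?_, ?_⟩
  · intro t _
    -- translate to the fundamental domain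
    set u := toIcoMod hL2 (-L) t with hu
    set k := toIcoDiv hL2 (-L) t with hk
    have hut : t = u + k * (2 * L) := by
      have := self_sub_toIcoDiv_zsmul hL2 (-L) t
      rw [← hu, ← hk, zsmul_eq_mul] at this
      linarith
    have humem : u ∈ Ico (-L) (-L + 2 * L) := toIcoMod_mem_Ico hL2 (-L) t
    have hlocal : ∃ ε' > 0, ∀ s s' : ℝ, |s - u| < ε' → |s' - u| < ε' →
        dist (loopFun B L hL2 l s) (loopFun B L hL2 l s') = |s - s'| := by
      rcases lt_trichotomy u 0 with hneg | hzero | hpos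
      · rcases humem.1.lt_or_eq with hgt | heq
        · refine ⟨min (-u) (u + L), lt_min (by linarith) (by linarith), fun s s' hs hs' => ?_⟩
          have a1 := min_le_left (-u) (u + L)
          have a2 := min_le_right (-u) (u + L)
          rw [abs_lt] at hs hs'
          rw [loopFun_eq_of_nonpos hL2 h0 h1 ⟨by linarith, by linarith⟩,
            loopFun_eq_of_nonpos hL2 h0 h1 ⟨by linarith, by linarith⟩, Double.dist_mk_same,
            hd _ ⟨by linarith, by linarith⟩ _ ⟨by linarith, by linarith⟩]
          rw [abs_sub_comm]; congr 1; ring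
        · -- `u = -L`
          refine ⟨min ε L, lt_min hε hL, fun s s' hs hs' => ?_⟩
          have a1 := min_le_left ε L
          have a2 := min_le_right ε L
          rw [← heq] at hs hs'
          have hform : ∀ s, |s - -L| < min ε L → (s ≤ -L ∧ loopFun B L hL2 l s =
              Double.mk B false (l (s + 2 * L))) ∨ (-L ≤ s ∧ loopFun B L hL2 l s =
              Double.mk B true (l (-s))) := by
            intro s hs
            rw [abs_lt] at hs
            rcases le_total s (-L) with h | h
            · left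
              refine ⟨h, ?_⟩
              have := loopFun_add (B := B) L hL2 l s 1
              rw [← this, Int.cast_one, one_mul,
                loopFun_eq_of_nonneg hL2 h1 ⟨by linarith, by linarith⟩]
            · right
              exact ⟨h, loopFun_eq_of_nonpos hL2 h0 h1 ⟨by linarith, by linarith⟩⟩
          have f1 := hform s hs
          have f2 := hform s' hs'
          rw [abs_lt] at hs hs'
          rcases f1 with ⟨g1, e1⟩ | ⟨g1, e1⟩ <;> rcases f2 with ⟨g2, e2⟩ | ⟨g2, e2⟩ <;>
            rw [e1, e2]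
          · rw [Double.dist_mk_same, hd _ ⟨by linarith, by linarith⟩ _ ⟨by linarith, by linarith⟩]
            congr 1; ring
          · rw [Double.dist_mk_ne (by simp), crossL _ ⟨by linarith, by linarith⟩ _
              ⟨by linarith, by linarith⟩ (by linarith) (by linarith), abs_sub_comm,
              abs_of_nonneg (by linarith)]
            ring
          · rw [Double.dist_mk_ne (by simp), crossL _ ⟨by linarith, by linarith⟩ _
              ⟨by linarith, by linarith⟩ (by linarith) (by linarith),
              abs_of_nonneg (by linarith)]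
            ring
          · rw [Double.dist_mk_same, hd _ ⟨by linarith, by linarith⟩ _ ⟨by linarith, by linarith⟩]
            rw [abs_sub_comm]; congr 1; ring
      · refine ⟨min ε L, lt_min hε hL, fun s s' hs hs' => ?_⟩
        have a1 := min_le_left ε L
        have a2 := min_le_right ε L
        rw [hzero, sub_zero] at hs hs'
        have hform : ∀ s, |s| < min ε L → (0 ≤ s ∧ loopFun B L hL2 l s =
            Double.mk B false (l s)) ∨ (s ≤ 0 ∧ loopFun B L hL2 l s =
            Double.mk B true (l (-s))) := by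
          intro s hs
          rw [abs_lt] at hs
          rcases le_total 0 s with h | h
          · left
            exact ⟨h, loopFun_eq_of_nonneg hL2 h1 ⟨by linarith, by linarith⟩⟩
          · right
            exact ⟨h, loopFun_eq_of_nonpos hL2 h0 h1 ⟨by linarith, by linarith⟩⟩
        have f1 := hform s hs
        have f2 := hform s' hs'
        rw [abs_lt] at hs hs'
        rcases f1 with ⟨g1, e1⟩ | ⟨g1, e1⟩ <;> rcases f2 with ⟨g2, e2⟩ | ⟨g2, e2⟩ <;>
          rw [e1, e2]
        · rw [Double.dist_mk_same, hd _ ⟨by linarith, by linarith⟩ _ ⟨by linarith, by linarith⟩]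
        · rw [Double.dist_mk_ne (by simp), cross0 _ ⟨by linarith, by linarith⟩ _
            ⟨by linarith, by linarith⟩ (by linarith) (by linarith),
            abs_of_nonneg (by linarith)]
          ring
        · rw [Double.dist_mk_ne (by simp), cross0 _ ⟨by linarith, by linarith⟩ _
            ⟨by linarith, by linarith⟩ (by linarith) (by linarith), abs_sub_comm,
            abs_of_nonneg (by linarith)]
          ring
        · rw [Double.dist_mk_same, hd _ ⟨by linarith, by linarith⟩ _ ⟨by linarith, by linarith⟩]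
          rw [abs_sub_comm]; congr 1; ring
      · have hlt : u < L := by linarith [humem.2]
        refine ⟨min u (L - u), lt_min (by linarith) (by linarith), fun s s' hs hs' => ?_⟩
        have a1 := min_le_left u (L - u)
        have a2 := min_le_right u (L - u)
        rw [abs_lt] at hs hs'
        rw [loopFun_eq_of_nonneg hL2 h1 ⟨by linarith, by linarith⟩,
          loopFun_eq_of_nonneg hL2 h1 ⟨by linarith, by linarith⟩, Double.dist_mk_same,
          hd _ ⟨by linarith, by linarith⟩ _ ⟨by linarith, by linarith⟩]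
    obtain ⟨ε', hε', hloc⟩ := hlocal
    refine ⟨ε', hε', fun s _ s' _ hs hs' => ?_⟩
    have e1 := hloc (s - k * (2 * L)) (s' - k * (2 * L))
      (by rw [hut] at hs; convert hs using 2; ring) (by rw [hut] at hs'; convert hs' using 2; ring)
    have e2 := loopFun_add (B := B) L hL2 l (s - k * (2 * L)) k
    have e3 := loopFun_add (B := B) L hL2 l (s' - k * (2 * L)) k
    rw [sub_add_cancel] at e2 e3
    rw [e2, e3, e1]
    congr 1; ring
  · intro s t
    constructor
    · intro h
      set us := toIcoMod hL2 (-L) s with hus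
      set ut := toIcoMod hL2 (-L) t with hut
      have hsmem : us ∈ Ico (-L) (-L + 2 * L) := toIcoMod_mem_Ico hL2 (-L) s
      have htmem : ut ∈ Ico (-L) (-L + 2 * L) := toIcoMod_mem_Ico hL2 (-L) t
      have hinj : ∀ a ∈ Icc 0 L, ∀ b ∈ Icc 0 L, l a = l b → a = b := by
        intro a ha b hb hab
        have := hd a ha b hb
        rw [hab, dist_self] at this
        exact sub_eq_zero.mp (abs_eq_zero.mp this.symm)
      have hmix : ∀ a b : ℝ, a ∈ Ico 0 L → b ∈ Ioc 0 L → 
          Double.mk B false (l a) = Double.mk B true (l b) → False := by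
        intro a b ha hb hab
        rw [Double.mk_eq_mk_iff hB] at hab
        have hab1 := hinj a ⟨ha.1, ha.2.le⟩ b ⟨hb.1.le, hb.2⟩ hab.1
        subst hab1
        exact hin a ⟨hb.1, ha.2⟩ (hab.2 (by simp))
      have hueq : us = ut := by
        unfold loopFun at h
        rw [← hus, ← hut] at h
        split_ifs at h with h1' h2' h2'
        · rw [Double.mk_eq_mk_iff hB] at h
          exact hinj _ ⟨h1', by linarith [hsmem.2]⟩ _ ⟨h2', by linarith [htmem.2]⟩ h.1
        · exact (hmix _ _ ⟨h1', by linarith [hsmem.2]⟩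
            ⟨by linarith [not_le.mp h2'], by linarith [htmem.1]⟩ h).elim
        · exact (hmix _ _ ⟨h2', by linarith [htmem.2]⟩
            ⟨by linarith [not_le.mp h1'], by linarith [hsmem.1]⟩ h.symm).elim
        · rw [Double.mk_eq_mk_iff hB] at h
          have := hinj _ ⟨by linarith [not_le.mp h1'], by linarith [hsmem.1]⟩ _
            ⟨by linarith [not_le.mp h2'], by linarith [htmem.1]⟩ h.1
          linarith
      refine ⟨toIcoDiv hL2 (-L) s - toIcoDiv hL2 (-L) t, ?_⟩
      have e1 := self_sub_toIcoDiv_zsmul hL2 (-L) s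
      have e2 := self_sub_toIcoDiv_zsmul hL2 (-L) t
      rw [← hus, zsmul_eq_mul] at e1
      rw [← hut, zsmul_eq_mul] at e2
      push_cast
      linarith
    · rintro ⟨n, hn⟩
      have : s = t + n * (2 * L) := by linarith
      rw [this, loopFun_add]
  · ext p
    constructor
    · rintro ⟨i, t, ht, rfl⟩
      cases i
      · exact ⟨t, loopFun_eq_of_nonneg hL2 h1 ht⟩
      · refine ⟨-t, ?_⟩
        rw [loopFun_eq_of_nonpos hL2 h0 h1 ⟨by linarith [ht.2], by linarith [ht.1]⟩, neg_neg]
    · rintro ⟨t, rfl⟩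
      have hmem := toIcoMod_mem_Ico hL2 (-L) t
      unfold loopFun
      split_ifs with h
      · exact ⟨false, _, ⟨h, by linarith [hmem.2]⟩, rfl⟩
      · exact ⟨true, _, ⟨by linarith [not_le.mp h], by linarith [hmem.1]⟩, rfl⟩

end

lemma IsGeodesicOn.comp {X Y : Type} [MetricSpace X] [MetricSpace Y] {γ : ℝ → X} {I : Set ℝ}
    (h : IsGeodesicOn γ I) {f : X → Y} (hf : Isometry f) : IsGeodesicOn (f ∘ γ) I := by
  intro t ht
  obtain ⟨ε, hε, h'⟩ := h t ht
  exact ⟨ε, hε, fun s hs s' hs' h1 h2 => by
    simp only [Function.comp, hf.dist_eq]; exact h' s hs s' hs' h1 h2⟩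

lemma IsSimpleClosedGeodesic.image {X Y : Type} [MetricSpace X] [MetricSpace Y] {ℓ : ℝ}
    {C : Set X} (h : IsSimpleClosedGeodesic ℓ C) {f : X → Y} (hf : Isometry f) :
    IsSimpleClosedGeodesic ℓ (f '' C) := by
  obtain ⟨h0, γ, h1, h2, h3⟩ := h
  refine ⟨h0, f ∘ γ, IsGeodesicOn.comp h1 hf, fun s t => ?_, ?_⟩
  · rw [← h2]; exact hf.injective.eq_iff
  · rw [h3, range_comp]

end Pool.Agent.Hyp72
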