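import Pool.Agent.Lib_helper72.Hyp.Poly

/-!
# Concrete polygons
-/

open Metric Set UpperHalfPlane Topology
open scoped MatrixGroups

noncomputable section

namespace Pool.Agent.Hyp72

/-- The ratio of the centres of two consecutive orthogonal circles. -/
def ratio (t s : ℝ) : ℝ := (1 + √(1 - (1 - s ^ 2) * (1 - t ^ 2))) / (1 - s ^ 2)

/-- An admissible sequence of parameters. -/
def Adm (t : ℕ → ℝ) : Prop := ∀ k, 1 / 3 ≤ t k ∧ t k ≤ 1 / 2

/-- The centres of the circles. -/
def cen (t : ℕ → ℝ) : ℕ → ℝ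
  | 0 => 1
  | k + 1 => ratio (t k) (t (k + 1)) * cen t k

/-- The vector of the circle with centre `c` and radius `t c`. -/
def circ (c t : ℝ) : V := (1 / (t * c), 1 / t, c * (1 - t ^ 2) / t)

lemma bil_circ {c t c' t' : ℝ} (hc : 0 < c) (ht : 0 < t) (hc' : 0 < c') (ht' : 0 < t') :
    bil (circ c t) (circ c' t') =
      ((t * c) ^ 2 + (t' * c') ^ 2 - (c' - c) ^ 2) / (2 * (t * c) * (t' * c')) := by
  simp only [bil, circ]; field_simp; ring

lemma bil_circ_self {c t : ℝ} (hc : 0 < c) (ht : 0 < t) : bil (circ c t) (circ c t) = 1 := by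
  rw [bil_circ hc ht hc ht]; field_simp; ring

lemma F_circ {c t : ℝ} (hc : 0 < c) (ht : 0 < t) (z : ℍ) : F (circ c t) z =
    ((z.re ^ 2 + z.im ^ 2) - 2 * c * z.re + c ^ 2 - (t * c) ^ 2) / (2 * (t * c) * z.im) := by
  have := z.im_ne_zero
  simp only [F, bil, circ, iota]; field_simp; ring

/-- The vector of the circle with centre `0` and radius `ρ`. -/
def circ0 (ρ : ℝ) : V := (1 / ρ, 0, -ρ)

lemma bil_circ0_self {ρ : ℝ} (h : 0 < ρ) : bil (circ0 ρ) (circ0 ρ) = 1 := by
  simp only [bil, circ0]; field_simp; ring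

lemma bil_circ0 {ρ c t : ℝ} (h : 0 < ρ) (hc : 0 < c) (ht : 0 < t) :
    bil (circ0 ρ) (circ c t) = (ρ ^ 2 + (t * c) ^ 2 - c ^ 2) / (2 * ρ * (t * c)) := by
  simp only [bil, circ0, circ]; field_simp; ring

lemma F_circ0 {ρ : ℝ} (h : 0 < ρ) (z : ℍ) : F (circ0 ρ) z =
    ((z.re ^ 2 + z.im ^ 2) - ρ ^ 2) / (2 * ρ * z.im) := by
  have := z.im_ne_zero
  simp only [F, bil, circ0, iota]; field_simp; ring

lemma F_axis (z : ℍ) : F (0, -1, 0) z = z.re / z.im := by simp [F, bil, iota]

lemma bil_axis_circ {c t : ℝ} : bil (0, -1, 0) (circ c t) = - (1 / t) := by simp [bil, circ]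

lemma bil_axis_circ0 {ρ : ℝ} : bil (0, -1, 0) (circ0 ρ) = 0 := by simp [bil, circ0]

/-- A circle which is far away. -/
lemma F_circ_pos {c t A : ℝ} (hc : 0 < c) (ht : 0 < t) (ht1 : t < 1) {z : ℍ}
    (h1 : z.re ^ 2 + z.im ^ 2 < A) (h2 : A ≤ (c * (1 - t)) ^ 2) : 0 < F (circ c t) z := by
  rw [F_circ hc ht]
  have hz := z.im_pos
  apply div_pos _ (by positivity)
  set N := Real.sqrt (z.re ^ 2 + z.im ^ 2) with hN
  have hN2 : N ^ 2 = z.re ^ 2 + z.im ^ 2 := Real.sq_sqrt (by positivity)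
  have hN0 : 0 ≤ N := Real.sqrt_nonneg _
  have hre : z.re ≤ N := Real.le_sqrt_of_sq_le (by nlinarith)
  have hlt : N < c * (1 - t) := by
    have h3 : 0 < c * (1 - t) := mul_pos hc (by linarith)
    nlinarith
  rw [← hN2]
  have h4 : (t * c) ^ 2 < (c - N) ^ 2 := by
    have : t * c < c - N := by linarith
    have h5 : 0 < t * c := by positivity
    nlinarith
  nlinarith

/-- A circle which is deep inside. -/
lemma F_circ_pos' {c t : ℝ} (hc : 0 < c) (ht : 0 < t) {z : ℍ}
    (h1 : (c + t * c) ^ 2 < z.re ^ 2 + z.im ^ 2) : 0 < F (circ c t) z := by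
  rw [F_circ hc ht]
  have hz := z.im_pos
  apply div_pos _ (by positivity)
  set N := Real.sqrt (z.re ^ 2 + z.im ^ 2) with hN
  have hN2 : N ^ 2 = z.re ^ 2 + z.im ^ 2 := Real.sq_sqrt (by positivity)
  have hN0 : 0 ≤ N := Real.sqrt_nonneg _
  have hre : z.re ≤ N := Real.le_sqrt_of_sq_le (by nlinarith)
  have hlt : c + t * c < N := by
    have h3 : 0 < c + t * c := by positivity
    nlinarith
  rw [← hN2]
  have h4 : (t * c) ^ 2 < (N - c) ^ 2 := by
    have : t * c < N - c := by linarith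
    have h5 : 0 < t * c := by positivity
    nlinarith
  nlinarith

section seq

variable {t : ℕ → ℝ} (ht : Adm t)

include ht

lemma Adm.pos (k : ℕ) : 0 < t k := by linarith [(ht k).1]

lemma Adm.lt_one (k : ℕ) : t k < 1 := by linarith [(ht k).2]

lemma Adm.sq_le (k : ℕ) : t k ^ 2 ≤ 1 / 4 := by nlinarith [ht k]

lemma Adm.le_sq (k : ℕ) : 1 / 9 ≤ t k ^ 2 := by nlinarith [ht k]

lemma ratio_eq (k : ℕ) : (ratio (t k) (t (k + 1)) - 1) ^ 2 =
    t k ^ 2 + ratio (t k) (t (k + 1)) ^ 2 * t (k + 1) ^ 2 := by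
  have h1 := ht.sq_le k
  have h2 := ht.sq_le (k + 1)
  have h3 := ht.le_sq k
  have h4 := ht.le_sq (k + 1)
  have hpos : 0 < 1 - t (k + 1) ^ 2 := by linarith
  have hroot : 0 ≤ 1 - (1 - t (k + 1) ^ 2) * (1 - t k ^ 2) := by nlinarith
  set r := √(1 - (1 - t (k + 1) ^ 2) * (1 - t k ^ 2)) with hr
  have hr2 : r ^ 2 = 1 - (1 - t (k + 1) ^ 2) * (1 - t k ^ 2) := Real.sq_sqrt hroot
  have hdef : ratio (t k) (t (k + 1)) = (1 + r) / (1 - t (k + 1) ^ 2) := rfl
  rw [hdef]
  field_simp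
  nlinarith

lemma le_ratio (k : ℕ) : 9 / 8 ≤ ratio (t k) (t (k + 1)) := by
  have h2 := ht.sq_le (k + 1)
  have h4 := ht.le_sq (k + 1)
  have hpos : 0 < 1 - t (k + 1) ^ 2 := by linarith
  unfold ratio
  rw [le_div_iff₀ hpos]
  have := Real.sqrt_nonneg (1 - (1 - t (k + 1) ^ 2) * (1 - t k ^ 2))
  linarith

lemma cen_pos (k : ℕ) : 0 < cen t k := by
  induction k with
  | zero => exact one_pos
  | succ k ih => exact mul_pos (by linarith [le_ratio ht k]) ih

lemma cen_lt (k : ℕ) : cen t k < cen t (k + 1) := by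
  have h1 := cen_pos ht k
  have h2 := le_ratio ht k
  show cen t k < ratio (t k) (t (k + 1)) * cen t k
  nlinarith

lemma cen_sq (k : ℕ) : (cen t (k + 1) - cen t k) ^ 2 =
    (t k * cen t k) ^ 2 + (t (k + 1) * cen t (k + 1)) ^ 2 := by
  have h := ratio_eq ht k
  show (ratio (t k) (t (k + 1)) * cen t k - cen t k) ^ 2 = (t k * cen t k) ^ 2 +
    (t (k + 1) * (ratio (t k) (t (k + 1)) * cen t k)) ^ 2
  have h2 : (ratio (t k) (t (k + 1)) * cen t k - cen t k) ^ 2 =
    (ratio (t k) (t (k + 1)) - 1) ^ 2 * cen t k ^ 2 := by ring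
  rw [h2, h]; ring

/-- `c k + R k < c (k + 1)` -/
lemma top_lt (k : ℕ) : cen t k + t k * cen t k < cen t (k + 1) := by
  have h := cen_sq ht k
  have h1 := cen_lt ht k
  have h2 : 0 < t k * cen t k := mul_pos (ht.pos k) (cen_pos ht k)
  have h3 : 0 < t (k + 1) * cen t (k + 1) := mul_pos (ht.pos _) (cen_pos ht _)
  nlinarith

/-- `c k < c (k + 1) - R (k + 1)` -/
lemma bot_gt (k : ℕ) : cen t k < cen t (k + 1) - t (k + 1) * cen t (k + 1) := by
  have h := cen_sq ht k
  have h1 := cen_lt ht k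
  have h2 : 0 < t k * cen t k := mul_pos (ht.pos k) (cen_pos ht k)
  have h3 : 0 < t (k + 1) * cen t (k + 1) := mul_pos (ht.pos _) (cen_pos ht _)
  nlinarith

/-- consecutive circles overlap -/
lemma overlap (k : ℕ) : cen t (k + 1) - t (k + 1) * cen t (k + 1) < cen t k + t k * cen t k := by
  have h := cen_sq ht k
  have h1 := cen_lt ht k
  have h2 : 0 < t k * cen t k := mul_pos (ht.pos k) (cen_pos ht k)
  have h3 : 0 < t (k + 1) * cen t (k + 1) := mul_pos (ht.pos _) (cen_pos ht _)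
  nlinarith

lemma cen_mono : StrictMono (cen t) := strictMono_nat_of_lt_succ (cen_lt ht)

lemma one_le_cen (k : ℕ) : 1 ≤ cen t k := (cen_mono ht).monotone (Nat.zero_le k)

lemma cen_ge (k : ℕ) : 1 + k * (1 / 8) ≤ cen t k := by
  induction k with
  | zero => simp [cen]
  | succ k ih =>
    have h1 := one_le_cen ht k
    have h2 := le_ratio ht k
    show 1 + ((k + 1 : ℕ) : ℝ) * (1 / 8) ≤ ratio (t k) (t (k + 1)) * cen t k
    push_cast
    nlinarith

lemma exists_cen_gt (A : ℝ) : ∃ N, ∀ k ≥ N, A < cen t k := by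
  obtain ⟨N, hN⟩ := exists_nat_gt (8 * A)
  refine ⟨N, fun k hk => ?_⟩
  have h1 := cen_ge ht k
  have h2 : (N : ℝ) ≤ k := by exact_mod_cast hk
  linarith

lemma top_lt_bot {k l : ℕ} (h : k + 2 ≤ l) :
    cen t k + t k * cen t k < cen t l - t l * cen t l := by
  obtain ⟨l, rfl⟩ : ∃ l', l = l' + 1 := ⟨l - 1, by omega⟩
  have h1 := top_lt ht k
  have h2 := bot_gt ht l
  have h3 : cen t (k + 1) ≤ cen t l := (cen_mono ht).monotone (by omega)
  linarith

/-- covering of the line -/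
lemma exists_cover {e : ℝ} (he : 1 + t 0 ≤ e) :
    ∃ k, cen t (k + 1) - t (k + 1) * cen t (k + 1) < e ∧
      e < cen t (k + 1) + t (k + 1) * cen t (k + 1) := by
  classical
  have hex : ∃ k, e < cen t (k + 1) + t (k + 1) * cen t (k + 1) := by
    obtain ⟨N, hN⟩ := exists_cen_gt ht e
    refine ⟨N, ?_⟩
    have := hN (N + 1) (by omega)
    have h3 : 0 < t (N + 1) * cen t (N + 1) := mul_pos (ht.pos _) (cen_pos ht _)
    linarith
  refine ⟨Nat.find hex, ?_, Nat.find_spec hex⟩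
  rcases h : Nat.find hex with _ | k
  · have h1 := overlap ht 0
    have h2 : cen t 0 = 1 := rfl
    rw [h2] at h1
    simp only [zero_add] at h1 ⊢
    linarith
  · have h1 := overlap ht (k + 1)
    have h2 := Nat.find_min hex (m := k) (by omega)
    linarith

end seq

/-- The radius of the circle `1`. -/
def rho (t : ℕ → ℝ) : ℝ := √(1 - t 0 ^ 2)

/-- The vectors of the sides. -/
def vec (t : ℕ → ℝ) : ℕ → V
  | 0 => (0, -1, 0)
  | 1 => circ0 (rho t)
  | k + 2 => circ (cen t k) (t k)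

lemma Adm.rho_sq {t : ℕ → ℝ} (ht : Adm t) : rho t ^ 2 = 1 - t 0 ^ 2 :=
  Real.sq_sqrt (by linarith [ht.sq_le 0])

lemma Adm.rho_pos {t : ℕ → ℝ} (ht : Adm t) : 0 < rho t :=
  Real.sqrt_pos.mpr (by linarith [ht.sq_le 0])

lemma Adm.rho_lt {t : ℕ → ℝ} (ht : Adm t) : rho t < 1 := by
  have h1 := ht.rho_sq
  have h2 := ht.rho_pos
  have h3 := ht.le_sq 0
  nlinarith

lemma vec_far {t : ℕ → ℝ} (ht : Adm t) {n m : ℕ} (h : n + 2 ≤ m) :
    bil (vec t n) (vec t m) < -1 := by
  obtain ⟨l, rfl⟩ : ∃ l, m = l + 2 := ⟨m - 2, by omega⟩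
  have hcl := cen_pos ht l
  have htl := ht.pos l
  have htl1 := ht.lt_one l
  match n, h with
  | 0, _ =>
    show bil (0, -1, 0) (circ (cen t l) (t l)) < -1
    rw [bil_axis_circ]
    have : 1 < 1 / t l := by rw [lt_div_iff₀ htl]; linarith
    linarith
  | 1, h =>
    show bil (circ0 (rho t)) (circ (cen t l) (t l)) < -1
    rw [bil_circ0 ht.rho_pos hcl htl, div_lt_iff₀ (by have := ht.rho_pos; positivity)]
    obtain ⟨l, rfl⟩ : ∃ l', l = l' + 1 := ⟨l - 1, by omega⟩
    have h1 := bot_gt ht l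
    have h2 := one_le_cen ht l
    have h3 := ht.rho_lt
    have h4 := ht.rho_pos
    have h5 : 0 < t (l + 1) * cen t (l + 1) := by positivity
    have h6 : rho t + t (l + 1) * cen t (l + 1) < cen t (l + 1) := by linarith
    nlinarith
  | k + 2, h =>
    show bil (circ (cen t k) (t k)) (circ (cen t l) (t l)) < -1
    have hck := cen_pos ht k
    have htk := ht.pos k
    rw [bil_circ hck htk hcl htl, div_lt_iff₀ (by positivity)]
    have h1 := top_lt_bot ht (k := k) (l := l) (by omega)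
    have h2 : 0 < t k * cen t k := by positivity
    have h3 : 0 < t l * cen t l := by positivity
    nlinarith

/-- The polygon of an admissible sequence. -/
def poly (t : ℕ → ℝ) (ht : Adm t) : Poly where
  v := vec t
  v_zero := rfl
  fst_pos := by
    intro n hn
    match n, hn with
    | 1, _ => exact one_div_pos.mpr ht.rho_pos
    | k + 2, _ => exact one_div_pos.mpr (mul_pos (ht.pos k) (cen_pos ht k))
  unit := by
    intro n
    match n with
    | 0 => simp [vec, bil]
    | 1 => exact bil_circ0_self ht.rho_pos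
    | k + 2 => exact bil_circ_self (cen_pos ht k) (ht.pos k)
  adj := by
    intro n
    match n with
    | 0 => exact bil_axis_circ0
    | 1 =>
      show bil (circ0 (rho t)) (circ (cen t 0) (t 0)) = 0
      rw [bil_circ0 ht.rho_pos (cen_pos ht 0) (ht.pos 0), ht.rho_sq]
      simp [cen]
    | k + 2 =>
      show bil (circ (cen t k) (t k)) (circ (cen t (k + 1)) (t (k + 1))) = 0
      rw [bil_circ (cen_pos ht k) (ht.pos k) (cen_pos ht (k + 1)) (ht.pos (k + 1)), cen_sq ht]
      simp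
  far := fun n m h => vec_far ht h
  locfin := by
    intro z
    have hopen : IsOpen {w : ℍ | w.re ^ 2 + w.im ^ 2 < z.re ^ 2 + z.im ^ 2 + 1} :=
      isOpen_lt ((UpperHalfPlane.continuous_re.pow 2).add (UpperHalfPlane.continuous_im.pow 2))
        continuous_const
    obtain ⟨r, hr, hball⟩ := Metric.isOpen_iff.mp hopen z (by
      show z.re ^ 2 + z.im ^ 2 < z.re ^ 2 + z.im ^ 2 + 1
      linarith)
    set A := z.re ^ 2 + z.im ^ 2 + 1 with hA
    obtain ⟨N, hN⟩ := exists_cen_gt ht (2 * (A + 1))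
    refine ⟨r, hr, N + 2, fun n hn w hw => ?_⟩
    obtain ⟨k, rfl⟩ : ∃ k, n = k + 2 := ⟨n - 2, by omega⟩
    refine F_circ_pos (A := A) (cen_pos ht k) (ht.pos k) (ht.lt_one k) (hball hw) ?_
    have h1 := hN k (by omega)
    have h2 := (ht k).2
    have h3 : A + 1 ≤ cen t k * (1 - t k) := by nlinarith [cen_pos ht k]
    have h4 : 0 ≤ A := by positivity
    nlinarith
  exits := by
    intro z h1 h0 h2
    have hy := z.im_pos
    have hρ := ht.rho_pos
    have hρ2 := ht.rho_sq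
    have hρ1 := ht.rho_lt
    have hc0 : cen t 0 = 1 := rfl
    set x := z.re with hx
    set y := z.im with hyd
    set ρ := rho t with hρd
    have hN : x ^ 2 + y ^ 2 = ρ ^ 2 := by
      have : F (circ0 (rho t)) z = 0 := h1
      rw [F_circ0 hρ, div_eq_zero_iff] at this
      rcases this with h | h
      · linarith
      · exact absurd h (by positivity)
    have hxpos : 0 < x := by
      have : 0 < F (0, -1, 0) z := h0
      rw [F_axis] at this
      by_contra hcon
      exact absurd this (not_lt.mpr (div_nonpos_of_nonpos_of_nonneg (not_lt.mp hcon) hy.le))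
    have hyρ : y < ρ := by nlinarith
    -- the ideal end point
    set e := ρ * (ρ + y) / x with he
    have hex : e * x = ρ * (ρ + y) := by rw [he]; field_simp
    have he0 : 0 < e := by positivity
    have hxx : x ^ 2 = (ρ - y) * (ρ + y) := by nlinarith
    have hxe : ρ * x = e * (ρ - y) := by
      have : ρ * x * x = e * (ρ - y) * x := by
        rw [mul_right_comm e, hex]; nlinarith
      exact mul_right_cancel₀ hxpos.ne' this
    have hxρ : x < ρ := by nlinarith
    have heρ : ρ < e := by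
      rw [he, lt_div_iff₀ hxpos]
      apply mul_lt_mul_of_pos_left _ hρ
      linarith
    have he2 : e ^ 2 * (ρ - y) = ρ ^ 2 * (ρ + y) := by
      have : e ^ 2 * (ρ - y) = e * (ρ * x) := by rw [hxe]; ring
      rw [this]
      have : e * (ρ * x) = ρ * (e * x) := by ring
      rw [this, hex]; ring
    have h2' : 0 ≤ (e - 1) ^ 2 - t 0 ^ 2 := by
      have : 0 ≤ F (circ (cen t 0) (t 0)) z := h2
      rw [hc0, F_circ one_pos (ht.pos 0), ← hx, ← hyd, hN] at this
      have ht0 := ht.pos 0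
      have h3 : 0 ≤ ρ ^ 2 - 2 * 1 * x + 1 ^ 2 - (t 0 * 1) ^ 2 := by
        by_contra hcon
        exact absurd this (not_le.mpr (div_neg_of_neg_of_pos (not_le.mp hcon) (by positivity)))
      have h4 : 0 ≤ ((e - 1) ^ 2 - t 0 ^ 2) * (ρ - y) := by
        have : ((e - 1) ^ 2 - t 0 ^ 2) * (ρ - y) =
            e ^ 2 * (ρ - y) - 2 * (e * (ρ - y)) + (1 - t 0 ^ 2) * (ρ - y) := by ring
        rw [this, he2, ← hxe, ← hρ2]
        nlinarith
      exact nonneg_of_mul_nonneg_left h4 (by linarith)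
    have he1 : 1 + t 0 ≤ e := by
      by_contra hcon
      have h3 : e < 1 + t 0 := not_le.mp hcon
      have h4 : 1 - t 0 < ρ := by nlinarith [ht.pos 0, ht.lt_one 0]
      have h5 : (e - 1) ^ 2 < t 0 ^ 2 := sq_lt_sq' (by linarith) (by linarith)
      linarith
    obtain ⟨k, hk1, hk2⟩ := exists_cover ht he1
    refine ⟨k + 3, by omega, ?_⟩
    show F (circ (cen t (k + 1)) (t (k + 1))) z + bil (circ (cen t (k + 1)) (t (k + 1)))
      (circ0 (rho t)) < 0
    have hc := cen_pos ht (k + 1)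
    have htk := ht.pos (k + 1)
    rw [F_circ hc htk, bil_comm, bil_circ0 hρ hc htk, ← hx, ← hyd, hN]
    set c := cen t (k + 1) with hcd
    set s := t (k + 1) with hsd
    have hpos : 0 < s * c := by positivity
    have h5 : (e - c) ^ 2 < (s * c) ^ 2 := by
      have : |e - c| < s * c := by rw [abs_lt]; constructor <;> linarith
      rw [← sq_abs (e - c)]
      exact pow_lt_pow_left₀ this (abs_nonneg _) (by norm_num)
    have h6 : ((e - c) ^ 2 - (s * c) ^ 2) * (ρ - y) < 0 :=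
      mul_neg_of_neg_of_pos (by linarith) (by linarith)
    have h7 : ((e - c) ^ 2 - (s * c) ^ 2) * (ρ - y) =
        ρ ^ 2 * (ρ + y) - 2 * c * (ρ * x) + (c ^ 2 - (s * c) ^ 2) * (ρ - y) := by
      have : ((e - c) ^ 2 - (s * c) ^ 2) * (ρ - y) =
        e ^ 2 * (ρ - y) - 2 * c * (e * (ρ - y)) + (c ^ 2 - (s * c) ^ 2) * (ρ - y) := by ring
      rw [this, he2, hxe]
    rw [h7] at h6
    have h8 : (ρ ^ 2 - 2 * c * x + c ^ 2 - (s * c) ^ 2) / (2 * (s * c) * y) +
        (ρ ^ 2 + (s * c) ^ 2 - c ^ 2) / (2 * ρ * (s * c)) =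
        (ρ ^ 2 * (ρ + y) - 2 * c * (ρ * x) + (c ^ 2 - (s * c) ^ 2) * (ρ - y)) /
          (2 * (s * c) * y * ρ) := by
      field_simp
      ring
    rw [h8]
    exact div_neg_of_neg_of_pos h6 (by positivity)
  tall := by
    intro K
    obtain ⟨N, hN⟩ := exists_cen_gt ht (2 * (2 * |K| + 1))
    refine ⟨2 * N + 4, by omega, by omega, ?_⟩
    show bil (circ0 (rho t)) (circ (cen t (2 * N + 2)) (t (2 * N + 2))) ≤
      K * bil (0, -1, 0) (circ (cen t (2 * N + 2)) (t (2 * N + 2)))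
    have h1 := hN (2 * N + 2) (by omega)
    have hc := cen_pos ht (2 * N + 2)
    have hc1 := one_le_cen ht (2 * N + 2)
    have htk := ht.pos (2 * N + 2)
    have hsq := ht.sq_le (2 * N + 2)
    have hρ := ht.rho_pos
    have hρ1 := ht.rho_lt
    rw [bil_circ0 hρ hc htk, bil_axis_circ]
    set c := cen t (2 * N + 2) with hcd
    set s := t (2 * N + 2) with hsd
    set ρ := rho t with hρd
    rw [div_le_iff₀ (by positivity)]
    have h2 : K * -(1 / s) * (2 * ρ * (s * c)) = - (2 * K * ρ * c) := by field_simp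
    rw [h2]
    have h3 : K ≤ |K| := le_abs_self K
    have h4 : 0 ≤ |K| := abs_nonneg K
    have h5 : 2 * K * ρ * c ≤ 2 * |K| * c := by
      have : K * ρ ≤ |K| := by nlinarith
      nlinarith
    have h6 : (s * c) ^ 2 ≤ c ^ 2 / 4 := by nlinarith
    have h7 : ρ ^ 2 ≤ 1 := by nlinarith
    have h8 : 2 * (2 * |K| + 1) * c ≤ c ^ 2 := by nlinarith
    nlinarith

end Pool.Agent.Hyp72
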