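import Pool.Agent.Lib_helper72.Hyp.Surf2

/-!
# Doubles of homeomorphisms
-/

open Metric Set Topology UpperHalfPlane

noncomputable section

namespace Pool.Agent.Hyp72

namespace Double

variable {M M' : Type} [MetricSpace M] [MetricSpace M'] {B : Set M} {B' : Set M'}
  [hBn : Nonempty B] [hBn' : Nonempty B']

lemma continuous_of [CompleteSpace M] {Y : Type} [TopologicalSpace Y] {f : Double M B → Y}
    (h : ∀ i, Continuous fun x => f (mk B i x)) : Continuous f := by
  rw [continuous_iff_isClosed]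
  intro C hC
  have : f ⁻¹' C = ⋃ i, mk B i '' ((fun x => f (mk B i x)) ⁻¹' C) := by
    ext p
    simp only [mem_preimage, mem_iUnion, mem_image]
    constructor
    · intro hp
      obtain ⟨i, x, rfl⟩ := exists_rep p
      exact ⟨i, x, hp, rfl⟩
    · rintro ⟨i, x, hx, rfl⟩
      exact hx
  rw [this]
  exact isClosed_iUnion_of_finite fun i =>
    (isometry_mk i).isClosedEmbedding.isClosedMap _ (hC.preimage (h i))

open Classical in
/-- The map of doubles. -/
def map (B : Set M) (B' : Set M') [Nonempty B] [Nonempty B'] (f : M → M') (p : Double M B) :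
    Double M' B' :=
  if p = mk B false (fold p) then mk B' false (f (fold p)) else mk B' true (f (fold p))

lemma map_mk (hB : IsClosed B) {f : M → M'} (hf : ∀ x ∈ B, f x ∈ B') (i : Bool) (x : M) :
    map B B' f (mk B i x) = mk B' i (f x) := by
  unfold map
  rw [fold_mk]
  cases i
  · simp
  · split_ifs with h
    · rw [mk_eq_mk_iff hB] at h
      exact mk_eq_of_mem (hf x (h.2 (by simp))) _ _
    · rfl

/-- The homeomorphism of doubles. -/
def homeo [CompleteSpace M] [CompleteSpace M'] (hB : IsClosed B) (hB' : IsClosed B')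
    (f : M ≃ₜ M') (hf : ∀ x, x ∈ B ↔ f x ∈ B') : Double M B ≃ₜ Double M' B' where
  toFun := map B B' f
  invFun := map B' B f.symm
  left_inv p := by
    obtain ⟨i, x, rfl⟩ := exists_rep p
    rw [map_mk hB (fun x hx => (hf x).mp hx), map_mk hB' (fun y hy => by
      rw [hf, f.apply_symm_apply]; exact hy), f.symm_apply_apply]
  right_inv p := by
    obtain ⟨i, x, rfl⟩ := exists_rep p
    rw [map_mk hB' (fun y hy => by rw [hf, f.apply_symm_apply]; exact hy),
      map_mk hB (fun x hx => (hf x).mp hx), f.apply_symm_apply]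
  continuous_toFun := by
    apply continuous_of
    intro i
    simp only [map_mk hB (fun x hx => (hf x).mp hx)]
    exact (isometry_mk i).continuous.comp f.continuous
  continuous_invFun := by
    apply continuous_of
    intro i
    simp only [map_mk hB' (fun y hy => by rw [hf, f.apply_symm_apply]; exact hy)]
    exact (isometry_mk i).continuous.comp f.symm.continuous

end Double

namespace Poly

theorem nonempty_homeo {P P' : Poly} (f : P.Q ≃ₜ P'.Q)
    (hf : ∀ n (q : P.Q), F (P.v n) q = 0 ↔ F (P'.v n) (f q) = 0) : Nonempty (P.X ≃ₜ P'.X) := by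
  have hS : ∀ q, q ∈ P.S ↔ f q ∈ P'.S := by
    intro q
    constructor
    · rintro ⟨n, hn, hF⟩; exact ⟨n, hn, (hf n q).mp hF⟩
    · rintro ⟨n, hn, hF⟩; exact ⟨n, hn, (hf n q).mpr hF⟩
  have hB0 : ∀ q, q ∈ P.B0 ↔ f q ∈ P'.B0 := by
    intro q
    constructor
    · rintro ⟨n, hn3, hn, hF⟩; exact ⟨n, hn3, hn, (hf n q).mp hF⟩
    · rintro ⟨n, hn3, hn, hF⟩; exact ⟨n, hn3, hn, (hf n q).mpr hF⟩
  have hB : ∀ x, x ∈ P.B ↔ (Double.homeo isClosed_S isClosed_S f hS) x ∈ P'.B := by
    intro x
    obtain ⟨i, q, rfl⟩ := Double.exists_rep x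
    show _ ↔ Double.map P.S P'.S f (Double.mk P.S i q) ∈ P'.B
    rw [Double.map_mk isClosed_S (fun x hx => (hS x).mp hx), mk_mem_B, mk_mem_B]
    exact hB0 q
  exact ⟨Double.homeo isClosed_B isClosed_B _ hB⟩

end Poly

end Pool.Agent.Hyp72
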