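import Pool.Agent.Lib_helper72.Hyp.Surf2
import Pool.Agent.Lib_helper72.Hyp.DoubleMap

/-!
# A covering of the double; the fundamental group is not abelian
-/

open Metric Set Topology UpperHalfPlane

noncomputable section

namespace Pool.Agent.Hyp72

section

variable {Q : Type} [MetricSpace Q] {S : Set Q} {G : Type} [Group G]

/-- Sheets indexed by `Bool × G`. -/
abbrev PreCov (Q G : Type) : Type := (_ : Bool × G) × Q

open Classical in
/-- Normal form. -/
def nf (S : Set Q) (σ : Q → G) (x : PreCov Q G) : PreCov Q G :=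
  if x.2 ∈ S ∧ x.1.1 = true then ⟨(false, x.1.2 * (σ x.2)⁻¹), x.2⟩ else x

/-- The covering space. -/
def Cov (S : Set Q) (σ : Q → G) : Type := Quotient (Setoid.ker (nf S σ))

instance (σ : Q → G) : TopologicalSpace (Cov S σ) :=
  inferInstanceAs (TopologicalSpace (Quotient (Setoid.ker (nf S σ))))

/-- The points of the covering space. -/
def cmk (S : Set Q) (σ : Q → G) (i : Bool) (g : G) (q : Q) : Cov S σ :=
  Quotient.mk (Setoid.ker (nf S σ)) ⟨(i, g), q⟩

variable {σ : Q → G}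

omit [MetricSpace Q] in
lemma exists_cmk (e : Cov S σ) : ∃ i g q, cmk S σ i g q = e := by
  obtain ⟨⟨⟨i, g⟩, q⟩, rfl⟩ := Quotient.exists_rep e
  exact ⟨i, g, q, rfl⟩

omit [MetricSpace Q] in
lemma cmk_eq_iff' {i i' : Bool} {g g' : G} {q q' : Q} : cmk S σ i g q = cmk S σ i' g' q' ↔
    nf S σ ⟨(i, g), q⟩ = nf S σ ⟨(i', g'), q'⟩ := Quotient.eq

omit [MetricSpace Q] in
lemma cmk_cross {q : Q} (hq : q ∈ S) (g : G) :
    cmk S σ false g q = cmk S σ true (g * σ q) q := by
  rw [cmk_eq_iff']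
  simp [nf, hq]

omit [MetricSpace Q] in
lemma cmk_eq_same {i : Bool} {g g' : G} {q q' : Q} (h : cmk S σ i g q = cmk S σ i g' q') :
    q = q' ∧ g = g' := by
  rw [cmk_eq_iff'] at h
  unfold nf at h
  by_cases h1 : q ∈ S ∧ i = true <;> by_cases h2 : q' ∈ S ∧ i = true
  · rw [if_pos h1, if_pos h2] at h
    simp only [Sigma.mk.injEq, Prod.mk.injEq, true_and, heq_eq_eq] at h
    obtain ⟨h3, h4⟩ := h
    subst h4
    exact ⟨rfl, mul_right_cancel h3⟩
  · rw [if_pos h1, if_neg h2] at h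
    simp only [Sigma.mk.injEq, Prod.mk.injEq, heq_eq_eq] at h
    rw [h1.2] at h
    simp at h
  · rw [if_neg h1, if_pos h2] at h
    simp only [Sigma.mk.injEq, Prod.mk.injEq, heq_eq_eq] at h
    rw [h2.2] at h
    simp at h
  · rw [if_neg h1, if_neg h2] at h
    simp only [Sigma.mk.injEq, Prod.mk.injEq, true_and, heq_eq_eq] at h
    exact ⟨h.2, h.1⟩

lemma cmk_eq_cross {g g' : G} {q q' : Q} (h : cmk S σ false g q = cmk S σ true g' q') :
    q = q' ∧ q ∈ S ∧ g' = g * σ q := by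
  by_cases hq' : q' ∈ S
  · have h2 := cmk_cross (σ := σ) hq' (g' * (σ q')⁻¹)
    rw [inv_mul_cancel_right] at h2
    rw [← h2] at h
    obtain ⟨h3, h4⟩ := cmk_eq_same h
    subst h3
    exact ⟨rfl, hq', by rw [h4]; simp⟩
  · rw [cmk_eq_iff'] at h
    unfold nf at h
    rw [if_neg (by simp), if_neg (by simp [hq'])] at h
    simp at h

instance (σ : Q → G) : SMul G (Cov S σ) where
  smul h := Quotient.map (fun x => ⟨(x.1.1, h * x.1.2), x.2⟩) (by
    rintro ⟨⟨i, g⟩, q⟩ ⟨⟨i', g'⟩, q'⟩ hxy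
    have hxy' : cmk S σ i g q = cmk S σ i' g' q' := Quotient.sound hxy
    apply Quotient.exact (s := Setoid.ker (nf S σ))
    show cmk S σ i (h * g) q = cmk S σ i' (h * g') q'
    cases i <;> cases i'
    · obtain ⟨rfl, rfl⟩ := cmk_eq_same hxy'; rfl
    · obtain ⟨rfl, hq, rfl⟩ := cmk_eq_cross hxy'
      rw [cmk_cross hq, mul_assoc]
    · obtain ⟨rfl, hq, rfl⟩ := cmk_eq_cross hxy'.symm
      rw [cmk_cross hq, mul_assoc]
    · obtain ⟨rfl, rfl⟩ := cmk_eq_same hxy'; rfl)

lemma smul_cmk (h : G) (i : Bool) (g : G) (q : Q) :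
    h • cmk S σ i g q = cmk S σ i (h * g) q := rfl

instance (σ : Q → G) : MulAction G (Cov S σ) where
  one_smul e := by
    obtain ⟨i, g, q, rfl⟩ := exists_cmk e
    rw [smul_cmk, one_mul]
  mul_smul h h' e := by
    obtain ⟨i, g, q, rfl⟩ := exists_cmk e
    rw [smul_cmk, smul_cmk, smul_cmk, mul_assoc]

lemma continuous_cmk (i : Bool) (g : G) : Continuous (cmk S σ i g) :=
  continuous_quotient_mk'.comp (continuous_sigmaMk (σ := fun _ : Bool × G => Q) (i := (i, g)))

lemma isOpen_cov {U : Set (Cov S σ)} : IsOpen U ↔ ∀ i g, IsOpen (cmk S σ i g ⁻¹' U) := by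
  constructor
  · intro h i g
    exact h.preimage (continuous_cmk i g)
  · intro h
    have h1 : IsOpen ((Quotient.mk (Setoid.ker (nf S σ))) ⁻¹' U) := by
      rw [isOpen_sigma_iff]
      rintro ⟨i, g⟩
      exact h i g
    exact h1

lemma continuous_of_cov {Y : Type} [TopologicalSpace Y] {f : Cov S σ → Y}
    (h : ∀ i g, Continuous fun q => f (cmk S σ i g q)) : Continuous f := by
  rw [continuous_def]
  intro U hU
  rw [isOpen_cov]
  intro i g
  exact hU.preimage (h i g)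

variable [hSn : Nonempty S]

/-- The projection. -/
def cproj (S : Set Q) (σ : Q → G) [Nonempty S] : Cov S σ → Double Q S :=
  Quotient.lift (fun x => Double.mk S x.1.1 x.2) (by
    rintro ⟨⟨i, g⟩, q⟩ ⟨⟨i', g'⟩, q'⟩ hxy
    have hxy' : cmk S σ i g q = cmk S σ i' g' q' := Quotient.sound hxy
    show Double.mk S i q = Double.mk S i' q'
    cases i <;> cases i'
    · obtain ⟨rfl, rfl⟩ := cmk_eq_same hxy'; rfl
    · obtain ⟨rfl, hq, rfl⟩ := cmk_eq_cross hxy'
      exact Double.mk_eq_of_mem hq _ _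
    · obtain ⟨rfl, hq, rfl⟩ := cmk_eq_cross hxy'.symm
      exact Double.mk_eq_of_mem hq _ _
    · obtain ⟨rfl, rfl⟩ := cmk_eq_same hxy'; rfl)

lemma cproj_cmk (i : Bool) (g : G) (q : Q) : cproj S σ (cmk S σ i g q) = Double.mk S i q := rfl

lemma continuous_cproj : Continuous (cproj S σ) :=
  continuous_of_cov fun i _ => (Double.isometry_mk i).continuous

lemma isOpen_double [CompleteSpace Q] {U : Set (Double Q S)}
    (h : ∀ i, IsOpen (Double.mk S i ⁻¹' U)) : IsOpen U := by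
  have h1 : Continuous fun p : Double Q S => (p ∈ U : Prop) := by
    apply Double.continuous_of
    intro i
    exact continuous_Prop.mpr (h i)
  exact continuous_Prop.mp h1

omit hSn in
/-- Evenly covered neighbourhoods. -/
lemma exists_nhds (hS : IsClosed S)
    (hσ : ∀ q ∈ S, ∃ r > 0, ∀ a ∈ ball q r, a ∈ S → σ a = σ q) (e : Cov S σ) :
    ∃ (N : Set Q) (T : Set (Bool × G)), IsOpen N ∧
      (∀ a ∈ N, a ∈ S → ∀ g, (false, g) ∈ T ↔ (true, g * σ a) ∈ T) ∧
      (∀ i g g', (i, g) ∈ T → (i, g') ∈ T → g = g') ∧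
      ∃ i g q, q ∈ N ∧ (i, g) ∈ T ∧ e = cmk S σ i g q := by
  obtain ⟨i, g, q, rfl⟩ := exists_cmk e
  by_cases hq : q ∈ S
  · obtain ⟨g0, hg0⟩ : ∃ g0, cmk S σ i g q = cmk S σ false g0 q := by
      cases i
      · exact ⟨g, rfl⟩
      · exact ⟨g * (σ q)⁻¹, by rw [cmk_cross hq]; simp⟩
    obtain ⟨r, hr, hrσ⟩ := hσ q hq
    refine ⟨ball q r, {(false, g0), (true, g0 * σ q)}, isOpen_ball, ?_, ?_,
      false, g0, q, mem_ball_self hr, by simp, hg0⟩
    · intro a ha haS g'
      rw [hrσ a ha haS]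
      simp
    · intro i' g1 g2 h1 h2
      cases i'
      · simp at h1 h2; rw [h1, h2]
      · simp at h1 h2; rw [h1, h2]
  · refine ⟨Sᶜ, {(i, g)}, hS.isOpen_compl, fun a ha haS => absurd haS ha, ?_,
      i, g, q, hq, rfl, rfl⟩
    intro i' g1 g2 h1 h2
    simp only [mem_singleton_iff, Prod.mk.injEq] at h1 h2
    rw [h1.2, h2.2]

omit hSn in
lemma mem_saturated {N : Set Q} {T : Set (Bool × G)}
    (hsat : ∀ a ∈ N, a ∈ S → ∀ g, (false, g) ∈ T ↔ (true, g * σ a) ∈ T) (i : Bool) (g : G)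
    (a : Q) : cmk S σ i g a ∈ {e | ∃ i' g' a', a' ∈ N ∧ (i', g') ∈ T ∧ e = cmk S σ i' g' a'} ↔
      a ∈ N ∧ (i, g) ∈ T := by
  constructor
  · rintro ⟨i', g', a', ha', hT, he⟩
    cases i <;> cases i'
    · obtain ⟨rfl, rfl⟩ := cmk_eq_same he; exact ⟨ha', hT⟩
    · obtain ⟨rfl, hS, rfl⟩ := cmk_eq_cross he
      exact ⟨ha', (hsat a ha' hS g).mpr hT⟩
    · obtain ⟨rfl, hS, rfl⟩ := cmk_eq_cross he.symm
      exact ⟨ha', (hsat _ ha' hS g').mp hT⟩
    · obtain ⟨rfl, rfl⟩ := cmk_eq_same he; exact ⟨ha', hT⟩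
  · rintro ⟨h1, h2⟩
    exact ⟨i, g, a, h1, h2, rfl⟩

theorem isQuotientCoveringMap_cproj [CompleteSpace Q] (hS : IsClosed S)
    (hσ : ∀ q ∈ S, ∃ r > 0, ∀ a ∈ ball q r, a ∈ S → σ a = σ q) :
    IsQuotientCoveringMap (cproj S σ) G where
  toIsQuotientMap := by
    refine ⟨isCoinducing_iff.mpr fun U =>
      ⟨fun h => ?_, fun h => h.preimage continuous_cproj⟩, fun p => ?_⟩
    · apply isOpen_double
      intro i
      exact (isOpen_cov.mp h) i 1
    · obtain ⟨i, q, rfl⟩ := Double.exists_rep p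
      exact ⟨cmk S σ i 1 q, rfl⟩
  continuous_const_smul h := continuous_of_cov fun i g => continuous_cmk i (h * g)
  apply_eq_iff_mem_orbit := by
    intro e e'
    obtain ⟨i, g, q, rfl⟩ := exists_cmk e
    obtain ⟨i', g', q', rfl⟩ := exists_cmk e'
    rw [cproj_cmk, cproj_cmk, Double.mk_eq_mk_iff hS, MulAction.mem_orbit_iff]
    constructor
    · rintro ⟨rfl, h⟩
      cases i <;> cases i'
      · exact ⟨g * g'⁻¹, by rw [smul_cmk]; simp⟩
      · have hq := h (by simp)
        exact ⟨g * σ q * g'⁻¹, by rw [smul_cmk, cmk_cross hq]; simp⟩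
      · have hq := h (by simp)
        exact ⟨g * (σ q)⁻¹ * g'⁻¹, by rw [smul_cmk, cmk_cross hq]; simp⟩
      · exact ⟨g * g'⁻¹, by rw [smul_cmk]; simp⟩
    · rintro ⟨h, hh⟩
      rw [smul_cmk] at hh
      cases i <;> cases i'
      · obtain ⟨rfl, -⟩ := cmk_eq_same hh; exact ⟨rfl, by simp⟩
      · obtain ⟨rfl, hq, -⟩ := cmk_eq_cross hh.symm
        exact ⟨rfl, fun _ => hq⟩
      · obtain ⟨rfl, hq, -⟩ := cmk_eq_cross hh
        exact ⟨rfl, fun _ => hq⟩
      · obtain ⟨rfl, -⟩ := cmk_eq_same hh; exact ⟨rfl, by simp⟩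
  disjoint := by
    intro e
    obtain ⟨N, T, hN, hsat, hT, i, g, q, hq, hig, rfl⟩ := exists_nhds hS hσ e
    refine ⟨{e | ∃ i' g' a', a' ∈ N ∧ (i', g') ∈ T ∧ e = cmk S σ i' g' a'}, ?_, ?_⟩
    · apply IsOpen.mem_nhds
      · rw [isOpen_cov]
        intro i' g'
        have : cmk S σ i' g' ⁻¹' {e | ∃ i' g' a', a' ∈ N ∧ (i', g') ∈ T ∧
            e = cmk S σ i' g' a'} = {a | a ∈ N ∧ (i', g') ∈ T} := by
          ext a
          exact mem_saturated hsat i' g' a
        rw [this]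
        by_cases h : (i', g') ∈ T
        · simpa [h] using hN
        · simp [h]
      · exact ⟨i, g, q, hq, hig, rfl⟩
    · rintro h ⟨_, ⟨_, ⟨i', g', a, ha, hT', rfl⟩, rfl⟩, hmem⟩
      simp only [smul_cmk] at hmem
      have h2 := (mem_saturated hsat i' (h * g') a).mp hmem
      have h3 := hT i' _ _ h2.2 hT'
      simpa using h3

omit hSn in
lemma joined_same [PathConnectedSpace Q] (i : Bool) (g : G) (q q' : Q) :
    Joined (cmk S σ i g q) (cmk S σ i g q') :=
  ⟨(PathConnectedSpace.somePath q q').map (continuous_cmk i g)⟩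

omit hSn in
/-- Crossing a side. -/
lemma joined_cross [PathConnectedSpace Q] (g : G) {s : Q} (hs : s ∈ S) (q q' : Q) :
    Joined (cmk S σ false g q) (cmk S σ true (g * σ s) q') := by
  have h1 := joined_same (S := S) (σ := σ) false g q s
  have h2 := joined_same (S := S) (σ := σ) true (g * σ s) s q'
  rw [cmk_cross hs] at h1
  exact h1.trans h2

omit hSn in
lemma joined_smul [PathConnectedSpace Q] {s0 s : Q} (hs0 : s0 ∈ S) (h0 : σ s0 = 1)
    (hs : s ∈ S) (q : Q) :
    Joined (cmk S σ false 1 q) ((σ s)⁻¹ • cmk S σ false 1 q) := by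
  have h1 := joined_cross (σ := σ) 1 hs0 q q
  have h2 := joined_cross (σ := σ) (σ s)⁻¹ hs q q
  rw [h0, one_mul] at h1
  rw [inv_mul_cancel] at h2
  rw [smul_cmk, mul_one]
  exact h1.trans h2.symm

end

/-- Elements of the group which move the base point inside its path component come from the
fundamental group. -/
lemma exists_fundamentalGroup {E X G : Type} [TopologicalSpace E] [TopologicalSpace X] [Group G]
    [MulAction G E] {p : E → X} (hp : IsQuotientCoveringMap p G) {x : X} (e : p ⁻¹' {x}) (g : G)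
    (h : Joined (e : E) (g • (e : E))) :
    ∃ γ : FundamentalGroup X x, hp.fundamentalGroupToMulOpposite e γ = MulOpposite.op g := by
  set e' : p ⁻¹' {x} := ⟨g • (e : E), by
    have := hp.map_smul (e := (e : E)) g; aesop⟩ with he'
  set Γ : Path (e : E) (e' : E) :=
    { toFun := h.somePath
      continuous_toFun := by fun_prop
      source' := by simp
      target' := by simp [he'] }
  set γ : Path x x := (Γ.map hp.continuous).cast
    (by simpa using e.property.symm) (by simpa using e'.property.symm)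
  refine ⟨.fromPath ⟦γ⟧, ?_⟩
  rw [IsQuotientCoveringMap.fundamentalGroupToMulOpposite_apply_eq_Iff]
  change (e' : E) = _
  rw [← hp.isCoveringMap.monodromy_eq_of_map_eq (γ := ⟦γ⟧) (Γ := ⟦Γ⟧) rfl]

lemma retract_key {X M : Type} [TopologicalSpace X] [TopologicalSpace M] (s : C(M, X))
    (r : C(X, M)) (hrs : ∀ m, r (s m) = m) {m : M} (γ : FundamentalGroup M m) :
    FundamentalGroup.mapOfEq r (hrs m) (FundamentalGroup.map s m γ) = γ := by
  rw [FundamentalGroup.mapOfEq_apply]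
  obtain ⟨p, rfl⟩ := Quotient.exists_rep γ
  show ((Path.Homotopic.Quotient.mk p).map s |>.map r).cast _ _ = Path.Homotopic.Quotient.mk p
  rw [← Path.Homotopic.Quotient.mk_map, ← Path.Homotopic.Quotient.mk_map,
    ← Path.Homotopic.Quotient.mk_cast]
  congr 1
  ext t
  exact hrs (p t)

/-- Retractions and non-commuting loops. -/
lemma noncomm_of_retract {X M : Type} [TopologicalSpace X] [TopologicalSpace M] (s : C(M, X))
    (r : C(X, M)) (hrs : ∀ m, r (s m) = m) (m : M)
    (h : ∃ a b : FundamentalGroup M m, a * b ≠ b * a) :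
    ∃ a b : FundamentalGroup X (s m), a * b ≠ b * a := by
  obtain ⟨a, b, hab⟩ := h
  refine ⟨FundamentalGroup.map s m a, FundamentalGroup.map s m b, fun hcomm => hab ?_⟩
  have := congrArg (FundamentalGroup.mapOfEq r (hrs m)) hcomm
  rwa [← map_mul, ← map_mul, retract_key s r hrs, retract_key s r hrs] at this

namespace Poly

open Classical in
/-- The voltages. -/
def volt (P : Poly) (q : P.Q) : Equiv.Perm (Fin 3) :=
  if F (P.v 0) q = 0 then 1 else if F (P.v 2) q = 0 then Equiv.swap 0 1 else Equiv.swap 1 2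

lemma volt_local (P : Poly) : ∀ q ∈ P.S, ∃ r > 0, ∀ a ∈ ball q r, a ∈ P.S →
    P.volt a = P.volt q := by
  rintro q ⟨n, hn, hF⟩
  obtain ⟨r, hr, hrw⟩ := exists_radius (P := P) q q.2
  refine ⟨r, hr, fun a ha ⟨k, hk, hFk⟩ => ?_⟩
  have hkn : k = n := by
    by_cases h : F (P.v k) q = 0
    · exact active_unique h hF (by omega)
    · exact absurd hFk (hrw a ha k h).ne'
  subst hkn
  have h1 : ∀ m, m % 2 = 0 → (F (P.v m) (a : ℍ) = 0 ↔ F (P.v m) (q : ℍ) = 0) := by
    intro m hm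
    constructor
    · intro h
      rw [active_unique h hFk (by omega)]; exact hF
    · intro h
      rw [active_unique h hF (by omega)]; exact hFk
  unfold volt
  simp only [h1 0 rfl, h1 2 rfl]

theorem exists_noncomm (P : Poly) : ∃ (x₀ : P.X) (a b : FundamentalGroup P.X x₀),
    a * b ≠ b * a := by
  have hp := isQuotientCoveringMap_cproj (σ := P.volt) isClosed_S P.volt_local
  have : PathConnectedSpace P.Q := pathConnectedSpace_of_isGeodesicSpace P.isGeodesicSpace
  obtain ⟨s0, hs0⟩ := P.exists_mem_side 0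
  obtain ⟨s2, hs2⟩ := P.exists_mem_side 2
  obtain ⟨s4, hs4⟩ := P.exists_mem_side 4
  have m0 : s0 ∈ P.S := ⟨0, rfl, hs0⟩
  have m2 : s2 ∈ P.S := ⟨2, rfl, hs2⟩
  have m4 : s4 ∈ P.S := ⟨4, rfl, hs4⟩
  have v0 : P.volt s0 = 1 := by simp [volt, hs0]
  have v2 : P.volt s2 = Equiv.swap 0 1 := by
    have : F (P.v 0) (s2 : ℍ) ≠ 0 := fun h => by
      have := active_unique h hs2 rfl; omega
    simp [volt, hs2, this]
  have v4 : P.volt s4 = Equiv.swap 1 2 := by
    have h1 : F (P.v 0) (s4 : ℍ) ≠ 0 := fun h => by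
      have := active_unique h hs4 rfl; omega
    have h2 : F (P.v 2) (s4 : ℍ) ≠ 0 := fun h => by
      have := active_unique h hs4 rfl; omega
    simp [volt, h1, h2]
  -- the base point
  set m : P.M := Double.mk P.S false s0 with hm
  let e : cproj P.S P.volt ⁻¹' {m} := ⟨cmk P.S P.volt false 1 s0, rfl⟩
  obtain ⟨γ2, hγ2⟩ := exists_fundamentalGroup hp e _ (joined_smul m0 v0 m2 s0)
  obtain ⟨γ4, hγ4⟩ := exists_fundamentalGroup hp e _ (joined_smul m0 v0 m4 s0)
  have hM : ∃ a b : FundamentalGroup P.M m, a * b ≠ b * a := by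
    refine ⟨γ2, γ4, fun h => ?_⟩
    have h1 := congrArg (hp.fundamentalGroupToMulOpposite e) h
    rw [map_mul, map_mul, hγ2, hγ4, v2, v4, ← MulOpposite.op_mul, ← MulOpposite.op_mul] at h1
    have h2 := MulOpposite.op_injective h1
    revert h2
    decide
  obtain ⟨a, b, hab⟩ := noncomm_of_retract
    (⟨Double.mk P.B false, (Double.isometry_mk false).continuous⟩ : C(P.M, P.X))
    (⟨Double.fold, Double.continuous_fold⟩ : C(P.X, P.M)) (fun m => Double.fold_mk _ _) m hM
  exact ⟨_, a, b, hab⟩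

end Poly

end Pool.Agent.Hyp72
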