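import Pool.Agent.Lib_helper72.Hyp.Lines
import Pool.Agent.Lib_helper72.Hyp.Concrete
import Pool.Agent.Lib_helper72.Hyp.DoubleMap

/-!
# The concrete polygons are homeomorphic
-/

open Metric Set UpperHalfPlane Topology

noncomputable section

namespace Pool.Agent.Hyp72

/-- slopes -/
def lm (t : ℕ → ℝ) : ℕ → ℝ
  | 0 => 0
  | k + 1 => 2 * cen t k

/-- intercepts -/
def lb (t : ℕ → ℝ) : ℕ → ℝ
  | 0 => rho t ^ 2
  | k + 1 => -(cen t k ^ 2 - (t k * cen t k) ^ 2)

/-- break points -/
def lX (t : ℕ → ℝ) : ℕ → ℝ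
  | 0 => 0
  | 1 => 1 - t 0 ^ 2
  | k + 2 => cen t k + (t k * cen t k) ^ 2 / (cen t (k + 1) - cen t k)

section

variable {t : ℕ → ℝ} (ht : Adm t)

include ht

lemma lX_eq (k : ℕ) : lX t (k + 2) =
    cen t (k + 1) - (t (k + 1) * cen t (k + 1)) ^ 2 / (cen t (k + 1) - cen t k) := by
  have h1 := cen_lt ht k
  have h2 := cen_sq ht k
  have h3 : cen t (k + 1) - cen t k ≠ 0 := by
    have : 0 < cen t (k + 1) - cen t k := by linarith
    exact this.ne'
  show cen t k + (t k * cen t k) ^ 2 / (cen t (k + 1) - cen t k) = _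
  field_simp
  linarith

lemma cen_lt_lX (k : ℕ) : cen t k < lX t (k + 2) := by
  have h1 := cen_lt ht k
  have h2 : 0 < t k * cen t k := mul_pos (ht.pos k) (cen_pos ht k)
  have h3 : 0 < cen t (k + 1) - cen t k := by linarith
  show cen t k < cen t k + (t k * cen t k) ^ 2 / (cen t (k + 1) - cen t k)
  have : 0 < (t k * cen t k) ^ 2 / (cen t (k + 1) - cen t k) := by positivity
  linarith

lemma lX_lt_cen (k : ℕ) : lX t (k + 1) < cen t k := by
  rcases k with _ | k
  · show 1 - t 0 ^ 2 < 1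
    linarith [ht.le_sq 0]
  · rw [lX_eq ht]
    have h1 := cen_lt ht k
    have h2 : 0 < t (k + 1) * cen t (k + 1) := mul_pos (ht.pos _) (cen_pos ht _)
    have h3 : 0 < cen t (k + 1) - cen t k := by linarith
    have : 0 < (t (k + 1) * cen t (k + 1)) ^ 2 / (cen t (k + 1) - cen t k) := by positivity
    linarith

/-- The lines of a polygon. -/
def polyLines : Lines where
  m := lm t
  b := lb t
  X := lX t
  m_mono := by
    apply strictMono_nat_of_lt_succ
    intro n
    rcases n with _ | n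
    · show (0 : ℝ) < 2 * cen t 0
      have := cen_pos ht 0; linarith
    · show 2 * cen t n < 2 * cen t (n + 1)
      have := cen_lt ht n; linarith
  X_zero := rfl
  X_mono := by
    apply strictMono_nat_of_lt_succ
    intro n
    rcases n with _ | n
    · show (0 : ℝ) < 1 - t 0 ^ 2
      linarith [ht.sq_le 0]
    · exact (lX_lt_cen ht n).trans (cen_lt_lX ht n)
  X_large := by
    intro A
    obtain ⟨N, hN⟩ := exists_cen_gt ht A
    exact ⟨N + 2, (hN N le_rfl).trans (cen_lt_lX ht N)⟩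
  meet := by
    intro n
    rcases n with _ | n
    · show 0 * (1 - t 0 ^ 2) + rho t ^ 2 = 2 * 1 * (1 - t 0 ^ 2) + -(1 ^ 2 - (t 0 * 1) ^ 2)
      rw [ht.rho_sq]; ring
    · show 2 * cen t n * lX t (n + 2) + -(cen t n ^ 2 - (t n * cen t n) ^ 2) =
        2 * cen t (n + 1) * lX t (n + 2) +
          -(cen t (n + 1) ^ 2 - (t (n + 1) * cen t (n + 1)) ^ 2)
      have h1 := cen_lt ht n
      have h2 := cen_sq ht n
      have h3 : cen t (n + 1) - cen t n ≠ 0 := by
        have : 0 < cen t (n + 1) - cen t n := by linarith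
        exact this.ne'
      have h4 : (cen t (n + 1) - cen t n) * lX t (n + 2) =
          (cen t (n + 1) - cen t n) * cen t n + (t n * cen t n) ^ 2 := by
        show (cen t (n + 1) - cen t n) *
          (cen t n + (t n * cen t n) ^ 2 / (cen t (n + 1) - cen t n)) = _
        field_simp
      nlinarith

lemma F_vec_succ (n : ℕ) (z : ℍ) : ∃ K > 0, F (vec t (n + 1)) z =
    ((z.re ^ 2 + z.im ^ 2) - (polyLines ht).aff n z.re) / K := by
  have hz := z.im_pos
  rcases n with _ | k
  · refine ⟨2 * rho t * z.im, by have := ht.rho_pos; positivity, ?_⟩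
    show F (circ0 (rho t)) z = _
    rw [F_circ0 ht.rho_pos]
    show _ = ((z.re ^ 2 + z.im ^ 2) - (0 * z.re + rho t ^ 2)) / _
    rw [zero_mul, zero_add]
  · have hc := cen_pos ht k
    have htk := ht.pos k
    refine ⟨2 * (t k * cen t k) * z.im, by positivity, ?_⟩
    show F (circ (cen t k) (t k)) z = _
    rw [F_circ hc htk]
    show _ = ((z.re ^ 2 + z.im ^ 2) -
      (2 * cen t k * z.re + -(cen t k ^ 2 - (t k * cen t k) ^ 2))) / _
    congr 1; ring

lemma F_vec_nonneg (n : ℕ) (z : ℍ) : 0 ≤ F (vec t (n + 1)) z ↔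
    (polyLines ht).aff n z.re ≤ z.re ^ 2 + z.im ^ 2 := by
  obtain ⟨K, hK, h⟩ := F_vec_succ ht n z
  rw [h]
  constructor
  · intro h1
    by_contra hcon
    exact absurd h1 (not_le.mpr (div_neg_of_neg_of_pos (by linarith) hK))
  · intro h1
    exact div_nonneg (by linarith) hK.le

lemma F_vec_eq_zero (n : ℕ) (z : ℍ) : F (vec t (n + 1)) z = 0 ↔
    z.re ^ 2 + z.im ^ 2 = (polyLines ht).aff n z.re := by
  obtain ⟨K, hK, h⟩ := F_vec_succ ht n z
  rw [h, div_eq_zero_iff]
  constructor
  · rintro (h1 | h1)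
    · linarith
    · exact absurd h1 hK.ne'
  · intro h1; left; linarith

lemma mem_carrier_iff (z : ℍ) : z ∈ (poly t ht).carrier ↔
    0 ≤ z.re ∧ (polyLines ht).A z.re ≤ z.re ^ 2 + z.im ^ 2 := by
  constructor
  · intro h
    refine ⟨?_, ?_⟩
    · have h0 : 0 ≤ F (0, -1, 0) z := h 0
      rw [F_axis] at h0
      by_contra hcon
      exact absurd h0 (not_le.mpr (div_neg_of_neg_of_pos (not_le.mp hcon) z.im_pos))
    · obtain ⟨n, -, -, hn⟩ := (polyLines ht).exists_A_eq z.re
      rw [hn]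
      exact (F_vec_nonneg ht n z).mp (h (n + 1))
  · rintro ⟨h0, hA⟩ n
    rcases n with _ | n
    · show 0 ≤ F (0, -1, 0) z
      rw [F_axis]
      exact div_nonneg h0 z.im_pos.le
    · exact (F_vec_nonneg ht n z).mpr (((polyLines ht).aff_le_A n _).trans hA)

/-- The function `A` is above the parabola. -/
lemma sq_lt_A {x : ℝ} (hx : 0 ≤ x) : x ^ 2 < (polyLines ht).A x := by
  obtain ⟨n, h1, h2, hn⟩ := (polyLines ht).exists_A_eq x
  rw [hn]
  rcases n with _ | k
  · show x ^ 2 < 0 * x + rho t ^ 2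
    have h2' : x < 1 - t 0 ^ 2 := h2
    have h3 := ht.sq_le 0
    have h4 := ht.le_sq 0
    rw [ht.rho_sq]
    nlinarith
  · show x ^ 2 < 2 * cen t k * x + -(cen t k ^ 2 - (t k * cen t k) ^ 2)
    have h1' : lX t (k + 1) ≤ x := by
      rcases h1 with h1 | h1
      · omega
      · exact h1
    have h2' : x < lX t (k + 2) := h2
    have hR : 0 < t k * cen t k := mul_pos (ht.pos k) (cen_pos ht k)
    have hupper : x - cen t k < t k * cen t k := by
      have h3 := top_lt ht k
      have h4 : 0 < cen t (k + 1) - cen t k := by linarith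
      have h5 : (t k * cen t k) ^ 2 / (cen t (k + 1) - cen t k) < t k * cen t k := by
        rw [div_lt_iff₀ h4]; nlinarith
      have h6 : lX t (k + 2) = cen t k + (t k * cen t k) ^ 2 / (cen t (k + 1) - cen t k) := rfl
      linarith
    have hlower : -(t k * cen t k) < x - cen t k := by
      rcases k with _ | k
      · have h7 : lX t 1 = 1 - t 0 ^ 2 := rfl
        have h8 : cen t 0 = 1 := rfl
        have h1'' : lX t 1 ≤ x := h1'
        rw [h8]
        have h9 := ht.pos 0
        have h10 := ht.lt_one 0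
        nlinarith
      · rw [lX_eq ht] at h1'
        have h3 := bot_gt ht k
        have h4 : 0 < cen t (k + 1) - cen t k := by linarith
        have h5 : (t (k + 1) * cen t (k + 1)) ^ 2 / (cen t (k + 1) - cen t k) <
            t (k + 1) * cen t (k + 1) := by
          rw [div_lt_iff₀ h4]; nlinarith
        linarith
    have h3 : (x - cen t k) ^ 2 < (t k * cen t k) ^ 2 := sq_lt_sq' hlower hupper
    nlinarith

end

/-- The point with real part `x` and `|z|² = w`. -/
def toPt (x w : ℝ) (h : x ^ 2 < w) : ℍ := ⟨⟨x, √(w - x ^ 2)⟩, Real.sqrt_pos.mpr (by linarith)⟩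

lemma toPt_re (x w : ℝ) (h : x ^ 2 < w) : (toPt x w h).re = x := rfl

lemma toPt_im (x w : ℝ) (h : x ^ 2 < w) : (toPt x w h).im = √(w - x ^ 2) := rfl

lemma toPt_norm (x w : ℝ) (h : x ^ 2 < w) : (toPt x w h).re ^ 2 + (toPt x w h).im ^ 2 = w := by
  rw [toPt_re, toPt_im, Real.sq_sqrt (by linarith)]; ring

lemma toPt_eq {x w : ℝ} (h : x ^ 2 < w) {z : ℍ} (h1 : z.re = x)
    (h2 : z.re ^ 2 + z.im ^ 2 = w) : toPt x w h = z := by
  apply UpperHalfPlane.ext_re_im
  · rw [toPt_re, h1]
  · rw [toPt_im]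
    have : w - x ^ 2 = z.im ^ 2 := by rw [← h2, h1]; ring
    rw [this, Real.sqrt_sq z.im_pos.le]

section

variable {t t' : ℕ → ℝ} (ht : Adm t) (ht' : Adm t') (h : ℝ ≃o ℝ) (h0 : h 0 = 0)

include h0 in
lemma h_nonneg {x : ℝ} : 0 ≤ h x ↔ 0 ≤ x := by
  conv_lhs => rw [← h0]
  exact h.le_iff_le

include h0 in
lemma fwd_aux (q : (poly t ht).Q) : (h (q : ℍ).re) ^ 2 < (q : ℍ).re ^ 2 + (q : ℍ).im ^ 2 -
    (polyLines ht).A (q : ℍ).re + (polyLines ht').A (h (q : ℍ).re) := by
  obtain ⟨h1, h2⟩ := (mem_carrier_iff ht (q : ℍ)).mp q.2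
  have h3 := sq_lt_A ht' ((h_nonneg h h0).mpr h1)
  linarith

/-- The map of polygons. -/
def fwd (q : (poly t ht).Q) : (poly t' ht').Q :=
  ⟨toPt _ _ (fwd_aux ht ht' h h0 q), by
    obtain ⟨h1, h2⟩ := (mem_carrier_iff ht (q : ℍ)).mp q.2
    rw [mem_carrier_iff ht', toPt_norm, toPt_re]
    exact ⟨(h_nonneg h h0).mpr h1, by linarith⟩⟩

lemma fwd_re (q : (poly t ht).Q) : (fwd ht ht' h h0 q : ℍ).re = h (q : ℍ).re := rfl

lemma fwd_norm (q : (poly t ht).Q) :
    (fwd ht ht' h h0 q : ℍ).re ^ 2 + (fwd ht ht' h h0 q : ℍ).im ^ 2 =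
      (q : ℍ).re ^ 2 + (q : ℍ).im ^ 2 -
    (polyLines ht).A (q : ℍ).re + (polyLines ht').A (h (q : ℍ).re) :=
  toPt_norm _ _ (fwd_aux ht ht' h h0 q)

lemma continuous_fwd : Continuous (fwd ht ht' h h0) := by
  rw [continuous_induced_rng]
  have hre : Continuous fun q : (poly t ht).Q => (q : ℍ).re :=
    UpperHalfPlane.continuous_re.comp continuous_subtype_val
  have him : Continuous fun q : (poly t ht).Q => (q : ℍ).im :=
    UpperHalfPlane.continuous_im.comp continuous_subtype_val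
  have hh : Continuous h := h.continuous
  have hx : Continuous fun q : (poly t ht).Q => h (q : ℍ).re := hh.comp hre
  have hw : Continuous fun q : (poly t ht).Q => √((q : ℍ).re ^ 2 + (q : ℍ).im ^ 2 -
      (polyLines ht).A (q : ℍ).re + (polyLines ht').A (h (q : ℍ).re) - (h (q : ℍ).re) ^ 2) := by
    refine Continuous.sqrt (Continuous.sub (Continuous.add (Continuous.sub ?_ ?_) ?_) ?_)
    · exact (hre.pow 2).add (him.pow 2)
    · exact (polyLines ht).continuous_A.comp hre
    · exact (polyLines ht').continuous_A.comp hx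
    · exact hx.pow 2
  rw [UpperHalfPlane.isEmbedding_coe.continuous_iff]
  have : (fun q : (poly t ht).Q => ((fwd ht ht' h h0 q : ℍ) : ℂ)) = fun q : (poly t ht).Q =>
      ((h (q : ℍ).re : ℝ) : ℂ) + ((√((q : ℍ).re ^ 2 + (q : ℍ).im ^ 2 -
      (polyLines ht).A (q : ℍ).re + (polyLines ht').A (h (q : ℍ).re) -
        (h (q : ℍ).re) ^ 2) : ℝ) : ℂ) * Complex.I := by
    funext q
    apply Complex.ext
    · simp only [Complex.add_re, Complex.ofReal_re, Complex.mul_re, Complex.I_re, mul_zero,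
        Complex.ofReal_im, zero_mul, sub_zero, add_zero]
      rfl
    · simp only [Complex.add_im, Complex.ofReal_im, Complex.mul_im, Complex.I_im, mul_one,
        Complex.ofReal_re, Complex.I_re, mul_zero, add_zero, zero_add]
      rfl
  show Continuous (fun q : (poly t ht).Q => ((fwd ht ht' h h0 q : ℍ) : ℂ))
  rw [this]
  exact (Complex.continuous_ofReal.comp hx).add
    ((Complex.continuous_ofReal.comp hw).mul continuous_const)

end

lemma fwd_fwd {t t' : ℕ → ℝ} (ht : Adm t) (ht' : Adm t') (h : ℝ ≃o ℝ) (h0 : h 0 = 0)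
    (h0' : h.symm 0 = 0) (q : (poly t ht).Q) :
    fwd ht' ht h.symm h0' (fwd ht ht' h h0 q) = q := by
  apply Subtype.ext
  refine toPt_eq (fwd_aux ht' ht h.symm h0' (fwd ht ht' h h0 q)) ?_ ?_
  · rw [fwd_re, h.symm_apply_apply]
  · rw [fwd_norm, fwd_re, h.symm_apply_apply]; ring

/-- The homeomorphism of polygons. -/
theorem exists_homeo {t t' : ℕ → ℝ} (ht : Adm t) (ht' : Adm t') :
    Nonempty ((poly t ht).X ≃ₜ (poly t' ht').X) := by
  obtain ⟨h, hh⟩ := Lines.exists_match (polyLines ht) (polyLines ht')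
  have h0 : h 0 = 0 := by
    have := hh 0
    rwa [(polyLines ht).X_zero, (polyLines ht').X_zero] at this
  have h0' : h.symm 0 = 0 := by rw [h.symm_apply_eq]; exact h0.symm
  let f : (poly t ht).Q ≃ₜ (poly t' ht').Q :=
    { toFun := fwd ht ht' h h0
      invFun := fwd ht' ht h.symm h0'
      left_inv := fwd_fwd ht ht' h h0 h0'
      right_inv := fun q => by
        have := fwd_fwd ht' ht h.symm h0' (by simpa using h0) q
        simpa using this
      continuous_toFun := continuous_fwd ht ht' h h0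
      continuous_invFun := continuous_fwd ht' ht h.symm h0' }
  refine Poly.nonempty_homeo f fun n q => ?_
  obtain ⟨h1, h2⟩ := (mem_carrier_iff ht (q : ℍ)).mp q.2
  have h1' : 0 ≤ h (q : ℍ).re := (h_nonneg h h0).mpr h1
  rcases n with _ | n
  · show F (0, -1, 0) (q : ℍ) = 0 ↔ F (0, -1, 0) (fwd ht ht' h h0 q : ℍ) = 0
    rw [F_axis, F_axis, div_eq_zero_iff, div_eq_zero_iff, fwd_re]
    have e1 : ¬ ((q : ℍ).im = 0) := (q : ℍ).im_ne_zero
    have e2 : ¬ ((fwd ht ht' h h0 q : ℍ).im = 0) := (fwd ht ht' h h0 q : ℍ).im_ne_zero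
    simp only [e1, e2, or_false]
    constructor
    · intro he; rw [he, h0]
    · intro he
      apply h.injective
      rw [he, h0]
  · show F (vec t (n + 1)) (q : ℍ) = 0 ↔ F (vec t' (n + 1)) (fwd ht ht' h h0 q : ℍ) = 0
    rw [F_vec_eq_zero ht, F_vec_eq_zero ht', fwd_norm, fwd_re]
    have hA := (polyLines ht).aff_le_A n (q : ℍ).re
    have hA' := (polyLines ht').aff_le_A n (h (q : ℍ).re)
    have hiff : (polyLines ht).A (q : ℍ).re = (polyLines ht).aff n (q : ℍ).re ↔
        (polyLines ht').A (h (q : ℍ).re) = (polyLines ht').aff n (h (q : ℍ).re) := by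
      rw [(polyLines ht).A_eq_aff_iff h1, (polyLines ht').A_eq_aff_iff h1', ← hh, ← hh,
        h.le_iff_le, h.le_iff_le]
    constructor
    · intro he
      have e1 : (polyLines ht).A (q : ℍ).re = (polyLines ht).aff n (q : ℍ).re := by linarith
      have e2 := hiff.mp e1
      linarith
    · intro he
      have e2 : (polyLines ht').A (h (q : ℍ).re) = (polyLines ht').aff n (h (q : ℍ).re) := by
        linarith
      have e1 := hiff.mpr e2
      linarith

end Pool.Agent.Hyp72
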