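import Pool.Agent.Lib_helper72.Hyp.Cover

/-!
# The fundamental group is not finitely generated
-/

open Metric Set Topology UpperHalfPlane

noncomputable section

namespace Pool.Agent.Hyp72

namespace Poly

/-- The target group. -/
abbrev G2 : Type := Multiplicative (ℕ →₀ ZMod 2)

/-- The second voltage assignment. -/
def volt2 (P : Poly) (q : P.Q) : G2 :=
  match P.oS q with
  | some n => if n = 0 then 1 else Multiplicative.ofAdd (Finsupp.single n 1)
  | none => 1

lemma volt2_eq {P : Poly} {q : P.Q} {n : ℕ} (h1 : n % 2 = 0) (h2 : F (P.v n) q = 0) :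
    P.volt2 q = if n = 0 then 1 else Multiplicative.ofAdd (Finsupp.single n 1) := by
  unfold volt2
  rw [oS_eq_some h1 h2]

lemma volt2_local (P : Poly) : ∀ q ∈ P.S, ∃ r > 0, ∀ a ∈ ball q r, a ∈ P.S →
    P.volt2 a = P.volt2 q := by
  rintro q ⟨n, hn, hF⟩
  obtain ⟨r, hr, hrw⟩ := exists_radius (P := P) q q.2
  refine ⟨r, hr, fun a ha ⟨k, hk, hFk⟩ => ?_⟩
  have hkn : k = n := by
    by_cases h : F (P.v k) q = 0
    · exact active_unique h hF (by omega)
    · exact absurd hFk (hrw a ha k h).ne'
  subst hkn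
  rw [volt2_eq hk hFk, volt2_eq hk hF]

/-- At some base point the fundamental group is not finitely generated. -/
theorem exists_not_fg (P : Poly) : ∃ x₀ : P.X, ¬ Group.FG (FundamentalGroup P.X x₀) := by
  have hp := isQuotientCoveringMap_cproj (σ := P.volt2) isClosed_S P.volt2_local
  have : PathConnectedSpace P.Q := pathConnectedSpace_of_isGeodesicSpace P.isGeodesicSpace
  obtain ⟨s0, hs0⟩ := P.exists_mem_side 0
  have m0 : s0 ∈ P.S := ⟨0, rfl, hs0⟩
  have v0 : P.volt2 s0 = 1 := by rw [volt2_eq rfl hs0]; simp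
  set m : P.M := Double.mk P.S false s0 with hm
  let e : cproj P.S P.volt2 ⁻¹' {m} := ⟨cmk P.S P.volt2 false 1 s0, rfl⟩
  let s : C(P.M, P.X) := ⟨Double.mk P.B false, (Double.isometry_mk false).continuous⟩
  let r : C(P.X, P.M) := ⟨Double.fold, Double.continuous_fold⟩
  have hrs : ∀ m, r (s m) = m := fun m => Double.fold_mk _ _
  refine ⟨s m, fun hfg => ?_⟩
  let Φ : FundamentalGroup P.X (s m) →* G2ᵐᵒᵖ :=
    (hp.fundamentalGroupToMulOpposite e).comp (FundamentalGroup.mapOfEq r (hrs m))
  have hΦ : ∀ n, n % 2 = 0 → 0 < n → ∃ γ, Φ γ =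
      MulOpposite.op (Multiplicative.ofAdd (Finsupp.single n (1 : ZMod 2)))⁻¹ := by
    intro n hn hn0
    obtain ⟨q, hq⟩ := P.exists_mem_side n
    have mq : q ∈ P.S := ⟨n, hn, hq⟩
    obtain ⟨γ, hγ⟩ := exists_fundamentalGroup hp e _ (joined_smul m0 v0 mq s0)
    refine ⟨FundamentalGroup.map s m γ, ?_⟩
    show hp.fundamentalGroupToMulOpposite e (FundamentalGroup.mapOfEq r (hrs m)
      (FundamentalGroup.map s m γ)) = _
    rw [retract_key s r hrs, hγ, volt2_eq hn hq, if_neg (by omega)]
  -- finitely many generators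
  obtain ⟨T, hT⟩ := Group.fg_def.mp hfg
  let N : ℕ := T.sup fun γ => ((Multiplicative.toAdd (MulOpposite.unop (Φ γ))).support.sup id) + 1
  have hN : ∀ γ ∈ T, ∀ n ≥ N, (Multiplicative.toAdd (MulOpposite.unop (Φ γ))) n = 0 := by
    intro γ hγ n hn
    by_contra hne
    have h1 : n ∈ (Multiplicative.toAdd (MulOpposite.unop (Φ γ))).support :=
      Finsupp.mem_support_iff.mpr hne
    have h2 : n ≤ (Multiplicative.toAdd (MulOpposite.unop (Φ γ))).support.sup id :=
      Finset.le_sup (f := id) h1
    have h3 : ((Multiplicative.toAdd (MulOpposite.unop (Φ γ))).support.sup id) + 1 ≤ N :=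
      Finset.le_sup (f := fun γ =>
        ((Multiplicative.toAdd (MulOpposite.unop (Φ γ))).support.sup id) + 1) hγ
    omega
  have hall : ∀ γ : FundamentalGroup P.X (s m), ∀ n ≥ N,
      (Multiplicative.toAdd (MulOpposite.unop (Φ γ))) n = 0 := by
    intro γ
    have hγ : γ ∈ Subgroup.closure (T : Set (FundamentalGroup P.X (s m))) := by
      rw [hT]; trivial
    induction hγ using Subgroup.closure_induction with
    | mem x hx => exact hN x hx
    | one =>
      intro n _
      rw [map_one, MulOpposite.unop_one, toAdd_one, Finsupp.zero_apply]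
    | mul x y _ _ hx hy =>
      intro n hn
      rw [map_mul, MulOpposite.unop_mul, toAdd_mul, Finsupp.add_apply, hx n hn, hy n hn, add_zero]
    | inv x _ hx =>
      intro n hn
      rw [map_inv, MulOpposite.unop_inv, toAdd_inv, Finsupp.neg_apply, hx n hn, neg_zero]
  obtain ⟨γ, hγ⟩ := hΦ (2 * N + 2) (by omega) (by omega)
  have h1 := hall γ (2 * N + 2) (by omega)
  rw [hγ] at h1
  simp at h1

/-- All base points. -/
theorem fundamentalGroup_all (P : Poly) (x : P.X) :
    (∃ a b : FundamentalGroup P.X x, a * b ≠ b * a) ∧ ¬ Group.FG (FundamentalGroup P.X x) := by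
  constructor
  · obtain ⟨y, a, b, hab⟩ := P.exists_noncomm
    let f := FundamentalGroup.fundamentalGroupMulEquivOfPathConnected (X := P.X) y x
    refine ⟨f a, f b, fun h => hab ?_⟩
    apply f.injective
    rw [map_mul, map_mul, h]
  · obtain ⟨y, hy⟩ := P.exists_not_fg
    intro hx
    let f := FundamentalGroup.fundamentalGroupMulEquivOfPathConnected (X := P.X) x y
    exact hy (Group.fg_of_surjective (f := f.toMonoidHom) f.surjective)

end Poly

end Pool.Agent.Hyp72
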