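import Pool.Agent.Lib_helper72.Hyp.Surf2

/-!
# Transfer of closed geodesics by scaling
-/

open Metric Set UpperHalfPlane Topology
open scoped MatrixGroups
open Pool.Agent.SimpleSpectrum

noncomputable section

namespace Pool.Agent.Hyp72

/-- Positive reals. -/
abbrev PosR : Type := {x : ℝ // 0 < x}

/-- The action of a scaling on Minkowski space. -/
def scV (c : PosR) (v : V) : V := (v.1 / c, v.2.1, c * v.2.2)

lemma iota_smul (c : PosR) (z : ℍ) : iota (c • z) = scV c (iota z) := by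
  have hc := c.2.ne'
  have hz := z.im_ne_zero
  simp only [iota, scV, pos_real_im, pos_real_re]
  refine Prod.ext ?_ (Prod.ext ?_ ?_)
  · simp only; field_simp
  · simp only; field_simp
  · simp only; field_simp

lemma bil_scV (c : PosR) (v w : V) : bil (scV c v) (scV c w) = bil v w := by
  have hc := c.2.ne'
  simp only [bil, scV]; field_simp

lemma F_scV (c : PosR) (v : V) (z : ℍ) : F (scV c v) (c • z) = F v z := by
  simp only [F, iota_smul, bil_scV]

lemma scV_add_smul (c : PosR) (u v : V) (t : ℝ) : scV c (u + t • v) = scV c u + t • scV c v := by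
  refine Prod.ext ?_ (Prod.ext ?_ ?_)
  · simp only [scV, Prod.fst_add, Prod.smul_fst, smul_eq_mul]; ring
  · simp only [scV, Prod.snd_add, Prod.fst_add, Prod.smul_snd, Prod.smul_fst]
  · simp only [scV, Prod.snd_add, Prod.smul_snd, smul_eq_mul]; ring

lemma refl_scV {c : PosR} {v v' : V} (hv : bil v v = 1) (hv' : bil v' v' = 1) (h : v' = scV c v)
    (z : ℍ) : refl v' hv' • (c • z) = c • (refl v hv • z) := by
  subst h
  apply iota_injective
  rw [iota_refl, iota_smul, iota_smul, iota_refl, scV_add_smul, F_scV]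

lemma dist_pos_smul (c : PosR) (z w : ℍ) : dist (c • z) (c • w) = dist z w :=
  (isometry_pos_mul c).dist_eq z w

lemma pos_smul_injective (c : PosR) {z w : ℍ} (h : c • z = c • w) : z = w := by
  have := dist_pos_smul c z w
  rw [h, dist_self] at this
  exact dist_eq_zero.mp this.symm

namespace Poly

/-- The renumbering of the sides. -/
def shiftIdx (J n : ℕ) : ℕ := if n = 0 then 0 else n + J

/-- The scaling by `c` maps the part of the polygon `P` in the half disc `|z|² < A` into the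
polygon `P'`, with sides going to sides, and the side `1` going to the interior. -/
structure Match (P P' : Poly) (c : PosR) (A : ℝ) (J : ℕ) : Prop where
  two_le : 2 ≤ J
  even : J % 2 = 0
  map_mem : ∀ a ∈ P.carrier, a.re ^ 2 + a.im ^ 2 < A → c • a ∈ P'.carrier
  side : ∀ n, n ≠ 1 → ∀ a ∈ P.carrier, a.re ^ 2 + a.im ^ 2 < A → F (P.v n) a = 0 →
    P'.v (shiftIdx J n) = scV c (P.v n)
  side' : ∀ k, ∀ a ∈ P.carrier, a.re ^ 2 + a.im ^ 2 < A → F (P'.v k) (c • a) = 0 →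
    ∃ n, n ≠ 1 ∧ k = shiftIdx J n ∧ F (P.v n) a = 0

variable {P P' : Poly} {c : PosR} {A : ℝ} {J : ℕ}

lemma shiftIdx_mod (hJ : J % 2 = 0) (n : ℕ) : shiftIdx J n % 2 = n % 2 := by
  unfold shiftIdx; split_ifs <;> omega

lemma Match.F_eq (h : Match P P' c A J) {n : ℕ} (hn : n ≠ 1) {a : ℍ} (ha : a ∈ P.carrier)
    (hA : a.re ^ 2 + a.im ^ 2 < A) (h0 : F (P.v n) a = 0) :
    F (P'.v (shiftIdx J n)) (c • a) = 0 := by
  rw [h.side n hn a ha hA h0, F_scV, h0]

lemma Match.oS_eq (h : Match P P' c A J) {a : ℍ} (ha : a ∈ P.carrier)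
    (hA : a.re ^ 2 + a.im ^ 2 < A) : P'.oS (c • a) = (P.oS a).map (shiftIdx J) := by
  rcases ho : P.oS a with _ | n
  · rw [Option.map_none]
    apply oS_eq_none
    rintro ⟨k, hk, hF⟩
    obtain ⟨n, hn1, rfl, hn⟩ := h.side' k a ha hA hF
    rw [shiftIdx_mod h.even] at hk
    rw [oS_eq_some hk hn] at ho
    simp at ho
  · obtain ⟨hn, hF⟩ := oS_some ho
    rw [Option.map_some]
    exact oS_eq_some (by rw [shiftIdx_mod h.even, hn]) (h.F_eq (by omega) ha hA hF)

lemma Match.oB_eq (h : Match P P' c A J) {a : ℍ} (ha : a ∈ P.carrier)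
    (hA : a.re ^ 2 + a.im ^ 2 < A) : P'.oB (c • a) = (P.oB a).map (shiftIdx J) := by
  rcases ho : P.oB a with _ | n
  · rw [Option.map_none]
    apply oB_eq_none
    rintro ⟨k, hk3, hk, hF⟩
    obtain ⟨n, hn1, rfl, hn⟩ := h.side' k a ha hA hF
    rw [shiftIdx_mod h.even] at hk
    rw [oB_eq_some (by omega) hk hn] at ho
    simp at ho
  · obtain ⟨hn3, hn, hF⟩ := oB_some ho
    rw [Option.map_some]
    refine oB_eq_some ?_ (by rw [shiftIdx_mod h.even, hn]) (h.F_eq (by omega) ha hA hF)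
    unfold shiftIdx; split_ifs <;> omega

lemma Match.act_eq (h : Match P P' c A J) {a : ℍ} (ha : a ∈ P.carrier)
    (hA : a.re ^ 2 + a.im ^ 2 < A) {o : Option ℕ}
    (ho : ∀ n, o = some n → n ≠ 1 ∧ F (P.v n) a = 0) (i : Bool) (z : ℍ) :
    P'.act (o.map (shiftIdx J)) i (c • z) = c • P.act o i z := by
  cases i
  · simp
  · rcases o with _ | n
    · simp
    · obtain ⟨h1, h2⟩ := ho n rfl
      rw [Option.map_some, act_some_true, act_some_true]
      exact refl_scV _ _ (h.side n h1 a ha hA h2) z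

open Classical in
/-- The map of surfaces. -/
def tmap (P P' : Poly) (c : PosR) (p : P.X) : P'.X :=
  if h : c • ((exists_rep p).choose_spec.choose_spec.choose : ℍ) ∈ P'.carrier then
    P'.E (exists_rep p).choose (exists_rep p).choose_spec.choose
      ⟨c • ((exists_rep p).choose_spec.choose_spec.choose : ℍ), h⟩
  else P'.E false false (Classical.arbitrary _)

lemma Match.mem_S (h : Match P P' c A J) {q : P.Q} (hA : (q : ℍ).re ^ 2 + (q : ℍ).im ^ 2 < A)
    (hm : c • (q : ℍ) ∈ P'.carrier) :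
    (⟨c • (q : ℍ), hm⟩ : P'.Q) ∈ P'.S ↔ q ∈ P.S := by
  constructor
  · rintro ⟨k, hk, hF⟩
    obtain ⟨n, hn1, rfl, hn⟩ := h.side' k q q.2 hA hF
    rw [shiftIdx_mod h.even] at hk
    exact ⟨n, hk, hn⟩
  · rintro ⟨n, hn, hF⟩
    exact ⟨shiftIdx J n, by rw [shiftIdx_mod h.even, hn], h.F_eq (by omega) q.2 hA hF⟩

lemma Match.mem_B0 (h : Match P P' c A J) {q : P.Q} (hA : (q : ℍ).re ^ 2 + (q : ℍ).im ^ 2 < A)
    (hm : c • (q : ℍ) ∈ P'.carrier) :
    (⟨c • (q : ℍ), hm⟩ : P'.Q) ∈ P'.B0 ↔ q ∈ P.B0 := by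
  constructor
  · rintro ⟨k, hk3, hk, hF⟩
    obtain ⟨n, hn1, rfl, hn⟩ := h.side' k q q.2 hA hF
    rw [shiftIdx_mod h.even] at hk
    exact ⟨n, by omega, hk, hn⟩
  · rintro ⟨n, hn3, hn, hF⟩
    exact ⟨shiftIdx J n, by unfold shiftIdx; split_ifs <;> omega,
      by rw [shiftIdx_mod h.even, hn], h.F_eq (by omega) q.2 hA hF⟩

lemma Match.tmap_E (h : Match P P' c A J) (i j : Bool) (q : P.Q)
    (hA : (q : ℍ).re ^ 2 + (q : ℍ).im ^ 2 < A) :
    tmap P P' c (P.E i j q) = P'.E i j ⟨c • (q : ℍ), h.map_mem q q.2 hA⟩ := by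
  have hrep := (exists_rep (P.E i j q)).choose_spec.choose_spec.choose_spec
  unfold tmap
  set i' := (exists_rep (P.E i j q)).choose with hi'
  set j' := (exists_rep (P.E i j q)).choose_spec.choose with hj'
  set q' := (exists_rep (P.E i j q)).choose_spec.choose_spec.choose with hq'
  rw [E_eq_iff] at hrep
  obtain ⟨hqq, hS, hB⟩ := hrep
  have hA' : (q' : ℍ).re ^ 2 + (q' : ℍ).im ^ 2 < A := by rw [hqq]; exact hA
  rw [dif_pos (h.map_mem q' q'.2 hA'), E_eq_iff]
  refine ⟨Subtype.ext (by simp only [hqq]), fun hne => ?_, fun hne => ?_⟩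
  · rw [h.mem_S hA']; exact hS hne
  · rw [h.mem_B0 hA']; exact hB hne

lemma continuous_normSq' : Continuous fun z : ℍ => z.re ^ 2 + z.im ^ 2 :=
  (UpperHalfPlane.continuous_re.pow 2).add (UpperHalfPlane.continuous_im.pow 2)

/-- The map is locally distance preserving. -/
lemma Match.tmap_local (h : Match P P' c A J) (p : P.X)
    (hA : (π P p : ℍ).re ^ 2 + (π P p : ℍ).im ^ 2 < A) :
    ∃ ε > 0, ∀ y ∈ ball p ε, ∀ z ∈ ball p ε,
      dist (tmap P P' c y) (tmap P P' c z) = dist y z := by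
  obtain ⟨i, j, q, rfl⟩ := exists_rep p
  rw [π_E] at hA
  obtain ⟨φ, r, hφ, hr⟩ := P.chartX q i j
  obtain ⟨φ', r', hφ', hr'⟩ := P'.chartX ⟨c • (q : ℍ), h.map_mem q q.2 hA⟩ i j
  have hopen : IsOpen {z : ℍ | z.re ^ 2 + z.im ^ 2 < A} :=
    isOpen_lt continuous_normSq' continuous_const
  obtain ⟨ε0, hε0, hball⟩ := Metric.isOpen_iff.mp hopen q hA
  have hpos : 0 < min ε0 (min r r') := lt_min hε0 (lt_min hφ.pos hφ'.pos)
  refine ⟨min ε0 (min r r'), hpos, ?_⟩
  -- the key formula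
  have key : ∀ y ∈ ball (P.E i j q) (min ε0 (min r r')),
      tmap P P' c y ∈ ball (P'.E i j ⟨c • (q : ℍ), h.map_mem q q.2 hA⟩) r' ∧
      φ' (tmap P P' c y) = c • φ y := by
    intro y hy
    obtain ⟨i1, j1, a, rfl⟩ := exists_rep y
    have hy1 : P.E i1 j1 a ∈ ball (P.E i j q) r :=
      ball_subset_ball ((min_le_right _ _).trans (min_le_left _ _)) hy
    have haq : dist a q < min ε0 (min r r') := (dist_le_dist_E _ _ _ _ _ _).trans_lt hy
    have haA : (a : ℍ).re ^ 2 + (a : ℍ).im ^ 2 < A :=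
      hball (show (a : ℍ) ∈ ball (q : ℍ) ε0 from haq.trans_le (min_le_left _ _))
    obtain ⟨hval, hs1, hs2⟩ := hr i1 j1 a hy1
    rw [h.tmap_E i1 j1 a haA]
    have hmem : P'.E i1 j1 ⟨c • (a : ℍ), h.map_mem a a.2 haA⟩ ∈
        ball (P'.E i j ⟨c • (q : ℍ), h.map_mem q q.2 hA⟩) r' := by
      have e : P'.E i j ⟨c • (q : ℍ), h.map_mem q q.2 hA⟩ =
          P'.E i1 j1 ⟨c • (q : ℍ), h.map_mem q q.2 hA⟩ := by
        rw [E_eq_iff]
        refine ⟨rfl, fun hne => ?_, fun hne => ?_⟩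
        · rw [h.mem_S hA]
          rcases ho : P.oS q with _ | n
          · exact absurd (hs1 ho).symm hne
          · exact ⟨n, oS_some ho⟩
        · rw [h.mem_B0 hA]
          rcases ho : P.oB q with _ | n
          · exact absurd (hs2 ho).symm hne
          · exact ⟨n, oB_some ho⟩
      rw [e, mem_ball, dist_E]
      show dist (c • (a : ℍ)) (c • (q : ℍ)) < r'
      rw [dist_pos_smul]
      exact haq.trans_le ((min_le_right _ _).trans (min_le_right _ _))
    refine ⟨hmem, ?_⟩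
    rw [(hr' i1 j1 _ hmem).1, hval]
    simp only
    rw [h.oS_eq q.2 hA, h.oB_eq q.2 hA]
    rw [h.act_eq q.2 hA (fun n hn => ⟨by have := oS_some hn; omega, (oS_some hn).2⟩),
      h.act_eq q.2 hA (fun n hn => ⟨by have := oB_some hn; omega, (oB_some hn).2.2⟩)]
  intro y hy z hz
  obtain ⟨hy1, hy2⟩ := key y hy
  obtain ⟨hz1, hz2⟩ := key z hz
  rw [← hφ'.isom _ hy1 _ hz1, hy2, hz2, dist_pos_smul]
  exact hφ.isom _ (ball_subset_ball ((min_le_right _ _).trans (min_le_left _ _)) hy) _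
    (ball_subset_ball ((min_le_right _ _).trans (min_le_left _ _)) hz)

lemma Match.tmap_inj (h : Match P P' c A J) {y z : P.X}
    (hy : (π P y : ℍ).re ^ 2 + (π P y : ℍ).im ^ 2 < A)
    (hz : (π P z : ℍ).re ^ 2 + (π P z : ℍ).im ^ 2 < A)
    (heq : tmap P P' c y = tmap P P' c z) : y = z := by
  obtain ⟨i, j, q, rfl⟩ := exists_rep y
  obtain ⟨i', j', q', rfl⟩ := exists_rep z
  rw [π_E] at hy hz
  rw [h.tmap_E i j q hy, h.tmap_E i' j' q' hz, E_eq_iff] at heq
  obtain ⟨h1, h2, h3⟩ := heq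
  rw [h.mem_S hy] at h2
  rw [h.mem_B0 hy] at h3
  rw [E_eq_iff]
  exact ⟨Subtype.ext (pos_smul_injective c (congrArg Subtype.val h1)), h2, h3⟩

lemma Match.π_tmap (h : Match P P' c A J) {y : P.X}
    (hy : (π P y : ℍ).re ^ 2 + (π P y : ℍ).im ^ 2 < A) :
    (π P' (tmap P P' c y) : ℍ) = c • (π P y : ℍ) := by
  obtain ⟨i, j, q, rfl⟩ := exists_rep y
  rw [π_E] at hy
  rw [h.tmap_E i j q hy, π_E, π_E]

/-- Geodesics are continuous. -/
lemma continuous_of_isGeodesicOn {X : Type} [MetricSpace X] {γ : ℝ → X}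
    (h : IsGeodesicOn γ univ) : Continuous γ := by
  rw [continuous_iff_continuousAt]
  intro t
  obtain ⟨ε, hε, hd⟩ := h t trivial
  rw [Metric.continuousAt_iff]
  intro δ hδ
  refine ⟨min ε δ, lt_min hε hδ, fun {s} hs => ?_⟩
  rw [Real.dist_eq] at hs
  rw [hd s trivial t trivial (hs.trans_le (min_le_left _ _)) (by simpa using hε)]
  exact hs.trans_le (min_le_right _ _)

lemma Match.transfer (h : Match P P' c A J) {ℓ : ℝ} (hℓ : 0 < ℓ) {γ : ℝ → P.X}
    (h1 : IsGeodesicOn γ univ) (h2 : ∀ s t, γ s = γ t ↔ ∃ n : ℤ, s - t = n * ℓ)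
    (hA : ∀ t, (π P (γ t) : ℍ).re ^ 2 + (π P (γ t) : ℍ).im ^ 2 < A) :
    IsSimpleClosedGeodesic ℓ (range (tmap P P' c ∘ γ)) := by
  refine ⟨hℓ, _, fun t _ => ?_, fun s t => ?_, rfl⟩
  · obtain ⟨ε1, hε1, hd⟩ := h1 t trivial
    obtain ⟨ε2, hε2, hT⟩ := h.tmap_local (γ t) (hA t)
    refine ⟨min ε1 ε2, lt_min hε1 hε2, fun s _ s' _ hs hs' => ?_⟩
    have hball : ∀ s, |s - t| < min ε1 ε2 → γ s ∈ ball (γ t) ε2 := by
      intro s hs
      rw [mem_ball, hd s trivial t trivial (hs.trans_le (min_le_left _ _)) (by simpa using hε1)]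
      exact hs.trans_le (min_le_right _ _)
    simp only [Function.comp]
    rw [hT _ (hball s hs) _ (hball s' hs')]
    exact hd s trivial s' trivial (hs.trans_le (min_le_left _ _)) (hs'.trans_le (min_le_left _ _))
  · rw [← h2]
    exact ⟨fun heq => h.tmap_inj (hA s) (hA t) heq, fun heq => by simp only [Function.comp, heq]⟩

/-- If `P` matches `P'` on arbitrarily large parts with arbitrarily large scaling factors, every
length of a simple closed geodesic of `P.X` occurs infinitely often in `P'.X`. -/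
theorem infinite_of_match (hm : ∀ A K : ℝ, ∃ c : PosR, K < c ∧ ∃ J, Match P P' c A J) {ℓ : ℝ}
    {C : Set P.X} (hC : IsSimpleClosedGeodesic ℓ C) :
    {C' : Set P'.X | IsSimpleClosedGeodesic ℓ C'}.Infinite := by
  obtain ⟨hℓ, γ, h1, h2, rfl⟩ := hC
  have hcont := continuous_of_isGeodesicOn h1
  -- the image is compact
  have hper : ∀ t, ∃ s ∈ Icc 0 ℓ, γ s = γ t := by
    intro t
    refine ⟨toIcoMod hℓ 0 t, ?_, ?_⟩
    · have := toIcoMod_mem_Ico hℓ 0 t
      rw [zero_add] at this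
      exact ⟨this.1, this.2.le⟩
    · rw [h2]
      refine ⟨-toIcoDiv hℓ 0 t, ?_⟩
      have := self_sub_toIcoDiv_zsmul hℓ 0 t
      rw [zsmul_eq_mul] at this
      push_cast
      linarith
  have hcπ : Continuous fun t => (π P (γ t) : ℍ) :=
    continuous_subtype_val.comp (continuous_π.comp hcont)
  obtain ⟨A, hA⟩ : ∃ A, ∀ t, (π P (γ t) : ℍ).re ^ 2 + (π P (γ t) : ℍ).im ^ 2 < A := by
    obtain ⟨s, hs, hmax⟩ := isCompact_Icc.exists_isMaxOn (nonempty_Icc.mpr hℓ.le)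
      ((continuous_normSq'.comp hcπ).continuousOn (s := Icc 0 ℓ))
    refine ⟨(π P (γ s) : ℍ).re ^ 2 + (π P (γ s) : ℍ).im ^ 2 + 1, fun t => ?_⟩
    obtain ⟨s', hs', hst⟩ := hper t
    have := hmax hs'
    simp only [Function.comp, mem_ofPred_eq] at this
    rw [← hst]; linarith
  obtain ⟨m0, hm0, hmin⟩ : ∃ m0 > 0, ∀ t, m0 ≤ (π P (γ t) : ℍ).im := by
    obtain ⟨s, hs, hmin⟩ := isCompact_Icc.exists_isMinOn (nonempty_Icc.mpr hℓ.le)
      ((UpperHalfPlane.continuous_im.comp hcπ).continuousOn (s := Icc 0 ℓ))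
    refine ⟨(π P (γ s) : ℍ).im, (π P (γ s) : ℍ).im_pos, fun t => ?_⟩
    obtain ⟨s', hs', hst⟩ := hper t
    rw [← hst]
    exact hmin hs'
  intro hfin
  -- a bound for one point on every geodesic
  have hne : ∀ C' : Set P'.X, IsSimpleClosedGeodesic ℓ C' → C'.Nonempty := by
    rintro C' ⟨-, γ', -, -, rfl⟩
    exact ⟨γ' 0, 0, rfl⟩
  classical
  obtain ⟨K, hK⟩ : ∃ K : ℝ, ∀ C' : Set P'.X, IsSimpleClosedGeodesic ℓ C' →
      ∃ p ∈ C', (π P' p : ℍ).im ≤ K := by
    have hbdd := (hfin.image (fun C' : Set P'.X =>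
      if h : C'.Nonempty then (π P' h.some : ℍ).im else 0)).bddAbove
    obtain ⟨K, hK⟩ := hbdd
    refine ⟨K, fun C' hC' => ?_⟩
    have hn := hne C' hC'
    refine ⟨hn.some, hn.some_mem, ?_⟩
    apply hK
    exact ⟨C', hC', dif_pos hn⟩
  obtain ⟨c, hc, J, hmatch⟩ := hm A (max (K / m0) 0)
  obtain ⟨p, ⟨t, rfl⟩, hp⟩ := hK _ (hmatch.transfer hℓ h1 h2 hA)
  simp only [Function.comp] at hp
  rw [hmatch.π_tmap (hA t), pos_real_im] at hp
  have h3 : K / m0 < c := (le_max_left _ _).trans_lt hc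
  rw [div_lt_iff₀ hm0] at h3
  have h4 := hmin t
  have h5 : (c : ℝ) * m0 ≤ c * (π P (γ t) : ℍ).im := mul_le_mul_of_nonneg_left h4 c.2.le
  linarith

end Poly

end Pool.Agent.Hyp72
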