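import Pool.Agent.Lib_helper72.Hyp.Concrete
import Pool.Agent.Lib_helper72.Hyp.Match

/-!
# Matching of concrete polygons
-/

open Metric Set UpperHalfPlane Topology
open scoped MatrixGroups

noncomputable section

namespace Pool.Agent.Hyp72

/-- The parity sequence: `zz k` is true if the 2-adic valuation of `k` is even. -/
def zz : ℕ → Bool
  | 0 => false
  | n + 1 => if (n + 1) % 2 = 0 then !(zz ((n + 1) / 2)) else true
decreasing_by omega

lemma zz_odd (k : ℕ) : zz (2 * k + 1) = true := by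
  rw [zz, if_neg (by omega)]

lemma zz_even {k : ℕ} (hk : 0 < k) : zz (2 * k) = !(zz k) := by
  obtain ⟨l, rfl⟩ : ∃ l, k = l + 1 := ⟨k - 1, by omega⟩
  have h : 2 * (l + 1) = (2 * l + 1) + 1 := by ring
  rw [h, zz, if_pos (by omega)]
  congr 2
  omega

lemma zz_shift (m : ℕ) : ∀ k, 1 ≤ k → k < 2 ^ m → zz (k + 2 ^ m) = zz k := by
  induction m with
  | zero => intro k h1 h2; simp at h2; omega
  | succ m ih =>
    intro k h1 h2
    rw [pow_succ] at h2 ⊢
    rcases Nat.even_or_odd' k with ⟨i, rfl | rfl⟩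
    · have e : 2 * i + 2 ^ m * 2 = 2 * (i + 2 ^ m) := by ring
      have hi : 0 < i := by omega
      rw [e, zz_even (by positivity), zz_even hi, ih i hi (by omega)]
    · have e : 2 * i + 1 + 2 ^ m * 2 = 2 * (i + 2 ^ m) + 1 := by ring
      rw [e, zz_odd, zz_odd]

lemma zz_pow (m : ℕ) : zz (2 ^ m) = decide (m % 2 = 0) := by
  induction m with
  | zero => rw [pow_zero]; exact zz_odd 0
  | succ m ih =>
    rw [pow_succ, mul_comm, zz_even (by positivity), ih]
    rcases Nat.mod_two_eq_zero_or_one m with h | h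
    · have h2 : (m + 1) % 2 = 1 := by omega
      simp [h, h2]
    · have h2 : (m + 1) % 2 = 0 := by omega
      simp [h, h2]

/-- The parameter sequences. -/
def tt (x : Bool) (n : ℕ) : ℝ :=
  if n % 2 = 1 then 1 / 2 else if (if n = 0 then x else zz (n / 2)) then 1 / 2 else 1 / 3

lemma adm_tt (x : Bool) : Adm (tt x) := by
  intro k
  unfold tt
  split_ifs <;> norm_num

lemma tt_shift (x x' : Bool) {m : ℕ} (hm : decide (m % 2 = 0) = x) {k : ℕ}
    (hk : k < 2 * 2 ^ m) : tt x' (k + 2 * 2 ^ m) = tt x k := by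
  unfold tt
  rcases Nat.even_or_odd' k with ⟨i, rfl | rfl⟩
  · have hi : i < 2 ^ m := by omega
    have e1 : (2 * i + 2 * 2 ^ m) % 2 = 0 := by omega
    have e2 : (2 * i) % 2 = 0 := by omega
    have e3 : 2 * i + 2 * 2 ^ m ≠ 0 := by positivity
    have e4 : (2 * i + 2 * 2 ^ m) / 2 = i + 2 ^ m := by omega
    have e5 : (2 * i) / 2 = i := by omega
    rw [e1, e2, if_neg e3, e4, e5]
    rcases Nat.eq_zero_or_pos i with rfl | hi0
    · rw [zero_add, zz_pow, hm]
      simp
    · rw [zz_shift m i hi0 hi, if_neg (show ¬ 2 * i = 0 by omega)]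
  · have e1 : (2 * i + 1 + 2 * 2 ^ m) % 2 = 1 := by omega
    have e2 : (2 * i + 1) % 2 = 1 := by omega
    rw [e1, e2, if_pos rfl, if_pos rfl]

section

variable {t t' : ℕ → ℝ} (ht : Adm t) (ht' : Adm t')

lemma cen_shift {J K : ℕ} (h : ∀ k ≤ K, t' (k + J) = t k) :
    ∀ k ≤ K, cen t' (k + J) = cen t' J * cen t k := by
  intro k
  induction k with
  | zero => intro _; simp [cen]
  | succ k ih =>
    intro hk
    have e : k + 1 + J = (k + J) + 1 := by ring
    rw [e]
    show ratio (t' (k + J)) (t' (k + J + 1)) * cen t' (k + J) =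
      cen t' J * (ratio (t k) (t (k + 1)) * cen t k)
    rw [← e, h k (by omega), h (k + 1) hk, ih (by omega)]
    ring

lemma scV_circ (c : PosR) (d s : ℝ) : scV c (circ d s) = circ (c * d) s := by
  have hc := c.2.ne'
  simp only [scV, circ]
  refine Prod.ext ?_ (Prod.ext rfl ?_)
  · simp only
    rw [div_div]
    congr 1; ring
  · simp only; ring

lemma scV_axis (c : PosR) : scV c (0, -1, 0) = (0, -1, 0) := by
  simp [scV]

/-- The matching of two concrete polygons. -/
theorem match_poly {J K : ℕ} (hJ : 2 ≤ J) (hJe : J % 2 = 0) (h : ∀ k ≤ K, t' (k + J) = t k)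
    {A : ℝ} (hA : A ≤ (cen t K / 2) ^ 2) :
    Poly.Match (poly t ht) (poly t' ht') ⟨cen t' J, cen_pos ht' J⟩ A J := by
  set c : PosR := ⟨cen t' J, cen_pos ht' J⟩ with hc
  have hcJ : (c : ℝ) = cen t' J := rfl
  have hc0 : 0 < (c : ℝ) := c.2
  have hcen := cen_shift h
  -- matched sides
  have hvec : ∀ k ≤ K, vec t' (k + 2 + J) = scV c (vec t (k + 2)) := by
    intro k hk
    have e : k + 2 + J = (k + J) + 2 := by ring
    rw [e]
    show circ (cen t' (k + J)) (t' (k + J)) = scV c (circ (cen t k) (t k))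
    rw [scV_circ, hcen k hk, h k hk]
  -- far sides of `P`
  have hfar : ∀ k, K < k → ∀ a : ℍ, a.re ^ 2 + a.im ^ 2 < A → 0 < F (vec t (k + 2)) a := by
    intro k hk a ha
    refine F_circ_pos (cen_pos ht k) (ht.pos k) (ht.lt_one k) ha (hA.trans ?_)
    have h1 : cen t K ≤ cen t k := (cen_mono ht).monotone hk.le
    have h2 := (ht k).2
    have h3 := cen_pos ht K
    apply pow_le_pow_left₀ (by positivity)
    nlinarith
  -- far sides of `P'`
  have hfar' : ∀ k, K < k → ∀ a : ℍ, a.re ^ 2 + a.im ^ 2 < A →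
      0 < F (vec t' (k + 2 + J)) (c • a) := by
    intro k hk a ha
    have e : k + 2 + J = (k + J) + 2 := by ring
    rw [e]
    refine F_circ_pos (A := (c : ℝ) ^ 2 * A) (cen_pos ht' (k + J)) (ht'.pos (k + J))
      (ht'.lt_one (k + J)) ?_ ?_
    · rw [pos_real_re, pos_real_im]
      have : (c : ℝ) ^ 2 * (a.re ^ 2 + a.im ^ 2) < (c : ℝ) ^ 2 * A :=
        mul_lt_mul_of_pos_left ha (by positivity)
      nlinarith
    · have h1 : cen t' (K + J) ≤ cen t' (k + J) := (cen_mono ht').monotone (by omega)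
      rw [hcen K le_rfl] at h1
      have h2 := (ht' (k + J)).2
      have h3 := cen_pos ht K
      have h4 : (c : ℝ) ^ 2 * A ≤ (c * (cen t K / 2)) ^ 2 := by
        rw [mul_pow]
        exact mul_le_mul_of_nonneg_left hA (by positivity)
      refine h4.trans ?_
      apply pow_le_pow_left₀ (by positivity)
      have h5 : (c : ℝ) * (cen t K / 2) = (cen t' J * cen t K) * (1 / 2) := by rw [hcJ]; ring
      rw [h5]
      exact mul_le_mul h1 (by linarith) (by norm_num) (cen_pos ht' _).le
  -- sides of `P'` close to the origin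
  have htop : ∀ k, k < J → (cen t' k + t' k * cen t' k) ^ 2 < (c : ℝ) ^ 2 * rho t ^ 2 := by
    intro k hk
    obtain ⟨J', rfl⟩ : ∃ J', J = J' + 1 := ⟨J - 1, by omega⟩
    have h1 : cen t' k + t' k * cen t' k ≤ cen t' J' + t' J' * cen t' J' := by
      rcases Nat.lt_or_ge k J' with h2 | h2
      · have h3 := top_lt ht' k
        have h4 : cen t' (k + 1) ≤ cen t' J' := (cen_mono ht').monotone h2
        have h5 := mul_pos (ht'.pos J') (cen_pos ht' J')
        linarith
      · obtain rfl : k = J' := by omega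
        exact le_rfl
    have h2 : (cen t' J' + t' J' * cen t' J') ^ 2 < (c : ℝ) ^ 2 * rho t ^ 2 := by
      rw [ht.rho_sq]
      have h3 : t' (J' + 1) = t 0 := by simpa using h 0 (by omega)
      have h4 := cen_sq ht' J'
      have h5 := cen_lt ht' J'
      have h6 : 0 < t' J' * cen t' J' := mul_pos (ht'.pos J') (cen_pos ht' J')
      have h7 : 0 < t' (J' + 1) * cen t' (J' + 1) :=
        mul_pos (ht'.pos _) (cen_pos ht' _)
      have h8 := top_lt ht' J'
      have h9 := cen_pos ht' J'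
      have e : (c : ℝ) ^ 2 * (1 - t 0 ^ 2) =
          cen t' (J' + 1) ^ 2 - (t' (J' + 1) * cen t' (J' + 1)) ^ 2 := by
        rw [hcJ, h3]; ring
      rw [e]
      set a := cen t' J'
      set b := cen t' (J' + 1)
      set r := t' J' * a
      set s := t' (J' + 1) * b
      have h10 : r < b - a := by linarith
      nlinarith
    have h3 : 0 < cen t' k + t' k * cen t' k := by
      have := cen_pos ht' k
      have := mul_pos (ht'.pos k) (cen_pos ht' k)
      linarith
    have h4 := pow_le_pow_left₀ h3.le h1 2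
    linarith
  have hnorm : ∀ a ∈ (poly t ht).carrier, rho t ^ 2 ≤ a.re ^ 2 + a.im ^ 2 := by
    intro a ha
    have h1 : 0 ≤ F (circ0 (rho t)) a := ha 1
    rw [F_circ0 ht.rho_pos] at h1
    have hp := ht.rho_pos
    have hy := a.im_pos
    by_contra hcon
    exact absurd h1 (not_le.mpr (div_neg_of_neg_of_pos (by linarith) (by positivity)))
  have hnear : ∀ k, k < J → ∀ a ∈ (poly t ht).carrier, 0 < F (vec t' (k + 2)) (c • a) := by
    intro k hk a ha
    refine F_circ_pos' (cen_pos ht' k) (ht'.pos k) ((htop k hk).trans_le ?_)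
    rw [pos_real_re, pos_real_im]
    have h1 := hnorm a ha
    have h2 : (c : ℝ) ^ 2 * rho t ^ 2 ≤ (c : ℝ) ^ 2 * (a.re ^ 2 + a.im ^ 2) :=
      mul_le_mul_of_nonneg_left h1 (by positivity)
    nlinarith
  have hone : ∀ a ∈ (poly t ht).carrier, 0 < F (vec t' 1) (c • a) := by
    intro a ha
    show 0 < F (circ0 (rho t')) (c • a)
    rw [F_circ0 ht'.rho_pos]
    have hp := ht'.rho_pos
    have hy := (c • a).im_pos
    apply div_pos _ (by positivity)
    rw [pos_real_re, pos_real_im]
    have h1 := hnorm a ha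
    have h2 : (c : ℝ) ^ 2 * rho t ^ 2 ≤ (c : ℝ) ^ 2 * (a.re ^ 2 + a.im ^ 2) :=
      mul_le_mul_of_nonneg_left h1 (by positivity)
    have h3 := htop 0 (by omega)
    have h4 : cen t' 0 = 1 := rfl
    rw [h4] at h3
    have h5 := ht'.pos 0
    have h6 := ht'.rho_lt
    nlinarith
  have hzero : ∀ a : ℍ, F (vec t' 0) (c • a) = F (vec t 0) a := by
    intro a
    show F (0, -1, 0) (c • a) = F (0, -1, 0) a
    conv_lhs => rw [← scV_axis c]
    exact F_scV c _ a
  -- classification of the sides of `P'`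
  have hclass : ∀ n, n = 0 ∨ n = 1 ∨ (∃ k, k < J ∧ n = k + 2) ∨ (∃ k, k ≤ K ∧ n = k + 2 + J) ∨
      (∃ k, K < k ∧ n = k + 2 + J) := by
    intro n
    rcases Nat.lt_or_ge n 2 with h1 | h1
    · omega
    rcases Nat.lt_or_ge n (J + 2) with h2 | h2
    · exact Or.inr (Or.inr (Or.inl ⟨n - 2, by omega, by omega⟩))
    rcases Nat.lt_or_ge (K + 2 + J) n with h3 | h3
    · exact Or.inr (Or.inr (Or.inr (Or.inr ⟨n - 2 - J, by omega, by omega⟩)))
    · exact Or.inr (Or.inr (Or.inr (Or.inl ⟨n - 2 - J, by omega, by omega⟩)))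
  refine ⟨hJ, hJe, ?_, ?_, ?_⟩
  · intro a ha haA n
    show 0 ≤ F (vec t' n) (c • a)
    rcases hclass n with rfl | rfl | ⟨k, hk, rfl⟩ | ⟨k, hk, rfl⟩ | ⟨k, hk, rfl⟩
    · rw [hzero]; exact ha 0
    · exact (hone a ha).le
    · exact (hnear k hk a ha).le
    · rw [hvec k hk, F_scV]; exact ha (k + 2)
    · exact (hfar' k hk a haA).le
  · intro n hn a ha haA hF
    show vec t' (Poly.shiftIdx J n) = scV c (vec t n)
    match n, hn, hF with
    | 0, _, _ => exact (scV_axis c).symm
    | k + 2, _, hF =>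
      have hk : k ≤ K := by
        by_contra hcon
        have := hfar k (not_le.mp hcon) a haA
        exact this.ne' hF
      have e : Poly.shiftIdx J (k + 2) = k + 2 + J := by unfold Poly.shiftIdx; simp
      rw [e]
      exact hvec k hk
  · intro n a ha haA hF
    have hF' : F (vec t' n) (c • a) = 0 := hF
    rcases hclass n with rfl | rfl | ⟨k, hk, rfl⟩ | ⟨k, hk, rfl⟩ | ⟨k, hk, rfl⟩
    · rw [hzero] at hF'
      exact ⟨0, by omega, rfl, hF'⟩
    · exact absurd hF' (hone a ha).ne'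
    · exact absurd hF' (hnear k hk a ha).ne'
    · rw [hvec k hk, F_scV] at hF'
      exact ⟨k + 2, by omega, by unfold Poly.shiftIdx; simp, hF'⟩
    · exact absurd hF' (hfar' k hk a haA).ne'

end

/-- Any of the concrete polygons matches any other on large parts. -/
theorem exists_match (x x' : Bool) (A K : ℝ) : ∃ c : PosR, K < c ∧ ∃ J,
    Poly.Match (poly (tt x) (adm_tt x)) (poly (tt x') (adm_tt x')) c A J := by
  obtain ⟨N1, hN1⟩ := exists_cen_gt (adm_tt x') K
  obtain ⟨N2, hN2⟩ := exists_cen_gt (adm_tt x) (2 * (|A| + 1))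
  obtain ⟨m, hm, hmN⟩ : ∃ m, decide (m % 2 = 0) = x ∧ N1 + N2 ≤ m := by
    cases x
    · exact ⟨2 * (N1 + N2) + 1, by simp, by omega⟩
    · exact ⟨2 * (N1 + N2), by simp, by omega⟩
  have hlt : m < 2 ^ m := Nat.lt_two_pow_self
  refine ⟨⟨cen (tt x') (2 * 2 ^ m), cen_pos (adm_tt x') _⟩, hN1 _ (by omega), 2 * 2 ^ m, ?_⟩
  refine match_poly (adm_tt x) (adm_tt x') (K := m) (by omega) (by omega) ?_ ?_
  · intro k hk
    exact tt_shift x x' hm (by omega)
  · have h1 := hN2 m (by omega)
    have h2 := le_abs_self A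
    have h3 := abs_nonneg A
    nlinarith

end Pool.Agent.Hyp72
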