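import Mathlib

/-!
# Piecewise linear functions
-/

open Set Topology

noncomputable section

namespace Pool.Agent.Hyp72

/-- A locally finite convex piecewise linear function. -/
structure Lines where
  /-- slopes -/
  m : ℕ → ℝ
  /-- intercepts -/
  b : ℕ → ℝ
  /-- break points -/
  X : ℕ → ℝ
  m_mono : StrictMono m
  X_zero : X 0 = 0
  X_mono : StrictMono X
  X_large : ∀ A : ℝ, ∃ n, A < X n
  meet : ∀ n, m n * X (n + 1) + b n = m (n + 1) * X (n + 1) + b (n + 1)

namespace Lines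

variable (L : Lines)

/-- The lines. -/
def aff (n : ℕ) (x : ℝ) : ℝ := L.m n * x + L.b n

lemma aff_succ_sub (n : ℕ) (x : ℝ) :
    L.aff (n + 1) x - L.aff n x = (L.m (n + 1) - L.m n) * (x - L.X (n + 1)) := by
  have := L.meet n
  unfold aff
  linarith

lemma slope_pos (n : ℕ) : 0 < L.m (n + 1) - L.m n := by
  have := L.m_mono (Nat.lt_succ_self n); simp only [Nat.succ_eq_add_one] at this; linarith

lemma aff_le_of_le {n : ℕ} {x : ℝ} (hx : L.X n ≤ x) : ∀ k ≤ n, L.aff k x ≤ L.aff n x := by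
  induction n with
  | zero => intro k hk; obtain rfl : k = 0 := by omega
            exact le_rfl
  | succ n ih =>
    intro k hk
    rcases Nat.lt_or_ge k (n + 1) with h | h
    · have h1 : L.X n ≤ x := (L.X_mono.monotone (Nat.le_succ n)).trans hx
      have h2 := ih h1 k (by omega)
      have h3 := L.aff_succ_sub n x
      have h4 : 0 ≤ (L.m (n + 1) - L.m n) * (x - L.X (n + 1)) :=
        mul_nonneg (L.slope_pos n).le (by linarith)
      linarith
    · obtain rfl : k = n + 1 := by omega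
      exact le_rfl

lemma aff_le_of_ge {n : ℕ} {x : ℝ} (hx : x ≤ L.X (n + 1)) : ∀ k, L.aff (n + k) x ≤ L.aff n x := by
  intro k
  induction k with
  | zero => exact le_rfl
  | succ k ih =>
    have h1 : x ≤ L.X (n + k + 1) := hx.trans (L.X_mono.monotone (by omega))
    have h3 := L.aff_succ_sub (n + k) x
    have h4 : (L.m (n + k + 1) - L.m (n + k)) * (x - L.X (n + k + 1)) ≤ 0 :=
      mul_nonpos_of_nonneg_of_nonpos (L.slope_pos _).le (by linarith)
    have e : n + (k + 1) = n + k + 1 := by ring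
    rw [e]; linarith

lemma aff_max {n : ℕ} {x : ℝ} (h1 : n = 0 ∨ L.X n ≤ x) (h2 : x ≤ L.X (n + 1)) (k : ℕ) :
    L.aff k x ≤ L.aff n x := by
  rcases Nat.le_total k n with h | h
  · rcases h1 with rfl | h1
    · obtain rfl : k = 0 := by omega
      exact le_rfl
    · exact L.aff_le_of_le h1 k h
  · obtain ⟨l, rfl⟩ := Nat.exists_eq_add_of_le h
    exact L.aff_le_of_ge h2 l

lemma exists_cell (x : ℝ) : ∃ n, (n = 0 ∨ L.X n ≤ x) ∧ x < L.X (n + 1) := by
  classical
  have hex : ∃ n, x < L.X (n + 1) := by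
    obtain ⟨n, hn⟩ := L.X_large x
    exact ⟨n, hn.trans (L.X_mono (Nat.lt_succ_self n))⟩
  refine ⟨Nat.find hex, ?_, Nat.find_spec hex⟩
  rcases h : Nat.find hex with _ | n
  · exact Or.inl rfl
  · right
    exact not_lt.mp (Nat.find_min hex (m := n) (by omega))

/-- The convex function. -/
def A (x : ℝ) : ℝ := ⨆ n, L.aff n x

lemma bddAbove (x : ℝ) : BddAbove (range fun n => L.aff n x) := by
  obtain ⟨n, h1, h2⟩ := L.exists_cell x
  refine ⟨L.aff n x, ?_⟩
  rintro _ ⟨k, rfl⟩
  exact L.aff_max h1 h2.le k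

lemma aff_le_A (n : ℕ) (x : ℝ) : L.aff n x ≤ L.A x := le_ciSup (L.bddAbove x) n

lemma A_eq {n : ℕ} {x : ℝ} (h : ∀ k, L.aff k x ≤ L.aff n x) : L.A x = L.aff n x :=
  le_antisymm (ciSup_le h) (L.aff_le_A n x)

lemma exists_A_eq (x : ℝ) : ∃ n, (n = 0 ∨ L.X n ≤ x) ∧ x < L.X (n + 1) ∧ L.A x = L.aff n x := by
  obtain ⟨n, h1, h2⟩ := L.exists_cell x
  exact ⟨n, h1, h2, L.A_eq (L.aff_max h1 h2.le)⟩

lemma A_eq_aff_iff {n : ℕ} {x : ℝ} (hx : 0 ≤ x) :
    L.A x = L.aff n x ↔ L.X n ≤ x ∧ x ≤ L.X (n + 1) := by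
  constructor
  · intro h
    have h1 := L.aff_le_A (n + 1) x
    constructor
    · rcases n with _ | n
      · rw [L.X_zero]; exact hx
      · have h2 := L.aff_le_A n x
        have h3 := L.aff_succ_sub n x
        have h4 := L.slope_pos n
        by_contra hcon
        have : (L.m (n + 1) - L.m n) * (x - L.X (n + 1)) < 0 :=
          mul_neg_of_pos_of_neg h4 (by linarith [not_le.mp hcon])
        linarith
    · have h3 := L.aff_succ_sub n x
      have h4 := L.slope_pos n
      by_contra hcon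
      have : 0 < (L.m (n + 1) - L.m n) * (x - L.X (n + 1)) :=
        mul_pos h4 (by linarith [not_le.mp hcon])
      linarith
  · rintro ⟨h1, h2⟩
    exact L.A_eq (L.aff_max (Or.inr h1) h2)

lemma continuous_A : Continuous L.A := by
  have hconv : ConvexOn ℝ univ L.A := by
    refine ⟨convex_univ, fun x _ y _ a b ha hb hab => ?_⟩
    obtain ⟨n, -, -, hn⟩ := L.exists_A_eq (a • x + b • y)
    rw [hn]
    have h1 := L.aff_le_A n x
    have h2 := L.aff_le_A n y
    have h3 : L.aff n (a • x + b • y) = a * L.aff n x + b * L.aff n y := by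
      unfold aff
      simp only [smul_eq_mul]
      linear_combination (-L.b n) * hab
    rw [h3]
    simp only [smul_eq_mul]
    exact add_le_add (mul_le_mul_of_nonneg_left h1 ha) (mul_le_mul_of_nonneg_left h2 hb)
  exact continuousOn_univ.mp (hconv.continuousOn isOpen_univ)

/-- The order isomorphism which is `X n` at `n`. -/
lemma exists_iso : ∃ e : ℝ ≃o ℝ, ∀ n : ℕ, e n = L.X n := by
  classical
  set f : ℝ → ℝ := fun t => if t < 0 then t else
    L.X ⌊t⌋₊ + (t - ⌊t⌋₊) * (L.X (⌊t⌋₊ + 1) - L.X ⌊t⌋₊) with hf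
  have hstep : ∀ n, 0 < L.X (n + 1) - L.X n := fun n => by
    have := L.X_mono (Nat.lt_succ_self n)
    simp only [Nat.succ_eq_add_one] at this
    linarith
  have hval : ∀ t, 0 ≤ t → L.X ⌊t⌋₊ ≤ f t ∧ f t < L.X (⌊t⌋₊ + 1) := by
    intro t ht
    have h1 : (⌊t⌋₊ : ℝ) ≤ t := Nat.floor_le ht
    have h2 : t < ⌊t⌋₊ + 1 := Nat.lt_floor_add_one t
    have h3 := hstep ⌊t⌋₊
    simp only [hf, not_lt.mpr ht, if_false]
    constructor
    · have : 0 ≤ (t - ⌊t⌋₊) * (L.X (⌊t⌋₊ + 1) - L.X ⌊t⌋₊) := mul_nonneg (by linarith) h3.le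
      linarith
    · have : (t - ⌊t⌋₊) * (L.X (⌊t⌋₊ + 1) - L.X ⌊t⌋₊) < 1 * (L.X (⌊t⌋₊ + 1) - L.X ⌊t⌋₊) :=
        mul_lt_mul_of_pos_right (by linarith) h3
      linarith
  have hmono : StrictMono f := by
    intro s t hst
    rcases lt_or_ge s 0 with hs | hs
    · rcases lt_or_ge t 0 with ht | ht
      · simp only [hf, hs, ht, if_true]; exact hst
      · have h1 := (hval t ht).1
        have h2 : 0 ≤ L.X ⌊t⌋₊ := by
          rw [← L.X_zero]; exact L.X_mono.monotone (Nat.zero_le _)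
        have h3 : f s = s := by simp only [hf, hs, if_true]
        rw [h3]; linarith
    · have ht : 0 ≤ t := hs.trans hst.le
      rcases (Nat.floor_mono hst.le).lt_or_eq with h | h
      · have h1 := (hval s hs).2
        have h2 := (hval t ht).1
        have h3 : L.X (⌊s⌋₊ + 1) ≤ L.X ⌊t⌋₊ := L.X_mono.monotone h
        linarith
      · simp only [hf, not_lt.mpr hs, not_lt.mpr ht, if_false, ← h]
        have h3 := hstep ⌊s⌋₊
        have : (s - ⌊s⌋₊) * (L.X (⌊s⌋₊ + 1) - L.X ⌊s⌋₊) <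
            (t - ⌊s⌋₊) * (L.X (⌊s⌋₊ + 1) - L.X ⌊s⌋₊) :=
          mul_lt_mul_of_pos_right (by linarith) h3
        linarith
  have hsurj : Function.Surjective f := by
    intro y
    rcases lt_or_ge y 0 with hy | hy
    · exact ⟨y, by simp only [hf, hy, if_true]⟩
    · obtain ⟨n, h1, h2⟩ := L.exists_cell y
      have h1' : L.X n ≤ y := by
        rcases h1 with rfl | h1
        · rw [L.X_zero]; exact hy
        · exact h1
      have h3 := hstep n
      set s := (y - L.X n) / (L.X (n + 1) - L.X n) with hs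
      have hs0 : 0 ≤ s := div_nonneg (by linarith) h3.le
      have hs1 : s < 1 := by rw [hs, div_lt_one h3]; linarith
      have hfloor : ⌊(n : ℝ) + s⌋₊ = n := by
        rw [Nat.floor_eq_iff (by positivity)]
        constructor <;> linarith
      refine ⟨n + s, ?_⟩
      have h4 : ¬ ((n : ℝ) + s < 0) := not_lt.mpr (by positivity)
      simp only [hf, h4, if_false, hfloor]
      rw [add_sub_cancel_left, hs, div_mul_cancel₀ _ h3.ne']
      ring
  refine ⟨StrictMono.orderIsoOfSurjective f hmono hsurj, fun n => ?_⟩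
  show f n = L.X n
  have h4 : ¬ ((n : ℝ) < 0) := not_lt.mpr (by positivity)
  simp only [hf, h4, if_false, Nat.floor_natCast]
  ring

/-- Matching the break points. -/
lemma exists_match (L L' : Lines) : ∃ h : ℝ ≃o ℝ, ∀ n, h (L.X n) = L'.X n := by
  obtain ⟨e, he⟩ := L.exists_iso
  obtain ⟨e', he'⟩ := L'.exists_iso
  refine ⟨e.symm.trans e', fun n => ?_⟩
  simp only [OrderIso.trans_apply]
  rw [← he n, e.symm_apply_apply, he']

end Lines

end Pool.Agent.Hyp72
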