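import Pool.Agent.Lib_helper72.Hyp.Surf2
import Pool.Agent.Lib_helper72.Hyp.Closed

/-!
# Closed geodesics on the surface and Nielsen convexity
-/

open Metric Set UpperHalfPlane Topology
open scoped MatrixGroups
open Pool.Agent.SimpleSpectrum

noncomputable section

namespace Pool.Agent.Hyp72

namespace Poly

variable {P : Poly}

/-- Arcs in the polygon. -/
lemma exists_arcQ {n m : ℕ} (h : n + 2 ≤ m ∨ m + 2 ≤ n) :
    ∃ (L : ℝ) (l : ℝ → P.Q), 0 < L ∧ Real.cosh L = - bil (P.v n) (P.v m) ∧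
      (∀ s ∈ Icc 0 L, ∀ t ∈ Icc 0 L, dist (l s) (l t) = |s - t|) ∧
      (∀ k, ∀ t ∈ Icc 0 L, F (P.v k) (l t) = (- bil (P.v k) (P.v m) * Real.cosh t
        - bil (P.v k) (P.v n) * Real.cosh (L - t)) / Real.sinh L) := by
  classical
  obtain ⟨L, l, hL, hc, hd, hF⟩ := P.exists_arc h
  have hmem : ∀ t ∈ Icc 0 L, l t ∈ P.carrier := fun t ht k => by
    rw [hF]; exact arc_nonneg hL hc k ht
  refine ⟨L, fun t => if h : l t ∈ P.carrier then ⟨l t, h⟩ else Classical.arbitrary _, hL, hc,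
    fun s hs t ht => ?_, fun k t ht => ?_⟩
  · simp only [hmem s hs, hmem t ht, dif_pos]
    exact hd s t
  · simp only [hmem t ht, dif_pos]
    exact hF k t

/-- Every point of the side `n + 1` is on the arc from the side `n` to the side `n + 2`. -/
lemma mem_arc_of_side {n : ℕ} {L : ℝ} {l : ℝ → P.Q} (hL : 0 < L)
    (hc : Real.cosh L = - bil (P.v n) (P.v (n + 2)))
    (hF : ∀ k, ∀ t ∈ Icc 0 L, F (P.v k) (l t) = (- bil (P.v k) (P.v (n + 2)) * Real.cosh t
        - bil (P.v k) (P.v n) * Real.cosh (L - t)) / Real.sinh L)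
    {q : P.Q} (hq : F (P.v (n + 1)) q = 0) : ∃ t ∈ Icc 0 L, l t = q := by
  -- use an arc in the plane
  obtain ⟨L', l', hL', hc', hd', hF'⟩ := P.exists_arc (n := n) (m := n + 2) (by omega)
  have hLL : L' = L := by
    have h1 : Real.cosh L' = Real.cosh L := by rw [hc, hc']
    exact Real.cosh_strictMonoOn.injOn (mem_Ici.mpr hL'.le) (mem_Ici.mpr hL.le) h1
  subst hLL
  set t := Real.arsinh (F (P.v n) q) with ht
  have hst : Real.sinh t = F (P.v n) q := Real.sinh_arsinh _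
  have ht0 : 0 ≤ t := Real.arsinh_nonneg_iff.mpr (q.2 n)
  have heq : l' t = q := by
    apply eq_of_F_eq (P.unit n) (P.unit (n + 1)) (P.adj n)
    · rw [hF', arc_start hL hc, hst]
    · rw [hF', hq, bil_comm (P.v (n + 1)) (P.v n), P.adj n, P.adj (n + 1)]; simp
  have htL : t ≤ L' := by
    have h2 := q.2 (n + 2)
    rw [← heq, hF', arc_finish hL hc, Real.sinh_nonneg_iff] at h2
    linarith
  refine ⟨t, ⟨ht0, htL⟩, Subtype.ext ?_⟩
  apply eq_of_F_eq (P.unit n) (P.unit (n + 1)) (P.adj n)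
  · rw [hF n t ⟨ht0, htL⟩, arc_start hL hc, hst]
  · rw [hF _ t ⟨ht0, htL⟩, hq, bil_comm (P.v (n + 1)) (P.v n), P.adj n, P.adj (n + 1)]; simp

/-- Near its starting point an arc is orthogonal to the sides. -/
lemma arc_near {n : ℕ} {L : ℝ} {l : ℝ → P.Q} (hL : 0 < L)
    (hd : ∀ s ∈ Icc 0 L, ∀ t ∈ Icc 0 L, dist (l s) (l t) = |s - t|)
    {t0 : ℝ} (ht0 : t0 ∈ Icc 0 L)
    (hF : ∀ t ∈ Icc 0 L, F (P.v n) (l t) = Real.sinh |t - t0|) :
    ∃ ε > 0, ∀ s ∈ Icc 0 L, |s - t0| < ε → ∀ b : P.Q, (∃ k, k % 2 = n % 2 ∧ F (P.v k) b = 0) →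
      |s - t0| ≤ dist (l s) b := by
  have hFn : F (P.v n) (l t0) = 0 := by rw [hF t0 ht0]; simp
  obtain ⟨r, hr, hrw⟩ := exists_radius (P := P) (l t0) (l t0).2
  refine ⟨r / 2, by linarith, fun s hs hsr b hb => ?_⟩
  obtain ⟨k, hk, hFk⟩ := hb
  by_cases hkn : k = n
  · subst hkn
    have h1 := F_le_sinh_dist (P.unit k) (z := l s) hFk
    rw [hF s hs] at h1
    exact Real.sinh_le_sinh.mp h1
  · have hne : F (P.v k) (l t0) ≠ 0 := fun h => hkn (active_unique h hFn hk)
    have hb' : (b : ℍ) ∉ ball ((l t0 : P.Q) : ℍ) r := fun hb' => by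
      have := hrw b hb' k hne
      rw [hFk] at this
      exact lt_irrefl _ this
    have h1 : r ≤ dist b (l t0) := not_lt.mp hb'
    have h2 := hd s hs t0 ht0
    have h3 := dist_triangle b (l s) (l t0)
    rw [dist_comm b (l s), h2] at h3
    linarith

lemma arc_hF_start {n m : ℕ} {L : ℝ} {l : ℝ → P.Q} (hL : 0 < L)
    (hc : Real.cosh L = - bil (P.v n) (P.v m))
    (hF : ∀ k, ∀ t ∈ Icc 0 L, F (P.v k) (l t) = (- bil (P.v k) (P.v m) * Real.cosh t
        - bil (P.v k) (P.v n) * Real.cosh (L - t)) / Real.sinh L) :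
    ∀ t ∈ Icc 0 L, F (P.v n) (l t) = Real.sinh |t - 0| := by
  intro t ht
  rw [hF n t ht, arc_start hL hc, sub_zero, abs_of_nonneg ht.1]

lemma arc_hF_finish {n m : ℕ} {L : ℝ} {l : ℝ → P.Q} (hL : 0 < L)
    (hc : Real.cosh L = - bil (P.v n) (P.v m))
    (hF : ∀ k, ∀ t ∈ Icc 0 L, F (P.v k) (l t) = (- bil (P.v k) (P.v m) * Real.cosh t
        - bil (P.v k) (P.v n) * Real.cosh (L - t)) / Real.sinh L) :
    ∀ t ∈ Icc 0 L, F (P.v m) (l t) = Real.sinh |t - L| := by
  intro t ht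
  rw [hF m t ht, arc_finish hL hc, abs_sub_comm, abs_of_nonneg (by linarith [ht.2])]

/-- Closed geodesics crossing two even sides. -/
theorem closedS {n m : ℕ} (h : n + 2 ≤ m ∨ m + 2 ≤ n) (hn : n % 2 = 0) (hm : m % 2 = 0)
    {L : ℝ} {l : ℝ → P.Q} (hL : 0 < L) (hc : Real.cosh L = - bil (P.v n) (P.v m))
    (hd : ∀ s ∈ Icc 0 L, ∀ t ∈ Icc 0 L, dist (l s) (l t) = |s - t|)
    (hF : ∀ k, ∀ t ∈ Icc 0 L, F (P.v k) (l t) = (- bil (P.v k) (P.v m) * Real.cosh t
        - bil (P.v k) (P.v n) * Real.cosh (L - t)) / Real.sinh L) (j : Bool) :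
    ∃ C : Set P.X, IsSimpleClosedGeodesic (2 * L) C ∧ ∀ i, ∀ t ∈ Icc 0 L, P.E i j (l t) ∈ C := by
  have hs := arc_hF_start hL hc hF
  have hf := arc_hF_finish hL hc hF
  obtain ⟨ε1, hε1, hn1⟩ := arc_near (n := n) hL hd ⟨le_rfl, hL.le⟩ hs
  obtain ⟨ε2, hε2, hn2⟩ := arc_near (n := m) hL hd ⟨hL.le, le_rfl⟩ hf
  have hmain := isSimpleClosedGeodesic_double (B := P.S) isClosed_S hL hd
    ⟨n, hn, by rw [hs 0 ⟨le_rfl, hL.le⟩]; simp⟩ ⟨m, hm, by rw [hf L ⟨hL.le, le_rfl⟩]; simp⟩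
    (fun t ht => by
      rintro ⟨k, hk, hFk⟩
      have ht' : t ∈ Icc 0 L := ⟨ht.1.le, ht.2.le⟩
      rw [hF k t ht'] at hFk
      have := arc_pos hL hc k ht (by
        have hnm := P.far' h
        by_cases hkm : k = m
        · right; rw [hkm, bil_comm]; linarith
        · left
          have : k + 2 ≤ m ∨ m + 2 ≤ k := by omega
          linarith [P.far' this])
      exact this.ne' hFk)
    (lt_min hε1 hε2)
    (fun s hs' hsε b hb => by
      obtain ⟨k, hk, hFk⟩ := hb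
      have := hn1 s hs' (by rw [sub_zero, abs_of_nonneg hs'.1]; exact hsε.trans_le (min_le_left _ _))
        b ⟨k, by omega, hFk⟩
      rwa [sub_zero, abs_of_nonneg hs'.1] at this)
    (fun s hs' hsε b hb => by
      obtain ⟨k, hk, hFk⟩ := hb
      have e : |s - L| = L - s := by rw [abs_sub_comm, abs_of_nonneg (by linarith [hs'.2])]
      have := hn2 s hs' (by rw [e]; exact hsε.trans_le (min_le_right _ _))
        b ⟨k, by omega, hFk⟩
      rwa [e] at this)
  refine ⟨_, IsSimpleClosedGeodesic.image hmain (Double.isometry_mk (B := P.B) j), ?_⟩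
  intro i t ht
  exact ⟨Double.mk P.S i (l t), ⟨i, t, ht, rfl⟩, rfl⟩

/-- Closed geodesics crossing two odd sides. -/
theorem closedB {n m : ℕ} (h : n + 2 ≤ m ∨ m + 2 ≤ n) (hn : n % 2 = 1) (hm : m % 2 = 1)
    (hn3 : 3 ≤ n) (hm3 : 3 ≤ m)
    {L : ℝ} {l : ℝ → P.Q} (hL : 0 < L) (hc : Real.cosh L = - bil (P.v n) (P.v m))
    (hd : ∀ s ∈ Icc 0 L, ∀ t ∈ Icc 0 L, dist (l s) (l t) = |s - t|)
    (hF : ∀ k, ∀ t ∈ Icc 0 L, F (P.v k) (l t) = (- bil (P.v k) (P.v m) * Real.cosh t
        - bil (P.v k) (P.v n) * Real.cosh (L - t)) / Real.sinh L) (i : Bool) :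
    ∃ C : Set P.X, IsSimpleClosedGeodesic (2 * L) C ∧ ∀ j, ∀ t ∈ Icc 0 L, P.E i j (l t) ∈ C := by
  have hs := arc_hF_start hL hc hF
  have hf := arc_hF_finish hL hc hF
  obtain ⟨ε1, hε1, hn1⟩ := arc_near (n := n) hL hd ⟨le_rfl, hL.le⟩ hs
  obtain ⟨ε2, hε2, hn2⟩ := arc_near (n := m) hL hd ⟨hL.le, le_rfl⟩ hf
  have hmain := isSimpleClosedGeodesic_double (B := P.B) isClosed_B
    (l := fun t => Double.mk P.S i (l t)) hL
    (fun s hs t ht => by rw [Double.dist_mk_same]; exact hd s hs t ht)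
    (by rw [mk_mem_B]; exact ⟨n, hn3, hn, by rw [hs 0 ⟨le_rfl, hL.le⟩]; simp⟩)
    (by rw [mk_mem_B]; exact ⟨m, hm3, hm, by rw [hf L ⟨hL.le, le_rfl⟩]; simp⟩)
    (fun t ht => by
      rw [mk_mem_B]
      rintro ⟨k, hk3, hk, hFk⟩
      have ht' : t ∈ Icc 0 L := ⟨ht.1.le, ht.2.le⟩
      rw [hF k t ht'] at hFk
      have := arc_pos hL hc k ht (by
        have hnm := P.far' h
        by_cases hkm : k = m
        · right; rw [hkm, bil_comm]; linarith
        · left
          have : k + 2 ≤ m ∨ m + 2 ≤ k := by omega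
          linarith [P.far' this])
      exact this.ne' hFk)
    (lt_min hε1 hε2)
    (fun s hs' hsε b hb => by
      obtain ⟨i', b', rfl⟩ := Double.exists_rep b
      rw [mk_mem_B] at hb
      obtain ⟨k, hk3, hk, hFk⟩ := hb
      have := hn1 s hs' (by rw [sub_zero, abs_of_nonneg hs'.1]; exact hsε.trans_le (min_le_left _ _))
        b' ⟨k, by omega, hFk⟩
      rw [sub_zero, abs_of_nonneg hs'.1] at this
      exact this.trans (Double.dist_le_dist_mk _ _ _ _))
    (fun s hs' hsε b hb => by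
      obtain ⟨i', b', rfl⟩ := Double.exists_rep b
      rw [mk_mem_B] at hb
      obtain ⟨k, hk3, hk, hFk⟩ := hb
      have e : |s - L| = L - s := by rw [abs_sub_comm, abs_of_nonneg (by linarith [hs'.2])]
      have := hn2 s hs' (by rw [e]; exact hsε.trans_le (min_le_right _ _))
        b' ⟨k, by omega, hFk⟩
      rw [e] at this
      exact this.trans (Double.dist_le_dist_mk _ _ _ _))
  refine ⟨_, hmain, ?_⟩
  intro j t ht
  exact ⟨j, t, ht, rfl⟩

/-- The points over the sides `n = 1` and `n ≥ 3` are on simple closed geodesics. -/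
theorem side_closed {n : ℕ} (hn : n = 1 ∨ 3 ≤ n) {q : P.Q} (hq : F (P.v n) q = 0) (i j : Bool) :
    ∃ ℓ C, IsSimpleClosedGeodesic ℓ C ∧ P.E i j q ∈ C := by
  obtain ⟨n, rfl⟩ : ∃ k, n = k + 1 := ⟨n - 1, by omega⟩
  obtain ⟨L, l, hL, hc, hd, hF⟩ := P.exists_arcQ (n := n) (m := n + 2) (by omega)
  obtain ⟨t, ht, rfl⟩ := mem_arc_of_side hL hc hF hq
  rcases Nat.mod_two_eq_zero_or_one n with h0 | h1
  · obtain ⟨C, hC, hmem⟩ := closedS (n := n) (m := n + 2) (by omega) h0 (by omega) hL hc hd hF j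
    exact ⟨_, C, hC, hmem i t ht⟩
  · obtain ⟨C, hC, hmem⟩ := closedB (n := n) (m := n + 2) (by omega) h1 (by omega) (by omega)
      (by omega) hL hc hd hF i
    exact ⟨_, C, hC, hmem j t ht⟩

/-- The line through `q` orthogonal to the side `1`. -/
lemma exists_ray (q : P.Q) : ∃ (s : ℝ) (l : ℝ → ℍ), 0 ≤ s ∧ Real.sinh s = F (P.v 1) q ∧
    l s = q ∧ (∀ s t, dist (l s) (l t) = |s - t|) ∧
    (∀ k t, F (P.v k) (l t) = Real.cosh t * F (P.v k) (l 0) + Real.sinh t * bil (P.v k) (P.v 1)) ∧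
    l 0 ∈ P.carrier ∧ F (P.v 1) (l 0) = 0 ∧
    F (P.v 0) q = Real.cosh s * F (P.v 0) (l 0) := by
  set s := Real.arsinh (F (P.v 1) q) with hs
  have hss : Real.sinh s = F (P.v 1) q := Real.sinh_arsinh _
  have hs0 : 0 ≤ s := Real.arsinh_nonneg_iff.mpr (q.2 1)
  have hc := Real.cosh_pos s
  have hsq := Real.cosh_sq s
  have hb : bil (P.v 1) (iota q) = - Real.sinh s := by rw [hss]; simp [F]
  set p : V := (Real.cosh s)⁻¹ • (iota q + Real.sinh s • P.v 1) with hp
  have hpp : bil p p = -1 := by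
    simp only [hp, bil_smul_left, bil_smul_right, bil_add_left, bil_add_right, P.unit,
      bil_iota_self, bil_comm (iota q) (P.v 1), hb]
    field_simp
    nlinarith
  have hp1 : 0 < p.1 := by
    simp only [hp, Prod.smul_fst, Prod.fst_add, smul_eq_mul]
    have h1 := iota_fst_pos q
    have h2 := P.fst_nonneg 1
    have h3 : 0 ≤ Real.sinh s := Real.sinh_nonneg_iff.mpr hs0
    positivity
  obtain ⟨z, hz⟩ := exists_iota hpp hp1
  have hN : bil (-(P.v 1)) (-(P.v 1)) = 1 := by rw [bil_neg_left, bil_neg_right, neg_neg, P.unit]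
  have hFz1 : F (P.v 1) z = 0 := by
    simp only [F, hz, hp, bil_smul_right, bil_add_right, P.unit, hb]
    ring
  have hFz : F (-(P.v 1)) z = 0 := by
    have : F (-(P.v 1)) z = - F (P.v 1) z := by simp only [F, bil_neg_left]
    rw [this, hFz1, neg_zero]
  obtain ⟨l, hl⟩ := exists_line z hN hFz
  have hl0 : l 0 = z := by apply iota_injective; rw [hl]; simp
  have hFk : ∀ k, F (P.v k) z = (Real.cosh s)⁻¹ * (F (P.v k) q - Real.sinh s * bil (P.v k) (P.v 1)) := by
    intro k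
    simp only [F, hz, hp, bil_smul_right, bil_add_right]
    ring
  refine ⟨s, l, hs0, hss, ?_, dist_line hN hFz hl, fun k t => ?_, ?_, ?_, ?_⟩
  · apply iota_injective
    rw [hl, hz, hp, smul_smul, mul_inv_cancel₀ hc.ne', one_smul, smul_neg]
    abel
  · rw [F_line hl, hl0, bil_neg_right]; ring
  · rw [hl0]
    intro k
    rw [hFk]
    by_cases hk : k = 1
    · subst hk
      rw [hss, P.unit]; simp
    · have h1 := P.bil_nonpos hk
      have h3 : 0 ≤ Real.sinh s := Real.sinh_nonneg_iff.mpr hs0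
      have h4 := q.2 k
      have h5 : 0 ≤ Real.sinh s * (- bil (P.v k) (P.v 1)) := mul_nonneg h3 (by linarith)
      apply mul_nonneg (inv_nonneg.mpr hc.le)
      linarith
  · rw [hl0, hFz1]
  · rw [hl0, hFk, P.adj 0]
    field_simp
    ring

/-- Convexity along the ray. -/
lemma ray_mem {l : ℝ → ℍ}
    (hF : ∀ k t, F (P.v k) (l t) = Real.cosh t * F (P.v k) (l 0) + Real.sinh t * bil (P.v k) (P.v 1))
    (h0 : l 0 ∈ P.carrier) {T : ℝ} (hT : 0 < T) (hlT : l T ∈ P.carrier) {t : ℝ}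
    (ht : t ∈ Icc 0 T) : l t ∈ P.carrier := by
  intro k
  have hs : 0 < Real.sinh T := Real.sinh_pos_iff.mpr hT
  have h1 : Real.sinh T * F (P.v k) (l t) =
      Real.sinh (T - t) * F (P.v k) (l 0) + Real.sinh t * F (P.v k) (l T) := by
    rw [hF k t, hF k T, Real.sinh_sub]; ring
  have h2 : 0 ≤ Real.sinh (T - t) := Real.sinh_nonneg_iff.mpr (by linarith [ht.2])
  have h3 : 0 ≤ Real.sinh t := Real.sinh_nonneg_iff.mpr ht.1
  have h4 : 0 ≤ Real.sinh T * F (P.v k) (l t) := by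
    rw [h1]
    exact add_nonneg (mul_nonneg h2 (h0 k)) (mul_nonneg h3 (hlT k))
  exact nonneg_of_mul_nonneg_right h4 hs

/-- Every point of the polygon is on a segment from the side `1` to another closed geodesic. -/
lemma exists_good_time (q : P.Q) {s : ℝ} {l : ℝ → ℍ} (hs0 : 0 ≤ s)
    (hss : Real.sinh s = F (P.v 1) q) (hls : l s = q)
    (hd : ∀ s t, dist (l s) (l t) = |s - t|)
    (hF : ∀ k t, F (P.v k) (l t) = Real.cosh t * F (P.v k) (l 0) + Real.sinh t * bil (P.v k) (P.v 1))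
    (h0 : l 0 ∈ P.carrier) (h1 : F (P.v 1) (l 0) = 0)
    (hF0 : F (P.v 0) q = Real.cosh s * F (P.v 0) (l 0)) :
    ∃ T, 0 < T ∧ s ≤ T ∧ ∃ hT : l T ∈ P.carrier, ∀ i j, ∃ ℓ C, IsSimpleClosedGeodesic ℓ C ∧
      P.E i j ⟨l T, hT⟩ ∈ C := by
  have hb0 : bil (P.v 0) (P.v 1) = 0 := P.adj 0
  have hb2 : bil (P.v 2) (P.v 1) = 0 := by rw [bil_comm]; exact P.adj 1
  have hcont : Continuous l := continuous_of_dist hd
  rcases (h0 0).lt_or_eq with hpos | hzero
  · -- the ray exits through a side `n ≥ 3`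
    obtain ⟨n, hn3, hn⟩ := P.exits (l 0) h1 hpos (h0 2)
    have hbn : bil (P.v n) (P.v 1) < 0 := by
      have := P.far' (n := n) (m := 1) (by omega); linarith
    -- a time outside
    obtain ⟨T0, hT0s, hT0⟩ : ∃ T0, s < T0 ∧ F (P.v n) (l T0) < 0 := by
      set A := F (P.v n) (l 0) + bil (P.v n) (P.v 1) with hA
      set b := bil (P.v n) (P.v 1) with hb
      set T0 := max (s + 1) (b / A + 1) with hT0
      have hge1 : s + 1 ≤ T0 := le_max_left _ _
      have hge2 : b / A + 1 ≤ T0 := le_max_right _ _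
      refine ⟨T0, by linarith, ?_⟩
      rw [hF]
      have hcosh : T0 < Real.cosh T0 := by
        have h2 := Real.cosh_eq T0
        have h3 := Real.exp_pos (-T0)
        have h4 : T0 ^ 2 / 2 + T0 + 1 ≤ Real.exp T0 := by
          have := Real.quadratic_le_exp_of_nonneg (x := T0) (by linarith)
          linarith
        rw [h2]
        nlinarith [sq_nonneg (T0 - 1)]
      have hsc : Real.sinh T0 = Real.cosh T0 - Real.exp (-T0) := by
        rw [Real.sinh_eq, Real.cosh_eq]; ring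
      have hexp : Real.exp (-T0) ≤ 1 := Real.exp_le_one_iff.mpr (by linarith)
      have hexp0 := Real.exp_pos (-T0)
      have h5 : Real.cosh T0 * F (P.v n) (l 0) + Real.sinh T0 * b =
          Real.cosh T0 * A - Real.exp (-T0) * b := by rw [hsc, hA]; ring
      rw [h5]
      have h6 : Real.cosh T0 * A < b := by
        have h7 : b / A < Real.cosh T0 := by linarith
        rw [div_lt_iff_of_neg hn] at h7
        exact h7
      nlinarith
    -- the exit time
    set K := {t ∈ Icc s T0 | l t ∈ P.carrier} with hK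
    have hKc : IsCompact K := by
      have : IsClosed K := isClosed_Icc.inter (isClosed_carrier.preimage hcont)
      exact isCompact_Icc.of_isClosed_subset this (fun t ht => ht.1)
    have hKne : K.Nonempty := ⟨s, ⟨⟨le_rfl, hT0s.le⟩, by rw [hls]; exact q.2⟩⟩
    have hTmem := hKc.sSup_mem hKne
    set T := sSup K with hT
    have hTmax : ∀ t ∈ K, t ≤ T := fun t ht => le_csSup hKc.bddAbove ht
    have hTlt : T < T0 := by
      refine lt_of_le_of_ne hTmem.1.2 (fun h => ?_)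
      have := hTmem.2 n
      rw [h] at this
      linarith
    obtain ⟨m, hm3, hm⟩ : ∃ m, 3 ≤ m ∧ F (P.v m) (l T) = 0 := by
      by_contra hcon
      push Not at hcon
      obtain ⟨r, hr, hrw⟩ := exists_radius (P := P) (l T) hTmem.2
      set t := min (T + r / 2) T0 with ht
      have htT : T < t := lt_min (by linarith) hTlt
      have htr : t - T ≤ r / 2 := by
        have := min_le_left (T + r / 2) T0
        linarith
      have ht0 : 0 ≤ t := by linarith [hTmem.1.1]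
      have htK : t ∈ K := by
        refine ⟨⟨by linarith [hTmem.1.1], min_le_right _ _⟩, fun k => ?_⟩
        by_cases hk : F (P.v k) (l T) = 0
        · have hk3 : k < 3 := by
            by_contra h3
            exact hcon k (not_lt.mp h3) hk
          have hc := Real.cosh_pos t
          have hsn : 0 ≤ Real.sinh t := Real.sinh_nonneg_iff.mpr ht0
          rw [hF]
          interval_cases k
          · rw [hb0, mul_zero, add_zero]; exact mul_nonneg hc.le (h0 0)
          · rw [h1, P.unit, mul_zero, zero_add, mul_one]; exact hsn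
          · rw [hb2, mul_zero, add_zero]; exact mul_nonneg hc.le (h0 2)
        · exact (hrw (l t) (by
            rw [mem_ball, hd, abs_of_pos (by linarith)]; linarith) k hk).le
      exact absurd (hTmax t htK) (not_le.mpr htT)
    have hTs : s ≤ T := hTmem.1.1
    refine ⟨T, ?_, hTs, hTmem.2, fun i j => side_closed (Or.inr hm3) hm i j⟩
    refine lt_of_le_of_ne (hs0.trans hTs) (fun h => ?_)
    rw [← h] at hm
    have := active_adj hm h1
    omega
  · -- the ray runs in the side `0`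
    obtain ⟨n, hn4, hn0, hn⟩ := P.tall (Real.sinh s + 1)
    obtain ⟨L, l', hL, hc, hd', hF'⟩ := P.exists_arcQ (n := 0) (m := n) (by omega)
    have h00 : (0 : ℝ) ∈ Icc 0 L := ⟨le_rfl, hL.le⟩
    have hsL : 0 < Real.sinh L := Real.sinh_pos_iff.mpr hL
    have e0 : F (P.v 0) (l' 0) = 0 := by
      rw [hF' 0 0 h00, arc_start hL hc, Real.sinh_zero]
    have e1 : F (P.v 1) (l' 0) = - bil (P.v 1) (P.v n) / Real.sinh L := by
      rw [hF' 1 0 h00, bil_comm (P.v 1) (P.v 0), P.adj 0, Real.cosh_zero]; ring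
    set T := Real.arsinh (F (P.v 1) (l' 0)) with hT
    have hsT : Real.sinh T = F (P.v 1) (l' 0) := Real.sinh_arsinh _
    have hlT : l T = l' 0 := by
      apply eq_of_F_eq (P.unit 0) (P.unit 1) (P.adj 0)
      · rw [hF, ← hzero, hb0, e0]; ring
      · rw [hF, h1, P.unit, hsT]; ring
    have hTs : s < T := by
      rw [← Real.sinh_lt_sinh, hsT, e1]
      have h2 : Real.sinh L < Real.cosh L := by
        have := Real.cosh_sub_sinh L
        have := Real.exp_pos (-L)
        linarith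
      have h3 : 0 ≤ Real.sinh s := Real.sinh_nonneg_iff.mpr hs0
      rw [lt_div_iff₀ hsL]
      have h4 : (Real.sinh s + 1) * Real.cosh L ≤ - bil (P.v 1) (P.v n) := by
        rw [hc]; linarith
      nlinarith
    have hmem : l T ∈ P.carrier := by rw [hlT]; exact (l' 0).2
    refine ⟨T, by linarith, hTs.le, hmem, fun i j => ?_⟩
    obtain ⟨C, hC, hCm⟩ := closedS (n := 0) (m := n) (by omega) rfl hn0 hL hc hd' hF' j
    refine ⟨_, C, hC, ?_⟩
    have : (⟨l T, hmem⟩ : P.Q) = l' 0 := Subtype.ext hlT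
    rw [this]
    exact hCm i 0 h00

theorem nielsenConvex (P : Poly) : NielsenConvex P.X := by
  classical
  intro x
  obtain ⟨i, j, q, rfl⟩ := exists_rep x
  obtain ⟨s, l, hs0, hss, hls, hd, hF, h0, h1, hF0⟩ := P.exists_ray q
  obtain ⟨T, hT0, hsT, hTm, hclosed⟩ := exists_good_time q hs0 hss hls hd hF h0 h1 hF0
  have hmem : ∀ t ∈ Icc 0 T, l t ∈ P.carrier := fun t ht => ray_mem hF h0 hT0 hTm ht
  set γ : ℝ → P.X := fun t => if h : l t ∈ P.carrier then P.E i j ⟨l t, h⟩ else P.E i j q with hγ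
  have hγt : ∀ t (h : l t ∈ P.carrier), γ t = P.E i j ⟨l t, h⟩ := fun t h => by
    simp only [hγ, h, dif_pos]
  refine ⟨γ, 0, T, hT0, ?_, ?_, ?_, ?_⟩
  · intro t ht
    refine ⟨1, one_pos, fun a ha b hb _ _ => ?_⟩
    rw [hγt a (hmem a ha), hγt b (hmem b hb), dist_E]
    exact hd a b
  · refine ⟨s, ⟨hs0, hsT⟩, ?_⟩
    rw [hγt s (hmem s ⟨hs0, hsT⟩)]
    congr 1
    exact Subtype.ext hls
  · rw [hγt 0 h0]
    exact side_closed (n := 1) (Or.inl rfl) h1 i j
  · rw [hγt T hTm]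
    exact hclosed i j

end Poly

end Pool.Agent.Hyp72
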