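import Mathlib

/-!
# The hyperbolic plane in hyperboloid coordinates

Tools on the upper half-plane `ℍ` (with Mathlib's metric), used for the construction of surfaces.
-/

open Metric Set UpperHalfPlane
open scoped MatrixGroups

noncomputable section

namespace Pool.Agent.Hyp72

/-- Minkowski space: symmetric `2 × 2` matrices `(a, b, c)`. -/
abbrev V : Type := ℝ × ℝ × ℝ

/-- The Minkowski form of signature `(2, 1)`. -/
def bil (v w : V) : ℝ := v.2.1 * w.2.1 - (v.1 * w.2.2 + v.2.2 * w.1) / 2

/-- The hyperboloid model of `ℍ`. -/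
def iota (z : ℍ) : V := (1 / z.im, z.re / z.im, (z.re ^ 2 + z.im ^ 2) / z.im)

/-- The signed (sinh of) distance to the geodesic orthogonal to `v`. -/
def F (v : V) (z : ℍ) : ℝ := - bil v (iota z)

lemma bil_comm (v w : V) : bil v w = bil w v := by
  unfold bil; ring

lemma bil_add_left (u v w : V) : bil (u + v) w = bil u w + bil v w := by
  simp only [bil, Prod.fst_add, Prod.snd_add]; ring

lemma bil_smul_left (c : ℝ) (v w : V) : bil (c • v) w = c * bil v w := by
  simp only [bil, Prod.smul_fst, Prod.smul_snd, smul_eq_mul]; ring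

lemma bil_add_right (u v w : V) : bil u (v + w) = bil u v + bil u w := by
  rw [bil_comm, bil_add_left, bil_comm v u, bil_comm w u]

lemma bil_smul_right (c : ℝ) (v w : V) : bil v (c • w) = c * bil v w := by
  rw [bil_comm, bil_smul_left, bil_comm]

lemma bil_sub_left (u v w : V) : bil (u - v) w = bil u w - bil v w := by
  simp only [bil, Prod.fst_sub, Prod.snd_sub]; ring

lemma bil_sub_right (u v w : V) : bil u (v - w) = bil u v - bil u w := by
  rw [bil_comm, bil_sub_left, bil_comm v u, bil_comm w u]

lemma bil_neg_left (v w : V) : bil (-v) w = - bil v w := by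
  simp only [bil, Prod.fst_neg, Prod.snd_neg]; ring

lemma bil_neg_right (v w : V) : bil v (-w) = - bil v w := by
  rw [bil_comm, bil_neg_left, bil_comm]

lemma iota_fst_pos (z : ℍ) : 0 < (iota z).1 := by
  simp only [iota]; exact one_div_pos.mpr z.im_pos

lemma bil_iota_self (z : ℍ) : bil (iota z) (iota z) = -1 := by
  have := z.im_ne_zero
  simp only [bil, iota]; field_simp; ring

lemma cosh_dist_eq (z w : ℍ) : Real.cosh (dist z w) = - bil (iota z) (iota w) := by
  rw [cosh_dist']
  have := z.im_ne_zero
  have := w.im_ne_zero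
  simp only [bil, iota]; field_simp; ring

lemma iota_injective : Function.Injective iota := by
  intro z w h
  have h1 : 1 / z.im = 1 / w.im := congrArg Prod.fst h
  have h2 : z.re / z.im = w.re / w.im := congrArg (fun v : V => v.2.1) h
  have him : z.im = w.im := by
    have := z.im_ne_zero
    have := w.im_ne_zero
    field_simp at h1; exact h1.symm
  have hre : z.re = w.re := by
    rw [him] at h2
    have := w.im_ne_zero
    field_simp at h2; exact h2
  exact UpperHalfPlane.ext_re_im hre him

lemma exists_iota {v : V} (hv : bil v v = -1) (ha : 0 < v.1) : ∃ z : ℍ, iota z = v := by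
  obtain ⟨a, b, c⟩ := v
  simp only at ha
  have hc : a * c = b ^ 2 + 1 := by
    simp only [bil] at hv; linarith
  refine ⟨⟨⟨b / a, 1 / a⟩, by simpa using ha⟩, ?_⟩
  have ha' := ha.ne'
  have e1 : (⟨⟨b / a, 1 / a⟩, by simpa using ha⟩ : ℍ).im = 1 / a := rfl
  have e2 : (⟨⟨b / a, 1 / a⟩, by simpa using ha⟩ : ℍ).re = b / a := rfl
  simp only [iota, e1, e2]
  refine Prod.ext ?_ (Prod.ext ?_ ?_)
  · simp
  · simp only; field_simp
  · simp only; field_simp; linarith

/-- Two timelike unit vectors with negative product are in the same sheet. -/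
lemma fst_pos_of_bil_neg {v : V} (hv : bil v v = -1) {z : ℍ} (h : bil v (iota z) < 0) :
    0 < v.1 := by
  by_contra hcon
  have ha : v.1 ≤ 0 := not_lt.mp hcon
  obtain ⟨a, b, c⟩ := v
  simp only at ha
  have hc : a * c = b ^ 2 + 1 := by simp only [bil] at hv; linarith
  have ha' : a < 0 := by
    rcases ha.lt_or_eq with h' | h'
    · exact h'
    · rw [h'] at hc; nlinarith [sq_nonneg b]
  -- pass to `-v`
  have hpos : 0 < (-(a, b, c) : V).1 := by simpa using ha'
  have hv' : bil (-(a, b, c) : V) (-(a, b, c)) = -1 := by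
    rw [bil_neg_left, bil_neg_right, neg_neg]; exact hv
  obtain ⟨w, hw⟩ := exists_iota hv' hpos
  have := cosh_dist_eq w z
  rw [hw, bil_neg_left, neg_neg] at this
  have h1 := Real.one_le_cosh (dist w z)
  linarith

lemma F_add (u v : V) (z : ℍ) : F (u + v) z = F u z + F v z := by
  simp only [F, bil_add_left]; ring

lemma F_smul (c : ℝ) (v : V) (z : ℍ) : F (c • v) z = c * F v z := by
  simp only [F, bil_smul_left]; ring

lemma continuous_iota : Continuous iota := by
  unfold iota
  have h1 : Continuous fun z : ℍ => z.im := UpperHalfPlane.continuous_im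
  have h2 : Continuous fun z : ℍ => z.re := UpperHalfPlane.continuous_re
  refine Continuous.prodMk ?_ (Continuous.prodMk ?_ ?_)
  · exact continuous_const.div h1 fun z => z.im_ne_zero
  · exact h2.div h1 fun z => z.im_ne_zero
  · exact ((h2.pow 2).add (h1.pow 2)).div h1 fun z => z.im_ne_zero

lemma continuous_F (v : V) : Continuous (F v) := by
  have h := continuous_iota
  have h1 : Continuous fun z => (iota z).1 := h.fst
  have h2 : Continuous fun z => (iota z).2.1 := h.snd.fst
  have h3 : Continuous fun z => (iota z).2.2 := h.snd.snd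
  unfold F bil
  exact ((continuous_const.mul h2).sub
    (((continuous_const.mul h3).add (continuous_const.mul h1)).div_const 2)).neg

/-- If two unit spacelike vectors are both orthogonal to a point, then their product has absolute
value at most `1`. -/
lemma bil_ge_neg_one {v w : V} (hv : bil v v = 1) (hw : bil w w = 1) {z : ℍ}
    (hvz : F v z = 0) (hwz : F w z = 0) : -1 ≤ bil v w := by
  -- `v + w` is orthogonal to the timelike vector `iota z`, so it is spacelike
  have key : ∀ u : V, bil u (iota z) = 0 → 0 ≤ bil u u := by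
    intro u hu
    obtain ⟨a, b, c⟩ := u
    set p := iota z with hp
    have hp1 : 0 < p.1 := iota_fst_pos z
    have hpp : bil p p = -1 := bil_iota_self z
    obtain ⟨x, y, t⟩ := p
    simp only [bil] at hu hpp ⊢
    simp only at hp1
    -- x t = y^2 + 1, b y = (a t + c x)/2
    have hxt : x * t = y ^ 2 + 1 := by linarith
    have hcx : c * x = 2 * b * y - a * t := by linarith
    have : x ^ 2 * (b * b - (a * c + c * a) / 2) = (b * x - a * y) ^ 2 + a ^ 2 := by
      have e1 : x ^ 2 * (b * b - (a * c + c * a) / 2) = (b * x) ^ 2 - a * x * (c * x) := by ring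
      rw [e1, hcx]
      have e2 : a * x * (2 * b * y - a * t) = 2 * a * b * x * y - a ^ 2 * (x * t) := by ring
      rw [e2, hxt]; ring
    have h3 : 0 ≤ x ^ 2 * (b * b - (a * c + c * a) / 2) := by rw [this]; positivity
    exact nonneg_of_mul_nonneg_right h3 (by positivity)
  have h := key (v + w) (by
    rw [bil_add_left]; simp only [F] at hvz hwz; linarith)
  rw [bil_add_left, bil_add_right, bil_add_right, hv, hw, bil_comm w v] at h
  linarith


/-- The unit-speed geodesic line through `p` in the direction `N`. -/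
lemma exists_line (p : ℍ) {N : V} (hN : bil N N = 1) (hpN : F N p = 0) :
    ∃ l : ℝ → ℍ, ∀ t, iota (l t) = Real.cosh t • iota p + Real.sinh t • N := by
  have hpN' : bil N (iota p) = 0 := by simpa [F] using hpN
  have key : ∀ t : ℝ, ∃ z : ℍ, iota z = Real.cosh t • iota p + Real.sinh t • N := by
    intro t
    have h1 : bil (Real.cosh t • iota p + Real.sinh t • N)
        (Real.cosh t • iota p + Real.sinh t • N) = -1 := by
      simp only [bil_add_left, bil_add_right, bil_smul_left, bil_smul_right, bil_iota_self,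
        bil_comm (iota p) N, hpN', hN]
      have := Real.cosh_sq t
      nlinarith
    refine exists_iota h1 (fst_pos_of_bil_neg h1 (z := p) ?_)
    rw [bil_add_left, bil_smul_left, bil_smul_left, hpN', bil_iota_self]
    have := Real.cosh_pos t
    linarith
  choose l hl using key
  exact ⟨l, hl⟩

lemma dist_line {p : ℍ} {N : V} (hN : bil N N = 1) (hpN : F N p = 0) {l : ℝ → ℍ}
    (hl : ∀ t, iota (l t) = Real.cosh t • iota p + Real.sinh t • N) (s t : ℝ) :
    dist (l s) (l t) = |s - t| := by
  have hpN' : bil N (iota p) = 0 := by simpa [F] using hpN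
  have h : Real.cosh (dist (l s) (l t)) = Real.cosh |s - t| := by
    rw [cosh_dist_eq, hl, hl, Real.cosh_abs, Real.cosh_sub]
    simp only [bil_add_left, bil_add_right, bil_smul_left, bil_smul_right, bil_iota_self,
      bil_comm (iota p) N, hpN', hN]
    ring
  exact Real.cosh_strictMonoOn.injOn (mem_Ici.mpr dist_nonneg) (mem_Ici.mpr (abs_nonneg _)) h

lemma F_line {p : ℍ} {N : V} {l : ℝ → ℍ}
    (hl : ∀ t, iota (l t) = Real.cosh t • iota p + Real.sinh t • N) (v : V) (t : ℝ) :
    F v (l t) = Real.cosh t * F v p - Real.sinh t * bil v N := by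
  simp only [F, hl, bil_add_right, bil_smul_right]; ring

lemma continuous_of_dist {l : ℝ → ℍ} (h : ∀ s t, dist (l s) (l t) = |s - t|) : Continuous l := by
  have : Isometry l := Isometry.of_dist_eq fun s t => by rw [h, Real.dist_eq]
  exact this.continuous

/-- Any two points are joined by a geodesic segment; along it every `F v` is a positive
combination of its values at the end points. -/
lemma exists_segment (p q : ℍ) : ∃ l : ℝ → ℍ, l 0 = p ∧ l (dist p q) = q ∧
    (∀ s t, dist (l s) (l t) = |s - t|) ∧
    (∀ v t, Real.sinh (dist p q) * F v (l t) =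
      Real.sinh (dist p q - t) * F v p + Real.sinh t * F v q) := by
  rcases eq_or_ne p q with rfl | hne
  · -- any line through `p`
    obtain ⟨N, hN, hpN⟩ : ∃ N : V, bil N N = 1 ∧ F N p = 0 := by
      refine ⟨(0, 1, 2 * p.re), by simp [bil], ?_⟩
      have := p.im_ne_zero
      simp only [F, bil, iota]; field_simp; ring
    obtain ⟨l, hl⟩ := exists_line p hN hpN
    refine ⟨l, ?_, ?_, dist_line hN hpN hl, ?_⟩
    · apply iota_injective; rw [hl]; simp
    · apply iota_injective; rw [hl]; simp
    · intro v t; simp [Real.sinh_neg]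
  · have hd : 0 < dist p q := dist_pos.mpr hne
    set d := dist p q with hd_def
    have hs : 0 < Real.sinh d := Real.sinh_pos_iff.mpr hd
    have hc : bil (iota p) (iota q) = - Real.cosh d := by rw [hd_def, cosh_dist_eq]; ring
    set N : V := (Real.sinh d)⁻¹ • (iota q - Real.cosh d • iota p) with hNdef
    have hsq := Real.cosh_sq d
    have hN : bil N N = 1 := by
      simp only [hNdef, bil_smul_left, bil_smul_right, bil_sub_left, bil_sub_right,
        bil_iota_self, hc, bil_comm (iota q) (iota p)]
      field_simp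
      nlinarith
    have hpN : F N p = 0 := by
      simp only [F, hNdef, bil_smul_left, bil_sub_left, bil_iota_self, hc,
        bil_comm (iota q) (iota p)]
      ring
    obtain ⟨l, hl⟩ := exists_line p hN hpN
    refine ⟨l, ?_, ?_, dist_line hN hpN hl, ?_⟩
    · apply iota_injective; rw [hl]; simp
    · apply iota_injective; rw [hl, hNdef, smul_smul, mul_inv_cancel₀ hs.ne', one_smul]
      abel
    · intro v t
      rw [F_line hl]
      have : bil v N = (Real.sinh d)⁻¹ * (- F v q + Real.cosh d * F v p) := by
        simp only [hNdef, bil_smul_right, bil_sub_right, F]; ring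
      rw [this, Real.sinh_sub]
      field_simp
      ring

/-- crossing lemma -/
lemma exists_cross (v : V) (p q : ℍ) (hp : 0 ≤ F v p) (hq : F v q ≤ 0) :
    ∃ m : ℍ, F v m = 0 ∧ dist p m + dist m q = dist p q ∧
      ∀ u, 0 ≤ F u p → 0 ≤ F u q → 0 ≤ F u m := by
  obtain ⟨l, h0, h1, hd, hF⟩ := exists_segment p q
  have hcont : Continuous fun t => F v (l t) := (continuous_F v).comp (continuous_of_dist hd)
  have hd0 : (0:ℝ) ≤ dist p q := dist_nonneg
  obtain ⟨t, ht, hFt⟩ : (0 : ℝ) ∈ (fun t => F v (l t)) '' Icc 0 (dist p q) := by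
    apply intermediate_value_Icc' hd0 hcont.continuousOn
    simp only [h0, h1]
    exact ⟨hq, hp⟩
  refine ⟨l t, hFt, ?_, ?_⟩
  · have e1 : dist p (l t) = t := by
      rw [← h0, hd]; rw [zero_sub, abs_neg, abs_of_nonneg ht.1]
    have e2 : dist (l t) q = dist p q - t := by
      conv_lhs => rw [← h1]
      rw [hd, abs_sub_comm, abs_of_nonneg (by linarith [ht.2])]
    rw [e1, e2]; ring
  · intro u hup huq
    rcases hd0.lt_or_eq with hpos | hzero
    · have hs : 0 < Real.sinh (dist p q) := Real.sinh_pos_iff.mpr hpos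
      have h2 := hF u t
      have h3 : 0 ≤ Real.sinh (dist p q - t) := Real.sinh_nonneg_iff.mpr (by linarith [ht.2])
      have h4 : 0 ≤ Real.sinh t := Real.sinh_nonneg_iff.mpr ht.1
      have h5 : 0 ≤ Real.sinh (dist p q) * F u (l t) := by rw [h2]; positivity
      exact nonneg_of_mul_nonneg_right h5 hs
    · have : t = 0 := le_antisymm (by rw [hzero]; exact ht.2) ht.1
      rw [this, h0]; exact hup

/-! ### Isometries -/

lemma dist_gl_smul (g : GL (Fin 2) ℝ) (z w : ℍ) : dist (g • z) (g • w) = dist z w := by
  have hz := denom_ne_zero g z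
  have hw := denom_ne_zero g w
  have hnum : num g z / denom g z - num g w / denom g w =
      (g.det.val : ℂ) * ((z : ℂ) - w) / (denom g z * denom g w) := by
    rw [div_sub_div _ _ hz hw]
    congr 1
    rw [Matrix.GeneralLinearGroup.val_det_apply, Matrix.det_fin_two]
    simp only [num, denom]
    push_cast
    ring
  have h1 : dist ((g • z : ℍ) : ℂ) ((g • w : ℍ) : ℂ) =
      |g.det.val| * dist (z : ℂ) w / (‖denom g z‖ * ‖denom g w‖) := by
    rw [coe_smul, coe_smul, dist_eq_norm, ← map_sub, norm_σ, hnum, norm_div, norm_mul, norm_mul,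
      dist_eq_norm, Complex.norm_real, Real.norm_eq_abs]
  have hc : Real.cosh (dist (g • z) (g • w)) = Real.cosh (dist z w) := by
    rw [cosh_dist, cosh_dist, h1, im_smul_eq_div_normSq, im_smul_eq_div_normSq]
    have e1 : Complex.normSq (denom g z) = ‖denom g z‖ ^ 2 := Complex.normSq_eq_norm_sq _
    have e2 : Complex.normSq (denom g w) = ‖denom g w‖ ^ 2 := Complex.normSq_eq_norm_sq _
    rw [e1, e2]
    have n1 : ‖denom g z‖ ≠ 0 := norm_ne_zero_iff.mpr hz
    have n2 : ‖denom g w‖ ≠ 0 := norm_ne_zero_iff.mpr hw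
    have n3 : |g.det.val| ≠ 0 := abs_ne_zero.mpr g.det.ne_zero
    have := z.im_ne_zero
    have := w.im_ne_zero
    field_simp
  exact Real.cosh_strictMonoOn.injOn (mem_Ici.mpr dist_nonneg) (mem_Ici.mpr dist_nonneg) hc

/-- The matrix of the reflection in the geodesic orthogonal to `v`. -/
def refl (v : V) (hv : bil v v = 1) : GL (Fin 2) ℝ :=
  .mkOfDetNeZero !![v.2.1, -v.2.2; v.1, -v.2.1] (by
    rw [Matrix.det_fin_two]
    simp only [bil] at hv
    simp only [Matrix.of_apply, Matrix.cons_val', Matrix.cons_val_zero, Matrix.cons_val_fin_one,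
      Matrix.cons_val_one]
    intro h
    nlinarith)

lemma refl_det (v : V) (hv : bil v v = 1) : (refl v hv).det.val = -1 := by
  rw [Matrix.GeneralLinearGroup.val_det_apply, Matrix.det_fin_two]
  simp only [bil] at hv
  have : (refl v hv).val = !![v.2.1, -v.2.2; v.1, -v.2.1] := rfl
  simp [this]
  nlinarith

lemma iota_refl (v : V) (hv : bil v v = 1) (z : ℍ) :
    iota (refl v hv • z) = iota z + (2 * F v z) • v := by
  obtain ⟨a, b, c⟩ := v
  have hv' : b * b - a * c = 1 := by simp only [bil] at hv; linarith
  have hval : (refl (a, b, c) hv).val = !![b, -c; a, -b] := rfl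
  have hden : denom (refl (a, b, c) hv) z = (a * z.re - b : ℝ) + (a * z.im : ℝ) * Complex.I := by
    simp only [denom, hval]
    apply Complex.ext <;> simp
    ring
  have hnum : num (refl (a, b, c) hv) z = (b * z.re - c : ℝ) + (b * z.im : ℝ) * Complex.I := by
    simp only [num, hval]
    apply Complex.ext <;> simp
    ring
  have hns : Complex.normSq (denom (refl (a, b, c) hv) z) = (a * z.re - b) ^ 2 + (a * z.im) ^ 2 := by
    rw [hden, Complex.normSq_add_mul_I]
  have hy := z.im_pos
  have hns_pos : 0 < (a * z.re - b) ^ 2 + (a * z.im) ^ 2 := by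
    rw [← hns]; exact normSq_denom_pos _ z.im_ne_zero
  have him : (refl (a, b, c) hv • z).im = z.im / ((a * z.re - b) ^ 2 + (a * z.im) ^ 2) := by
    rw [im_smul_eq_div_normSq, hns, refl_det]; simp
  have hre : (refl (a, b, c) hv • z).re =
      ((b * z.re - c) * (a * z.re - b) + (b * z.im) * (a * z.im)) /
        ((a * z.re - b) ^ 2 + (a * z.im) ^ 2) := by
    rw [re_smul, Complex.div_re, hns, hden, hnum]
    simp
    ring
  set D := (a * z.re - b) ^ 2 + (a * z.im) ^ 2 with hD
  have hD0 : D ≠ 0 := hns_pos.ne'
  have hy0 := hy.ne'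
  have hnumsq : ((b * z.re - c) * (a * z.re - b) + (b * z.im) * (a * z.im)) ^ 2 + z.im ^ 2 =
      D * ((b * z.re - c) ^ 2 + (b * z.im) ^ 2) := by
    have : z.im ^ 2 = (b * b - a * c) ^ 2 * z.im ^ 2 := by rw [hv']; ring
    rw [this, hD]; ring
  refine Prod.ext ?_ (Prod.ext ?_ ?_)
  · simp only [iota, him, Prod.fst_add, Prod.smul_fst, smul_eq_mul, F, bil]
    field_simp
    rw [hD]
    linear_combination (1 : ℝ) * hv'
  · simp only [iota, him, hre, Prod.snd_add, Prod.fst_add, Prod.smul_snd, Prod.smul_fst,
      smul_eq_mul, F, bil]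
    field_simp
    linear_combination (z.re) * hv'
  · simp only [iota, him, hre, Prod.snd_add, Prod.smul_snd, smul_eq_mul, F, bil]
    have e : (((b * z.re - c) * (a * z.re - b) + (b * z.im) * (a * z.im)) / D) ^ 2 +
        (z.im / D) ^ 2 = ((b * z.re - c) ^ 2 + (b * z.im) ^ 2) / D := by
      rw [div_pow, div_pow, ← add_div, hnumsq]
      field_simp
    rw [e]
    field_simp
    linear_combination (z.re ^ 2 + z.im ^ 2) * hv'

lemma F_refl (v : V) (hv : bil v v = 1) (u : V) (z : ℍ) :
    F u (refl v hv • z) = F u z - 2 * F v z * bil u v := by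
  simp only [F, iota_refl, bil_add_right, bil_smul_right]; ring

lemma F_refl_self (v : V) (hv : bil v v = 1) (z : ℍ) :
    F v (refl v hv • z) = - F v z := by
  rw [F_refl, hv]; ring

lemma refl_smul_eq_self {v : V} (hv : bil v v = 1) {z : ℍ} (hz : F v z = 0) :
    refl v hv • z = z := by
  apply iota_injective; rw [iota_refl, hz]; simp

lemma refl_smul_refl_smul (v : V) (hv : bil v v = 1) (z : ℍ) :
    refl v hv • (refl v hv • z) = z := by
  apply iota_injective
  rw [iota_refl, iota_refl, F_refl_self]
  rw [add_assoc, ← add_smul]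
  simp

lemma refl_comm {u v : V} (hu : bil u u = 1) (hv : bil v v = 1) (huv : bil u v = 0) (z : ℍ) :
    refl u hu • (refl v hv • z) = refl v hv • (refl u hu • z) := by
  apply iota_injective
  simp only [iota_refl, F_refl, huv, bil_comm v u]
  rw [mul_zero, sub_zero, mul_zero, sub_zero]
  abel

/-- distance to a mirror image -/
lemma dist_refl_eq {v : V} (hv : bil v v = 1) {m : ℍ} (hm : F v m = 0) (z : ℍ) :
    dist m (refl v hv • z) = dist m z := by
  conv_lhs => rw [← refl_smul_eq_self hv hm]
  rw [dist_gl_smul]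

end Pool.Agent.Hyp72
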