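import Pool.Agent.Lib_helper72.Hyp.Plane

/-!
# More lemmas on the hyperbolic plane
-/

open Metric Set UpperHalfPlane Topology
open scoped MatrixGroups

noncomputable section

namespace Pool.Agent.Hyp72

/-- A lightlike vector orthogonal to a timelike vector is zero. -/
lemma eq_zero_of_bil {u : V} {z : ℍ} (h1 : bil u (iota z) = 0) (h2 : bil u u ≤ 0) : u = 0 := by
  obtain ⟨a, b, c⟩ := u
  have hp1 : 0 < (iota z).1 := iota_fst_pos z
  have hpp : bil (iota z) (iota z) = -1 := bil_iota_self z
  set p := iota z with hp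
  obtain ⟨x, y, t⟩ := p
  simp only [bil] at h1 h2 hpp
  simp only at hp1
  have hxt : x * t = y ^ 2 + 1 := by linarith
  have hcx : c * x = 2 * b * y - a * t := by linarith
  have key : x ^ 2 * (b * b - (a * c + c * a) / 2) = (b * x - a * y) ^ 2 + a ^ 2 := by
    have e1 : x ^ 2 * (b * b - (a * c + c * a) / 2) = (b * x) ^ 2 - a * x * (c * x) := by ring
    rw [e1, hcx]
    have e2 : a * x * (2 * b * y - a * t) = 2 * a * b * x * y - a ^ 2 * (x * t) := by ring
    rw [e2, hxt]; ring
  have hx2 : 0 < x ^ 2 := by positivity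
  have hle : (b * x - a * y) ^ 2 + a ^ 2 ≤ 0 := by
    rw [← key]; exact mul_nonpos_of_nonneg_of_nonpos hx2.le h2
  have ha : a = 0 := by nlinarith [sq_nonneg (b * x - a * y), sq_nonneg a]
  subst ha
  have hb : b = 0 := by
    have : (b * x) ^ 2 ≤ 0 := by simpa using hle
    have : b * x = 0 := by nlinarith [sq_nonneg (b * x)]
    rcases mul_eq_zero.mp this with h | h
    · exact h
    · exact absurd h hp1.ne'
  subst hb
  have hc : c = 0 := by
    have : c * x = 0 := by simpa using hcx
    rcases mul_eq_zero.mp this with h | h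
    · exact h
    · exact absurd h hp1.ne'
  subst hc
  rfl

/-- Sinh of the distance to a point of the mirror bounds `F`. -/
lemma F_le_sinh_dist {v : V} (hv : bil v v = 1) {z b : ℍ} (hb : F v b = 0) :
    F v z ≤ Real.sinh (dist z b) := by
  rcases eq_or_ne b z with rfl | hne
  · simp [hb]
  have hd : 0 < dist b z := dist_pos.mpr hne
  set d := dist b z with hd_def
  have hs : 0 < Real.sinh d := Real.sinh_pos_iff.mpr hd
  have hc : bil (iota b) (iota z) = - Real.cosh d := by rw [hd_def, cosh_dist_eq]; ring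
  set N : V := (Real.sinh d)⁻¹ • (iota z - Real.cosh d • iota b) with hNdef
  have hsq := Real.cosh_sq d
  have hN : bil N N = 1 := by
    simp only [hNdef, bil_smul_left, bil_smul_right, bil_sub_left, bil_sub_right,
      bil_iota_self, hc, bil_comm (iota z) (iota b)]
    field_simp
    nlinarith
  have hbN : F N b = 0 := by
    simp only [F, hNdef, bil_smul_left, bil_sub_left, bil_iota_self, hc,
      bil_comm (iota z) (iota b)]
    ring
  have h1 := bil_ge_neg_one hv hN hb hbN
  have h2 : bil v N = (Real.sinh d)⁻¹ * (- F v z) := by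
    simp only [hNdef, bil_smul_right, bil_sub_right]
    have : bil v (iota b) = 0 := by simpa [F] using hb
    rw [this]; simp [F]
  rw [h2] at h1
  rw [dist_comm, ← hd_def]
  have h3 : Real.sinh d * -1 ≤ Real.sinh d * ((Real.sinh d)⁻¹ * (- F v z)) :=
    mul_le_mul_of_nonneg_left h1 hs.le
  rw [← mul_assoc, mul_inv_cancel₀ hs.ne', one_mul] at h3
  linarith

/-- The midpoint formula. -/
lemma midpoint_formula {c w w' : ℍ} {δ : ℝ} (h1 : dist w c = δ) (h2 : dist c w' = δ)
    (h3 : dist w w' = 2 * δ) : iota w + iota w' = (2 * Real.cosh δ) • iota c := by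
  have e1 : bil (iota w) (iota c) = - Real.cosh δ := by
    rw [← h1, cosh_dist_eq]; ring
  have e2 : bil (iota c) (iota w') = - Real.cosh δ := by
    rw [← h2, cosh_dist_eq]; ring
  have e3 : bil (iota w) (iota w') = - Real.cosh (2 * δ) := by
    rw [← h3, cosh_dist_eq]; ring
  have h0 : iota w + iota w' - (2 * Real.cosh δ) • iota c = 0 := by
    apply eq_zero_of_bil (z := c)
    · simp only [bil_sub_left, bil_add_left, bil_smul_left, e1, bil_comm (iota w') (iota c), e2,
        bil_iota_self]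
      ring
    · simp only [bil_sub_left, bil_sub_right, bil_add_left, bil_add_right, bil_smul_left,
        bil_smul_right, e1, bil_comm (iota w') (iota c), bil_comm (iota c) (iota w),
        bil_comm (iota w') (iota w), e2, e3, bil_iota_self]
      rw [Real.cosh_two_mul, Real.sinh_sq]
      ring_nf
      exact le_rfl
  exact sub_eq_zero.mp h0

/-- The centre of a half disc has no antipodes. -/
lemma no_antipode {v : V} {c w w' : ℍ} {δ : ℝ} (h1 : dist w c = δ) (h2 : dist c w' = δ)
    (h3 : dist w w' = 2 * δ) (hc : F v c = 0) (hw : 0 < F v w) (hw' : 0 ≤ F v w') : False := by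
  have h := congrArg (fun u => - bil v u) (midpoint_formula h1 h2 h3)
  simp only [bil_add_right, bil_smul_right] at h
  simp only [F] at hc hw hw'
  have hc' : bil v (iota c) = 0 := by linarith
  rw [hc'] at h
  linarith

/-- Every point has antipodes. -/
lemma exists_antipode (c w : ℍ) : ∃ w', dist c w' = dist w c ∧ dist w w' = 2 * dist w c := by
  obtain ⟨l, h0, h1, hd, -⟩ := exists_segment w c
  have hd0 := dist_nonneg (x := w) (y := c)
  refine ⟨l (2 * dist w c), ?_, ?_⟩
  · have e := hd (dist w c) (2 * dist w c)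
    rw [h1] at e
    rw [e, abs_sub_comm, abs_of_nonneg (by linarith)]; ring
  · have e := hd 0 (2 * dist w c)
    rw [h0] at e
    rw [e, zero_sub, abs_neg, abs_of_nonneg (by linarith)]

lemma exists_dist_eq (c : ℍ) {δ : ℝ} (hδ : 0 ≤ δ) {v : V} (hv : bil v v = 1) (hc : F v c = 0) :
    ∃ w, dist w c = δ ∧ F v w = Real.sinh δ := by
  have hN : bil (-v) (-v) = 1 := by rw [bil_neg_left, bil_neg_right, neg_neg, hv]
  have hcN : F (-v) c = 0 := by
    have : F (-v) c = - F v c := by simp only [F, bil_neg_left]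
    rw [this, hc, neg_zero]
  obtain ⟨l, hl⟩ := exists_line c hN hcN
  have h0 : l 0 = c := by apply iota_injective; rw [hl]; simp
  refine ⟨l δ, ?_, ?_⟩
  · conv_lhs => rw [← h0]
    rw [dist_line hN hcN hl, sub_zero, abs_of_nonneg hδ]
  · rw [F_line hl, hc, bil_neg_right, hv]; ring

/-- A point is determined by its distances to the points of an open set. -/
lemma eq_of_dist_eq {A : Set ℍ} (hA : (interior A).Nonempty) {p p' : ℍ}
    (h : ∀ a ∈ A, dist p a = dist p' a) : p = p' := by
  obtain ⟨a0, ha0⟩ := hA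
  have hnhds : A ∈ 𝓝 a0 := mem_interior_iff_mem_nhds.mp ha0
  -- `bil (ι p - ι p') (ι a) = 0` for `a ∈ A`
  set u := iota p - iota p' with hu
  have hbil : ∀ a ∈ A, bil u (iota a) = 0 := by
    intro a ha
    have h1 := cosh_dist_eq p a
    have h2 := cosh_dist_eq p' a
    rw [h a ha] at h1
    rw [hu, bil_sub_left]; linarith
  have hpoly : ∀ a ∈ A, 2 * u.2.1 * a.re - u.1 * (a.re ^ 2 + a.im ^ 2) - u.2.2 = 0 := by
    intro a ha
    have h1 := hbil a ha
    simp only [bil, iota] at h1
    have := a.im_ne_zero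
    field_simp at h1
    linarith
  -- pull back to the complex plane
  have hopen : IsOpenEmbedding ((↑) : ℍ → ℂ) := UpperHalfPlane.isOpenEmbedding_coe
  have hnh : ((↑) : ℍ → ℂ) '' A ∈ 𝓝 (a0 : ℂ) := hopen.image_mem_nhds.mpr hnhds
  have hev : ∀ᶠ z in 𝓝 (a0 : ℂ), 2 * u.2.1 * z.re - u.1 * (z.re ^ 2 + z.im ^ 2) - u.2.2 = 0 := by
    filter_upwards [hnh] with z hz
    obtain ⟨a, ha, rfl⟩ := hz
    exact hpoly a ha
  -- restrict to curves
  obtain ⟨ε, hε, hball⟩ := Metric.eventually_nhds_iff.mp hev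
  set x0 := (a0 : ℂ).re
  set y0 := (a0 : ℂ).im
  have hy0 : 0 < y0 := a0.im_pos
  have hsmall : ∀ s t : ℝ, |s| < ε / 2 → |t| < ε / 2 →
      2 * u.2.1 * (x0 + s) - u.1 * ((x0 + s) ^ 2 + (y0 + t) ^ 2) - u.2.2 = 0 := by
    intro s t hs ht
    have := @hball (⟨x0 + s, y0 + t⟩ : ℂ) ?_
    · simpa using this
    · rw [Complex.dist_eq]
      refine lt_of_le_of_lt (Complex.norm_le_abs_re_add_abs_im _) ?_
      have e1 : ((⟨x0 + s, y0 + t⟩ : ℂ) - (a0 : ℂ)).re = s := by simp [x0]
      have e2 : ((⟨x0 + s, y0 + t⟩ : ℂ) - (a0 : ℂ)).im = t := by simp [y0]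
      rw [e1, e2]; linarith
  have hd : 0 < ε / 4 := by positivity
  have hd' : |ε / 4| < ε / 2 := by rw [abs_of_pos hd]; linarith
  have hd'' : |-(ε / 4)| < ε / 2 := by rw [abs_neg]; exact hd'
  have h0 : |(0 : ℝ)| < ε / 2 := by simpa using half_pos hε
  have k1 := hsmall 0 0 h0 h0
  have k2 := hsmall 0 (ε / 4) h0 hd'
  have k3 := hsmall (ε / 4) 0 hd' h0
  have ha : u.1 = 0 := by
    have : u.1 * ((y0 + ε / 4) ^ 2 - y0 ^ 2) = 0 := by linarith
    rcases mul_eq_zero.mp this with h | h
    · exact h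
    · exfalso; nlinarith
  have hb : u.2.1 = 0 := by
    rw [ha] at k1 k3
    have : u.2.1 * (ε / 2) = 0 := by linarith
    rcases mul_eq_zero.mp this with h | h
    · exact h
    · exfalso; linarith
  have hc : u.2.2 = 0 := by rw [ha, hb] at k1; linarith
  have hu0 : u = 0 := Prod.ext ha (Prod.ext hb hc)
  exact iota_injective (sub_eq_zero.mp hu0)

/-- A matrix of determinant one acts as an element of `SL(2, ℝ)`. -/
lemma exists_sl_smul (g : GL (Fin 2) ℝ) (hg : g.det.val = 1) :
    ∃ h : SL(2, ℝ), ∀ z : ℍ, h • z = g • z := by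
  have hdet : g.val.det = 1 := by
    rw [← Matrix.GeneralLinearGroup.val_det_apply]; exact hg
  let h : SL(2, ℝ) := ⟨g.val, hdet⟩
  refine ⟨h, fun z => ?_⟩
  have : Matrix.SpecialLinearGroup.mapGL ℝ h = g := by
    ext i j; rfl
  have h2 : h • z = Matrix.SpecialLinearGroup.mapGL ℝ h • z := rfl
  rw [h2, this]

end Pool.Agent.Hyp72
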