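import Pool.Agent.Lib_helper72.Hyp.Chart

/-!
# Infinite right-angled polygons
-/

open Metric Set UpperHalfPlane Topology
open scoped MatrixGroups

noncomputable section

namespace Pool.Agent.Hyp72

/-- An infinite right-angled polygon, given by its sides. -/
structure Poly where
  /-- the normal vectors of the sides -/
  v : ℕ → V
  v_zero : v 0 = (0, -1, 0)
  fst_pos : ∀ n, 1 ≤ n → 0 < (v n).1
  unit : ∀ n, bil (v n) (v n) = 1
  adj : ∀ n, bil (v n) (v (n + 1)) = 0
  far : ∀ n m, n + 2 ≤ m → bil (v n) (v m) < -1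
  locfin : ∀ z : ℍ, ∃ r > 0, ∃ N, ∀ n ≥ N, ∀ w ∈ ball z r, 0 < F (v n) w
  exits : ∀ z : ℍ, F (v 1) z = 0 → 0 < F (v 0) z → 0 ≤ F (v 2) z →
    ∃ n ≥ 3, F (v n) z + bil (v n) (v 1) < 0
  tall : ∀ K : ℝ, ∃ n, 4 ≤ n ∧ n % 2 = 0 ∧ bil (v 1) (v n) ≤ K * bil (v 0) (v n)

namespace Poly

variable (P : Poly)

/-- The polygon as a subset of the plane. -/
def carrier : Set ℍ := {z | ∀ n, 0 ≤ F (P.v n) z}

/-- The polygon as a space. -/
abbrev Q : Type := P.carrier

variable {P}

lemma fst_nonneg (n : ℕ) : 0 ≤ (P.v n).1 := by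
  rcases Nat.eq_zero_or_pos n with rfl | h
  · rw [P.v_zero]
  · exact (P.fst_pos n h).le

lemma F_nonneg (q : P.Q) (n : ℕ) : 0 ≤ F (P.v n) (q : ℍ) := q.2 n

lemma isClosed_carrier : IsClosed P.carrier := by
  have : P.carrier = ⋂ n, {z | 0 ≤ F (P.v n) z} := by ext z; simp [carrier]
  rw [this]
  exact isClosed_iInter fun n => isClosed_le continuous_const (continuous_F _)

instance : ProperSpace P.Q := ProperSpace.of_isClosed isClosed_carrier

lemma far' {n m : ℕ} (h : n + 2 ≤ m ∨ m + 2 ≤ n) : bil (P.v n) (P.v m) < -1 := by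
  rcases h with h | h
  · exact P.far n m h
  · rw [bil_comm]; exact P.far m n h

lemma bil_nonpos {n m : ℕ} (h : n ≠ m) : bil (P.v n) (P.v m) ≤ 0 := by
  rcases lt_trichotomy n m with h1 | h1 | h1
  · rcases Nat.lt_or_ge (n + 1) m with h2 | h2
    · linarith [P.far n m h2]
    · obtain rfl : m = n + 1 := by omega
      exact (P.adj n).le
  · exact absurd h1 h
  · rw [bil_comm]
    rcases Nat.lt_or_ge (m + 1) n with h2 | h2
    · linarith [P.far m n h2]
    · obtain rfl : n = m + 1 := by omega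
      exact (P.adj m).le

/-- Two sides meeting at a point are equal or adjacent. -/
lemma active_adj {n m : ℕ} {z : ℍ} (hn : F (P.v n) z = 0) (hm : F (P.v m) z = 0) :
    n ≤ m + 1 ∧ m ≤ n + 1 := by
  have h := bil_ge_neg_one (P.unit n) (P.unit m) hn hm
  by_contra hcon
  have : n + 2 ≤ m ∨ m + 2 ≤ n := by omega
  linarith [P.far' this]

lemma active_unique {n m : ℕ} {z : ℍ} (hn : F (P.v n) z = 0) (hm : F (P.v m) z = 0)
    (hpar : n % 2 = m % 2) : n = m := by
  have := active_adj hn hm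
  omega

lemma active_bil {n m : ℕ} {z : ℍ} (hn : F (P.v n) z = 0) (hm : F (P.v m) z = 0)
    (hpar : n % 2 ≠ m % 2) : bil (P.v n) (P.v m) = 0 := by
  have := active_adj hn hm
  have h : m = n + 1 ∨ n = m + 1 := by omega
  rcases h with rfl | rfl
  · exact P.adj n
  · rw [bil_comm]; exact P.adj m

/-- Near a point only the sides through this point matter. -/
lemma exists_radius (q : ℍ) (hq : q ∈ P.carrier) : ∃ r > 0, ∀ w ∈ ball q r, ∀ n, F (P.v n) q ≠ 0 →
    0 < F (P.v n) w := by
  obtain ⟨r0, hr0, N, hN⟩ := P.locfin q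
  have key : ∀ n, ∃ r > 0, ∀ w ∈ ball q r, F (P.v n) q ≠ 0 → 0 < F (P.v n) w := by
    intro n
    by_cases h : F (P.v n) q = 0
    · exact ⟨1, one_pos, fun w _ h' => absurd h h'⟩
    · have hpos : 0 < F (P.v n) q := lt_of_le_of_ne (hq n) (Ne.symm h)
      have hopen : IsOpen {w | 0 < F (P.v n) w} := isOpen_lt continuous_const (continuous_F _)
      obtain ⟨ε, hε, hb⟩ := Metric.isOpen_iff.mp hopen q hpos
      exact ⟨ε, hε, fun w hw _ => hb hw⟩
  choose r hr hrw using key
  have hfin : ∀ K : ℕ, ∃ r' > 0, ∀ n < K, r' ≤ r n := by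
    intro K
    induction K with
    | zero => exact ⟨1, one_pos, by simp⟩
    | succ K ih =>
      obtain ⟨r', h1, h2⟩ := ih
      refine ⟨min r' (r K), lt_min h1 (hr K), fun n hn => ?_⟩
      rcases Nat.lt_succ_iff_lt_or_eq.mp hn with h | rfl
      · exact (min_le_left _ _).trans (h2 n h)
      · exact min_le_right _ _
  obtain ⟨r', hr', hr'2⟩ := hfin N
  refine ⟨min r0 r', lt_min hr0 hr', fun w hw n hn => ?_⟩
  rcases Nat.lt_or_ge n N with h | h
  · exact hrw n w (ball_subset_ball ((min_le_right _ _).trans (hr'2 n h)) hw) hn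
  · exact hN n h w (ball_subset_ball (min_le_left _ _) hw)

/-- The interior of the polygon contains `{F n > 0 for all n}`. -/
lemma mem_interior {z : ℍ} (h : ∀ n, 0 < F (P.v n) z) : z ∈ interior P.carrier := by
  obtain ⟨r, hr, hrw⟩ := exists_radius (P := P) z (fun n => (h n).le)
  rw [mem_interior_iff_mem_nhds]
  exact Filter.mem_of_superset (ball_mem_nhds z hr) fun w hw n => (hrw w hw n (h n).ne').le

/-- The basic chart. -/
lemma lchart (q : P.Q) : ∃ r, LChart q ((↑) : P.Q → ℍ) r {u | ∃ n, F (P.v n) q = 0 ∧ u = P.v n} ∧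
    ∀ w ∈ ball (q : ℍ) r, ∀ n, F (P.v n) q ≠ 0 → 0 < F (P.v n) w := by
  obtain ⟨r, hr, hrw⟩ := exists_radius (P := P) q q.2
  refine ⟨r, ⟨hr, fun y _ z _ => rfl, ?_⟩, hrw⟩
  ext w
  constructor
  · rintro ⟨y, hy, rfl⟩
    refine ⟨hy, ?_⟩
    rintro u ⟨n, -, rfl⟩
    exact y.2 n
  · rintro ⟨hw, hu⟩
    refine ⟨⟨w, fun n => ?_⟩, hw, rfl⟩
    by_cases h : F (P.v n) q = 0
    · exact hu _ ⟨n, h, rfl⟩
    · exact (hrw w hw n h).le

/-- The perpendicular arc from the side `n` to the side `m`. -/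
lemma exists_arc {n m : ℕ} (h : n + 2 ≤ m ∨ m + 2 ≤ n) :
    ∃ (L : ℝ) (l : ℝ → ℍ), 0 < L ∧ Real.cosh L = - bil (P.v n) (P.v m) ∧
      (∀ s t, dist (l s) (l t) = |s - t|) ∧
      (∀ k t, F (P.v k) (l t) = (- bil (P.v k) (P.v m) * Real.cosh t
        - bil (P.v k) (P.v n) * Real.cosh (L - t)) / Real.sinh L) := by
  set L := Real.arcosh (- bil (P.v n) (P.v m)) with hL
  have hb := P.far' h
  have hL0 : 0 < L := Real.arcosh_pos (by linarith)
  have hcosh : Real.cosh L = - bil (P.v n) (P.v m) := Real.cosh_arcosh (by linarith)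
  have hs : 0 < Real.sinh L := Real.sinh_pos_iff.mpr hL0
  have hsq := Real.cosh_sq L
  set p : V := (Real.sinh L)⁻¹ • (P.v m + Real.cosh L • P.v n) with hp
  have hpp : bil p p = -1 := by
    simp only [hp, bil_smul_left, bil_smul_right, bil_add_left, bil_add_right, P.unit,
      bil_comm (P.v m) (P.v n)]
    rw [show bil (P.v n) (P.v m) = - Real.cosh L by rw [hcosh]; ring]
    field_simp
    nlinarith
  have hp1 : 0 < p.1 := by
    simp only [hp, Prod.smul_fst, Prod.fst_add, smul_eq_mul]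
    have h1 := P.fst_nonneg n
    have h2 := P.fst_nonneg m
    have h3 := Real.cosh_pos L
    have h4 : 0 < (P.v m).1 + Real.cosh L * (P.v n).1 := by
      rcases Nat.eq_zero_or_pos n with h0 | h0
      · have := P.fst_pos m (by omega)
        positivity
      · have := P.fst_pos n h0
        positivity
    positivity
  obtain ⟨z, hz⟩ := exists_iota hpp hp1
  have hN : bil (-(P.v n)) (-(P.v n)) = 1 := by rw [bil_neg_left, bil_neg_right, neg_neg, P.unit]
  have hFz : F (-(P.v n)) z = 0 := by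
    simp only [F, hz, hp, bil_neg_left, bil_smul_right, bil_add_right, P.unit]
    rw [hcosh]; ring
  obtain ⟨l, hl⟩ := exists_line z hN hFz
  refine ⟨L, l, hL0, hcosh, dist_line hN hFz hl, fun k t => ?_⟩
  rw [F_line hl]
  simp only [F, hz, hp, bil_smul_right, bil_add_right, bil_neg_right]
  rw [Real.cosh_sub]
  field_simp
  ring

lemma arc_start {n m : ℕ} {L : ℝ} (hL : 0 < L) (hc : Real.cosh L = - bil (P.v n) (P.v m))
    (t : ℝ) : (- bil (P.v n) (P.v m) * Real.cosh t - bil (P.v n) (P.v n) * Real.cosh (L - t)) /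
      Real.sinh L = Real.sinh t := by
  have hs : 0 < Real.sinh L := Real.sinh_pos_iff.mpr hL
  rw [← hc, P.unit, Real.cosh_sub]
  field_simp
  ring

lemma arc_finish {n m : ℕ} {L : ℝ} (hL : 0 < L) (hc : Real.cosh L = - bil (P.v n) (P.v m))
    (t : ℝ) : (- bil (P.v m) (P.v m) * Real.cosh t - bil (P.v m) (P.v n) * Real.cosh (L - t)) /
      Real.sinh L = Real.sinh (L - t) := by
  have hs : 0 < Real.sinh L := Real.sinh_pos_iff.mpr hL
  have h2 : - bil (P.v m) (P.v n) = Real.cosh L := by rw [hc, bil_comm]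
  rw [P.unit]
  have h3 : (-1 * Real.cosh t - bil (P.v m) (P.v n) * Real.cosh (L - t)) =
      Real.cosh L * Real.cosh (L - t) - Real.cosh t := by rw [← h2]; ring
  rw [h3, div_eq_iff hs.ne']
  have h4 : Real.cosh t = Real.cosh (L - (L - t)) := by congr 1; ring
  have h5 := Real.cosh_sub L (L - t)
  rw [← h4] at h5
  rw [h5]
  ring

/-- `F` along an arc -/
lemma arc_nonneg {n m : ℕ} {L : ℝ} (hL : 0 < L) (hc : Real.cosh L = - bil (P.v n) (P.v m))
    (k : ℕ) {t : ℝ} (ht : t ∈ Icc 0 L) : 0 ≤ (- bil (P.v k) (P.v m) * Real.cosh t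
        - bil (P.v k) (P.v n) * Real.cosh (L - t)) / Real.sinh L := by
  have hs : 0 < Real.sinh L := Real.sinh_pos_iff.mpr hL
  by_cases hkn : k = n
  · subst hkn
    rw [arc_start hL hc]; exact Real.sinh_nonneg_iff.mpr ht.1
  by_cases hkm : k = m
  · subst hkm
    rw [arc_finish hL hc]; exact Real.sinh_nonneg_iff.mpr (by linarith [ht.2])
  have h1 := P.bil_nonpos hkn
  have h2 := P.bil_nonpos hkm
  have h3 := Real.cosh_pos t
  have h4 := Real.cosh_pos (L - t)
  apply div_nonneg _ hs.le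
  nlinarith [mul_nonneg (neg_nonneg.mpr h2) h3.le, mul_nonneg (neg_nonneg.mpr h1) h4.le]

lemma arc_pos {n m : ℕ} {L : ℝ} (hL : 0 < L) (hc : Real.cosh L = - bil (P.v n) (P.v m))
    (k : ℕ) {t : ℝ} (ht : t ∈ Ioo 0 L) (hk : bil (P.v k) (P.v m) < 0 ∨ bil (P.v k) (P.v n) < 0) :
    0 < (- bil (P.v k) (P.v m) * Real.cosh t
        - bil (P.v k) (P.v n) * Real.cosh (L - t)) / Real.sinh L := by
  have hs : 0 < Real.sinh L := Real.sinh_pos_iff.mpr hL
  by_cases hkn : k = n
  · subst hkn
    rw [arc_start hL hc]; exact Real.sinh_pos_iff.mpr ht.1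
  by_cases hkm : k = m
  · subst hkm
    rw [arc_finish hL hc]; exact Real.sinh_pos_iff.mpr (by linarith [ht.2])
  have h1 := P.bil_nonpos hkn
  have h2 := P.bil_nonpos hkm
  have h3 := Real.cosh_pos t
  have h4 := Real.cosh_pos (L - t)
  apply div_pos _ hs
  rcases hk with hk | hk
  · nlinarith [mul_pos (neg_pos.mpr hk) h3, mul_nonneg (neg_nonneg.mpr h1) h4.le]
  · nlinarith [mul_nonneg (neg_nonneg.mpr h2) h3.le, mul_pos (neg_pos.mpr hk) h4]

/-- There is a point in the interior. -/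
lemma exists_pos : ∃ z : ℍ, ∀ n, 0 < F (P.v n) z := by
  obtain ⟨L, l, hL, hc, -, hF⟩ := P.exists_arc (n := 0) (m := 3) (by omega)
  refine ⟨l (L / 2), fun k => ?_⟩
  rw [hF]
  apply arc_pos hL hc k ⟨by linarith, by linarith⟩
  rcases Nat.lt_or_ge k 2 with h | h
  · left
    have := P.far' (n := k) (m := 3) (by omega)
    linarith
  · right
    have := P.far' (n := k) (m := 0) (by omega)
    linarith

/-- Near every point of the polygon there are interior points. -/
lemma interior_nonempty {a : ℍ} (ha : a ∈ P.carrier) {ε : ℝ} (hε : 0 < ε) :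
    (interior (P.carrier ∩ ball a ε)).Nonempty := by
  obtain ⟨z, hz⟩ := P.exists_pos
  obtain ⟨l, h0, h1, hd, hF⟩ := exists_segment a z
  rcases eq_or_ne a z with rfl | hne
  · refine ⟨a, ?_⟩
    rw [interior_inter, isOpen_ball.interior_eq]
    exact ⟨mem_interior hz, mem_ball_self hε⟩
  have hdpos : 0 < dist a z := dist_pos.mpr hne
  set t := min (dist a z) (ε / 2) with ht
  have ht0 : 0 < t := lt_min hdpos (by linarith)
  refine ⟨l t, ?_⟩
  rw [interior_inter, isOpen_ball.interior_eq]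
  refine ⟨mem_interior fun n => ?_, ?_⟩
  · have h := hF (P.v n) t
    have hs : 0 < Real.sinh (dist a z) := Real.sinh_pos_iff.mpr hdpos
    have h2 : 0 ≤ Real.sinh (dist a z - t) :=
      Real.sinh_nonneg_iff.mpr (by linarith [min_le_left (dist a z) (ε / 2)])
    have h3 : 0 < Real.sinh t := Real.sinh_pos_iff.mpr ht0
    have h4 : 0 < Real.sinh (dist a z) * F (P.v n) (l t) := by
      rw [h]
      have := mul_nonneg h2 (ha n)
      have := mul_pos h3 (hz n)
      linarith
    exact pos_of_mul_pos_right h4 hs.le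
  · rw [mem_ball, dist_comm]
    have e := hd 0 t
    rw [h0, zero_sub, abs_neg, abs_of_pos ht0] at e
    rw [e]
    linarith [min_le_right (dist a z) (ε / 2)]

/-- The polygon is a geodesic space. -/
lemma isGeodesicSpace : IsGeodesicSpace P.Q := by
  intro x y
  obtain ⟨l, h0, h1, hd, hF⟩ := exists_segment (x : ℍ) y
  have hmem : ∀ t ∈ Icc 0 (dist x y), l t ∈ P.carrier := by
    intro t ht n
    have hxy : dist x y = dist (x : ℍ) y := rfl
    rcases (dist_nonneg (x := (x : ℍ)) (y := y)).lt_or_eq with hpos | hzero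
    · have hs : 0 < Real.sinh (dist (x : ℍ) y) := Real.sinh_pos_iff.mpr hpos
      have h2 := hF (P.v n) t
      have h3 : 0 ≤ Real.sinh (dist (x : ℍ) y - t) :=
        Real.sinh_nonneg_iff.mpr (by rw [← hxy]; linarith [ht.2])
      have h4 : 0 ≤ Real.sinh t := Real.sinh_nonneg_iff.mpr ht.1
      have h5 : 0 ≤ Real.sinh (dist (x : ℍ) y) * F (P.v n) (l t) := by
        rw [h2]
        exact add_nonneg (mul_nonneg h3 (x.2 n)) (mul_nonneg h4 (y.2 n))
      exact nonneg_of_mul_nonneg_right h5 hs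
    · have : t = 0 := le_antisymm (by rw [hzero]; exact ht.2) ht.1
      rw [this, h0]; exact x.2 n
  classical
  refine ⟨fun t => if h : l t ∈ P.carrier then ⟨l t, h⟩ else x, ?_, ?_, ?_⟩
  · have hx : l 0 ∈ P.carrier := by rw [h0]; exact x.2
    simp only [hx, dif_pos]
    exact Subtype.ext h0
  · have hy : l (dist x y) ∈ P.carrier := by
      have : l (dist x y) = y := h1
      rw [this]; exact y.2
    simp only [hy, dif_pos]
    exact Subtype.ext h1
  · intro s hs t ht
    simp only [hmem s hs, hmem t ht, dif_pos]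
    exact hd s t

end Poly

/-- Gram determinant. -/
lemma bil_nonpos_of_orth {u v w : V} (hu : bil u u = 1) (hv : bil v v = 1) (huv : bil u v = 0)
    (hwu : bil w u = 0) (hwv : bil w v = 0) : bil w w ≤ 0 := by
  obtain ⟨a, b, c⟩ := u
  obtain ⟨d, e, f⟩ := v
  obtain ⟨x, y, z⟩ := w
  have key : bil (x, y, z) (x, y, z) * (bil (a, b, c) (a, b, c) * bil (d, e, f) (d, e, f)) +
      2 * bil (a, b, c) (d, e, f) * bil (x, y, z) (a, b, c) * bil (x, y, z) (d, e, f)
      - bil (x, y, z) (x, y, z) * bil (a, b, c) (d, e, f) ^ 2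
      - bil (a, b, c) (a, b, c) * bil (x, y, z) (d, e, f) ^ 2
      - bil (d, e, f) (d, e, f) * bil (x, y, z) (a, b, c) ^ 2 =
      - (a * (e * z - f * y) - b * (d * z - f * x) + c * (d * y - e * x)) ^ 2 / 4 := by
    simp only [bil]; ring
  rw [hu, hv, huv, hwu, hwv] at key
  nlinarith [sq_nonneg (a * (e * z - f * y) - b * (d * z - f * x) + c * (d * y - e * x))]

/-- A point is determined by its signed distances to two orthogonal lines. -/
lemma eq_of_F_eq {u v : V} (hu : bil u u = 1) (hv : bil v v = 1) (huv : bil u v = 0) {z z' : ℍ}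
    (h1 : F u z = F u z') (h2 : F v z = F v z') : z = z' := by
  have h := bil_nonpos_of_orth (w := iota z - iota z') hu hv huv
    (by rw [bil_sub_left, bil_comm _ u, bil_comm _ u]; simp only [F] at h1; linarith)
    (by rw [bil_sub_left, bil_comm _ v, bil_comm _ v]; simp only [F] at h2; linarith)
  simp only [bil_sub_left, bil_sub_right, bil_iota_self, bil_comm (iota z') (iota z)] at h
  have hc := cosh_dist_eq z z'
  have h3 : Real.cosh (dist z z') ≤ 1 := by linarith
  have h4 : dist z z' = 0 := by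
    by_contra hne
    have : 1 < Real.cosh (dist z z') := Real.one_lt_cosh.mpr hne
    linarith
  exact dist_eq_zero.mp h4

end Pool.Agent.Hyp72
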