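import Pool.Agent.Lib_helper72.Hyp.Poly
import Pool.Agent.Lib_helper72.Hyp.Defs

/-!
# The surface obtained from four copies of the polygon
-/

open Metric Set UpperHalfPlane Topology
open scoped MatrixGroups

noncomputable section

namespace Pool.Agent.Hyp72

namespace Poly

variable (P : Poly)

/-- The union of the even sides. -/
def S : Set P.Q := {q | ∃ n, n % 2 = 0 ∧ F (P.v n) q = 0}

/-- The union of the odd sides, except the side `1`. -/
def B0 : Set P.Q := {q | ∃ n, 3 ≤ n ∧ n % 2 = 1 ∧ F (P.v n) q = 0}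

variable {P}

lemma isClosed_sides (A : Set ℕ) : IsClosed {q : P.Q | ∃ n ∈ A, F (P.v n) q = 0} := by
  rw [← isOpen_compl_iff, Metric.isOpen_iff]
  intro q hq
  obtain ⟨r, hr, hrw⟩ := exists_radius (P := P) q q.2
  refine ⟨r, hr, fun w hw hw' => ?_⟩
  obtain ⟨n, hn, hF⟩ := hw'
  have hne : F (P.v n) q ≠ 0 := fun h => hq ⟨n, hn, h⟩
  exact absurd hF (hrw w hw n hne).ne'

lemma isClosed_S : IsClosed P.S := isClosed_sides {n | n % 2 = 0}

lemma isClosed_B0 : IsClosed P.B0 := by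
  have : P.B0 = {q : P.Q | ∃ n ∈ {n | 3 ≤ n ∧ n % 2 = 1}, F (P.v n) q = 0} := by
    ext q; simp [B0, and_assoc]
  rw [this]
  exact isClosed_sides _

variable (P) in
lemma exists_mem_side (n : ℕ) : ∃ q : P.Q, F (P.v n) q = 0 := by
  obtain ⟨L, l, hL, hc, -, hF⟩ := P.exists_arc (n := n) (m := n + 2) (by omega)
  refine ⟨⟨l 0, fun k => ?_⟩, ?_⟩
  · rw [hF]; exact arc_nonneg hL hc k ⟨le_rfl, hL.le⟩
  · show F (P.v n) (l 0) = 0
    rw [hF, arc_start hL hc, Real.sinh_zero]

instance : Nonempty P.S := by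
  obtain ⟨q, hq⟩ := P.exists_mem_side 0
  exact ⟨⟨q, 0, rfl, hq⟩⟩

instance : Nonempty P.B0 := by
  obtain ⟨q, hq⟩ := P.exists_mem_side 3
  exact ⟨⟨q, 3, le_rfl, rfl, hq⟩⟩

variable (P)

/-- The double of the polygon along the even sides. -/
abbrev M : Type := Double P.Q P.S

/-- The part of `M` over `B0`. -/
def B : Set P.M := Double.fold ⁻¹' P.B0

instance : Nonempty P.B := by
  obtain ⟨q, hq⟩ := (inferInstance : Nonempty P.B0)
  exact ⟨⟨Double.mk P.S false q, by simpa [B] using hq⟩⟩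

/-- The surface. -/
abbrev X : Type := Double P.M P.B

/-- The four copies of the polygon. -/
def E (i j : Bool) (q : P.Q) : P.X := Double.mk P.B j (Double.mk P.S i q)

/-- The projection to the polygon. -/
def π (p : P.X) : P.Q := Double.fold (Double.fold p)

variable {P}

lemma isClosed_B : IsClosed P.B := isClosed_B0.preimage Double.continuous_fold

@[simp] lemma π_E (i j : Bool) (q : P.Q) : π P (P.E i j q) = q := by simp [π, E]

lemma exists_rep (p : P.X) : ∃ i j q, P.E i j q = p := by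
  obtain ⟨j, m, rfl⟩ := Double.exists_rep p
  obtain ⟨i, q, rfl⟩ := Double.exists_rep m
  exact ⟨i, j, q, rfl⟩

@[simp] lemma mk_mem_B (i : Bool) (q : P.Q) : Double.mk P.S i q ∈ P.B ↔ q ∈ P.B0 := by
  simp [B]

lemma E_eq_iff {i j i' j' : Bool} {q q' : P.Q} : P.E i j q = P.E i' j' q' ↔
    q = q' ∧ (i ≠ i' → q ∈ P.S) ∧ (j ≠ j' → q ∈ P.B0) := by
  unfold E
  rw [Double.mk_eq_mk_iff isClosed_B, Double.mk_eq_mk_iff isClosed_S, mk_mem_B, and_assoc]

lemma isometry_E (i j : Bool) : Isometry (P.E i j) :=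
  (Double.isometry_mk j).comp (Double.isometry_mk i)

@[simp] lemma dist_E (i j : Bool) (q q' : P.Q) : dist (P.E i j q) (P.E i j q') = dist q q' :=
  (isometry_E i j).dist_eq q q'

lemma dist_π_le (p p' : P.X) : dist (π P p) (π P p') ≤ dist p p' :=
  (Double.dist_fold_le _ _).trans (Double.dist_fold_le _ _)

lemma continuous_π : Continuous (π P) := Double.continuous_fold.comp Double.continuous_fold

lemma dist_le_dist_E (i j i' j' : Bool) (q q' : P.Q) :
    dist q q' ≤ dist (P.E i j q) (P.E i' j' q') := by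
  simpa using dist_π_le (P.E i j q) (P.E i' j' q')

instance : ProperSpace P.X := inferInstance

/-! ### Active sides -/

variable (P)

open Classical in
/-- The even side through `q`. -/
def oS (q : ℍ) : Option ℕ :=
  if h : ∃ n, n % 2 = 0 ∧ F (P.v n) q = 0 then some h.choose else none

open Classical in
/-- The odd side, different from the side `1`, through `q`. -/
def oB (q : ℍ) : Option ℕ :=
  if h : ∃ n, 3 ≤ n ∧ n % 2 = 1 ∧ F (P.v n) q = 0 then some h.choose else none

/-- Reflection if `i` is true and `o` is a side. -/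
def act (o : Option ℕ) (i : Bool) (z : ℍ) : ℍ :=
  match o, i with
  | some n, true => refl (P.v n) (P.unit n) • z
  | _, _ => z

variable {P}

lemma oS_eq_some {q : ℍ} {n : ℕ} (h1 : n % 2 = 0) (h2 : F (P.v n) q = 0) :
    P.oS q = some n := by
  have h : ∃ n, n % 2 = 0 ∧ F (P.v n) q = 0 := ⟨n, h1, h2⟩
  rw [oS, dif_pos h]
  congr 1
  exact active_unique h.choose_spec.2 h2 (by rw [h.choose_spec.1, h1])

lemma oS_eq_none {q : ℍ} (h : ¬ ∃ n, n % 2 = 0 ∧ F (P.v n) q = 0) : P.oS q = none := by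
  rw [oS, dif_neg h]

lemma oB_eq_some {q : ℍ} {n : ℕ} (h0 : 3 ≤ n) (h1 : n % 2 = 1) (h2 : F (P.v n) q = 0) :
    P.oB q = some n := by
  have h : ∃ n, 3 ≤ n ∧ n % 2 = 1 ∧ F (P.v n) q = 0 := ⟨n, h0, h1, h2⟩
  rw [oB, dif_pos h]
  congr 1
  exact active_unique h.choose_spec.2.2 h2 (by rw [h.choose_spec.2.1, h1])

lemma oB_eq_none {q : ℍ} (h : ¬ ∃ n, 3 ≤ n ∧ n % 2 = 1 ∧ F (P.v n) q = 0) : P.oB q = none := by
  rw [oB, dif_neg h]

lemma oS_some {q : ℍ} {n : ℕ} (h : P.oS q = some n) : n % 2 = 0 ∧ F (P.v n) q = 0 := by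
  by_cases h' : ∃ n, n % 2 = 0 ∧ F (P.v n) q = 0
  · rw [oS, dif_pos h'] at h
    obtain rfl := Option.some.inj h
    exact h'.choose_spec
  · rw [oS_eq_none h'] at h; simp at h

lemma oB_some {q : ℍ} {n : ℕ} (h : P.oB q = some n) :
    3 ≤ n ∧ n % 2 = 1 ∧ F (P.v n) q = 0 := by
  by_cases h' : ∃ n, 3 ≤ n ∧ n % 2 = 1 ∧ F (P.v n) q = 0
  · rw [oB, dif_pos h'] at h
    obtain rfl := Option.some.inj h
    exact h'.choose_spec
  · rw [oB_eq_none h'] at h; simp at h

lemma oS_none {q : P.Q} (h : P.oS q = none) : q ∉ P.S := by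
  rintro ⟨n, hn, hF⟩
  rw [oS_eq_some hn hF] at h; simp at h

lemma oB_none {q : P.Q} (h : P.oB q = none) : q ∉ P.B0 := by
  rintro ⟨n, h0, hn, hF⟩
  rw [oB_eq_some h0 hn hF] at h; simp at h

@[simp] lemma act_false (o : Option ℕ) (z : ℍ) : P.act o false z = z := by
  cases o <;> rfl

@[simp] lemma act_none (i : Bool) (z : ℍ) : P.act none i z = z := by
  cases i <;> rfl

lemma act_some_true (n : ℕ) (z : ℍ) : P.act (some n) true z = refl (P.v n) (P.unit n) • z := rfl

lemma F_act_oS {q : ℍ} {m : ℕ} (hm : m % 2 = 1) (hF : F (P.v m) q = 0) (i : Bool) (z : ℍ) :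
    F (P.v m) (P.act (P.oS q) i z) = F (P.v m) z := by
  cases i
  · simp
  · rcases h : P.oS q with _ | n
    · simp
    · obtain ⟨h1, h2⟩ := oS_some h
      rw [act_some_true, F_refl, active_bil hF h2 (by omega), mul_zero, sub_zero]

/-! ### Charts -/

lemma chartM (q : P.Q) (i : Bool) : ∃ (φ : P.M → ℍ) (r : ℝ),
    LChart (Double.mk P.S i q) φ r {u | ∃ n, n % 2 = 1 ∧ F (P.v n) q = 0 ∧ u = P.v n} ∧
    ∀ i' a, Double.mk P.S i' a ∈ ball (Double.mk P.S i q) r →
      φ (Double.mk P.S i' a) = P.act (P.oS q) i' a ∧ (P.oS q = none → i' = i) ∧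
      ∀ n, F (P.v n) q ≠ 0 → 0 < F (P.v n) a := by
  obtain ⟨r, h, hr⟩ := P.lchart q
  by_cases hq : ∃ n, n % 2 = 0 ∧ F (P.v n) q = 0
  · obtain ⟨n, hn, hF⟩ := hq
    have hset : {u | ∃ n, F (P.v n) q = 0 ∧ u = P.v n} =
        insert (P.v n) {u | ∃ n, n % 2 = 1 ∧ F (P.v n) q = 0 ∧ u = P.v n} := by
      ext u
      constructor
      · rintro ⟨k, hk, rfl⟩
        rcases Nat.mod_two_eq_zero_or_one k with h0 | h1
        · rw [active_unique hk hF (by omega)]; exact mem_insert _ _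
        · exact mem_insert_of_mem _ ⟨k, h1, hk, rfl⟩
      · rintro (rfl | ⟨k, -, hk, rfl⟩)
        · exact ⟨n, hF, rfl⟩
        · exact ⟨k, hk, rfl⟩
    rw [hset] at h
    have hmain := h.double_on (B := P.S) isClosed_S ⟨n, hn, hF⟩ (P.unit n) (by
      rintro u ⟨k, hk, hFk, rfl⟩
      exact active_bil hFk hF (by omega)) (by
      intro y hy
      constructor
      · rintro ⟨k, hk, hFk⟩
        by_cases hkq : F (P.v k) q = 0
        · rw [← active_unique hkq hF (by omega)]; exact hFk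
        · exact absurd hFk (hr y hy k hkq).ne'
      · intro hFy
        exact ⟨n, hn, hFy⟩) i
    obtain ⟨hc, hval⟩ := hmain
    refine ⟨_, _, hc, fun i' a ha => ?_⟩
    have ha' : a ∈ ball q r := by
      have := Double.dist_le_dist_mk (B := P.S) i' i a q
      have h2 : dist (Double.mk P.S i' a) (Double.mk P.S i q) < r / 2 := ha
      rw [mem_ball]
      linarith [h.pos]
    rw [hval i' a ha', oS_eq_some hn hF]
    refine ⟨?_, by simp, fun k hk => hr a ha' k hk⟩
    cases i' <;> simp [act_some_true]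
  · have hset : {u | ∃ n, F (P.v n) q = 0 ∧ u = P.v n} =
        {u | ∃ n, n % 2 = 1 ∧ F (P.v n) q = 0 ∧ u = P.v n} := by
      ext u
      constructor
      · rintro ⟨k, hk, rfl⟩
        rcases Nat.mod_two_eq_zero_or_one k with h0 | h1
        · exact absurd ⟨k, h0, hk⟩ hq
        · exact ⟨k, h1, hk, rfl⟩
      · rintro ⟨k, -, hk, rfl⟩
        exact ⟨k, hk, rfl⟩
    rw [hset] at h
    obtain ⟨r', hr'0, hr'r, hall⟩ := h.double_off (B := P.S) isClosed_S hq
    obtain ⟨hc, hsheet⟩ := hall i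
    refine ⟨_, _, hc, fun i' a ha => ?_⟩
    have ha' : a ∈ ball q r := by
      have := Double.dist_le_dist_mk (B := P.S) i' i a q
      have h2 : dist (Double.mk P.S i' a) (Double.mk P.S i q) < r' := ha
      rw [mem_ball]
      linarith [h.pos]
    rw [oS_eq_none hq]
    refine ⟨by simp, fun _ => hsheet i' a ha, fun k hk => hr a ha' k hk⟩

/-- Charts of the surface. -/
theorem chartX (q : P.Q) (i j : Bool) : ∃ (φ : P.X → ℍ) (r : ℝ),
    LChart (P.E i j q) φ r {u | F (P.v 1) q = 0 ∧ u = P.v 1} ∧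
    ∀ i' j' a, P.E i' j' a ∈ ball (P.E i j q) r →
      φ (P.E i' j' a) = P.act (P.oB q) j' (P.act (P.oS q) i' a) ∧
      (P.oS q = none → i' = i) ∧ (P.oB q = none → j' = j) := by
  obtain ⟨φ, r, h, hr⟩ := P.chartM q i
  by_cases hq : ∃ n, 3 ≤ n ∧ n % 2 = 1 ∧ F (P.v n) q = 0
  · obtain ⟨m, hm3, hm, hF⟩ := hq
    have hset : {u | ∃ n, n % 2 = 1 ∧ F (P.v n) q = 0 ∧ u = P.v n} =
        insert (P.v m) ({u | F (P.v 1) q = 0 ∧ u = P.v 1} : Set V) := by
      ext u
      constructor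
      · rintro ⟨k, hk1, hk, rfl⟩
        rw [active_unique hk hF (by omega)]; exact mem_insert _ _
      · rintro (rfl | ⟨hF1, rfl⟩)
        · exact ⟨m, hm, hF, rfl⟩
        · exact ⟨1, rfl, hF1, rfl⟩
    rw [hset] at h
    have hmain := h.double_on (B := P.B) isClosed_B (by rw [mk_mem_B]; exact ⟨m, hm3, hm, hF⟩)
      (P.unit m) (by
      rintro u ⟨hF1, rfl⟩
      exact absurd (active_unique hF hF1 (by omega)) (by omega)) (by
      intro y hy
      obtain ⟨i', a, rfl⟩ := Double.exists_rep y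
      obtain ⟨h1, h2, h3⟩ := hr i' a hy
      rw [mk_mem_B, h1, F_act_oS hm hF]
      constructor
      · rintro ⟨k, hk3, hk, hFk⟩
        by_cases hkq : F (P.v k) q = 0
        · rw [← active_unique hkq hF (by omega)]; exact hFk
        · exact absurd hFk (h3 k hkq).ne'
      · intro hFy
        exact ⟨m, hm3, hm, hFy⟩) j
    obtain ⟨hc, hval⟩ := hmain
    refine ⟨_, _, hc, fun i' j' a ha => ?_⟩
    have ha' : Double.mk P.S i' a ∈ ball (Double.mk P.S i q) r := by
      have := Double.dist_le_dist_mk (B := P.B) j' j (Double.mk P.S i' a) (Double.mk P.S i q)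
      have h2 : dist (Double.mk P.B j' (Double.mk P.S i' a))
        (Double.mk P.B j (Double.mk P.S i q)) < r / 2 := ha
      rw [mem_ball]
      linarith [h.pos]
    obtain ⟨h1, h2, h3⟩ := hr i' a ha'
    show dbl _ _ (Double.mk P.B j' (Double.mk P.S i' a)) = _ ∧ _
    rw [hval j' _ ha', oB_eq_some hm3 hm hF, h1]
    refine ⟨?_, h2, by simp⟩
    cases j' <;> simp [act_some_true]
  · have hset : {u | ∃ n, n % 2 = 1 ∧ F (P.v n) q = 0 ∧ u = P.v n} =
        ({u | F (P.v 1) q = 0 ∧ u = P.v 1} : Set V) := by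
      ext u
      constructor
      · rintro ⟨k, hk1, hk, rfl⟩
        have : k = 1 := by
          by_contra hne
          exact hq ⟨k, by omega, hk1, hk⟩
        subst this
        exact ⟨hk, rfl⟩
      · rintro ⟨hF1, rfl⟩
        exact ⟨1, rfl, hF1, rfl⟩
    rw [hset] at h
    obtain ⟨r', hr'0, hr'r, hall⟩ := h.double_off (B := P.B) isClosed_B (by
      rw [mk_mem_B]; exact hq)
    obtain ⟨hc, hsheet⟩ := hall j
    refine ⟨_, _, hc, fun i' j' a ha => ?_⟩
    have ha' : Double.mk P.S i' a ∈ ball (Double.mk P.S i q) r := by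
      have := Double.dist_le_dist_mk (B := P.B) j' j (Double.mk P.S i' a) (Double.mk P.S i q)
      have h2 : dist (Double.mk P.B j' (Double.mk P.S i' a))
        (Double.mk P.B j (Double.mk P.S i q)) < r' := ha
      rw [mem_ball]
      linarith [h.pos]
    obtain ⟨h1, h2, h3⟩ := hr i' a ha'
    rw [oB_eq_none hq]
    refine ⟨?_, h2, fun _ => hsheet j' _ ha⟩
    simp [E, h1]

end Poly

end Pool.Agent.Hyp72
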