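import Pool.Agent.Lib_helper72.Hyp.Surf

/-!
# The surface is a hyperbolic surface
-/

open Metric Set UpperHalfPlane Topology
open scoped MatrixGroups
open Pool.Agent.SimpleSpectrum

noncomputable section

namespace Pool.Agent.Hyp72

namespace Poly

variable {P : Poly}

/-- The orientation sign of a sheet. -/
def sgn (i : Bool) : ℝ := if i then -1 else 1

lemma exists_act (o : Option ℕ) (i : Bool) : ∃ g : GL (Fin 2) ℝ, (∀ z, P.act o i z = g • z) ∧
    g.det.val = if o = none then 1 else sgn i := by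
  rcases o with _ | n
  · exact ⟨1, fun z => by simp, by simp⟩
  · cases i
    · exact ⟨1, fun z => by simp, by simp [sgn]⟩
    · exact ⟨refl (P.v n) (P.unit n), fun z => rfl, by rw [refl_det]; simp [sgn]⟩

lemma exists_fix (P : Poly) (b : Bool) : ∃ g : GL (Fin 2) ℝ, g.det.val = sgn b ∧
    ∀ z, F (P.v 1) (g • z) = F (P.v 1) z := by
  cases b
  · exact ⟨1, by simp [sgn], fun z => by simp⟩
  · refine ⟨refl (P.v 0) (P.unit 0), by rw [refl_det]; simp [sgn], fun z => ?_⟩
    rw [F_refl, bil_comm, P.adj 0, mul_zero, sub_zero]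

lemma act_oS_self (q : ℍ) (i : Bool) : P.act (P.oS q) i q = q := by
  cases i
  · simp
  · rcases h : P.oS q with _ | n
    · simp
    · rw [act_some_true, refl_smul_eq_self _ (oS_some h).2]

lemma act_oB_self (q : ℍ) (i : Bool) : P.act (P.oB q) i q = q := by
  cases i
  · simp
  · rcases h : P.oB q with _ | n
    · simp
    · rw [act_some_true, refl_smul_eq_self _ (oB_some h).2.2]

theorem exists_oriented_chart (p : P.X) : ∃ (φ : P.X → ℍ) (r : ℝ),
    LChart p φ r {u | F (P.v 1) (π P p) = 0 ∧ u = P.v 1} ∧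
    F (P.v 1) (φ p) = F (P.v 1) (π P p) ∧
    ∀ i' j', ∃ g : GL (Fin 2) ℝ, g.det.val = sgn i' * sgn j' ∧
      ∀ a, P.E i' j' a ∈ ball p r → φ (P.E i' j' a) = g • (a : ℍ) := by
  obtain ⟨i, j, q, rfl⟩ := exists_rep p
  rw [π_E]
  obtain ⟨φ0, r, h, hr⟩ := P.chartX q i j
  obtain ⟨gi, hgi, hgi1⟩ := P.exists_fix (if P.oS q = none then i else false)
  obtain ⟨gj, hgj, hgj1⟩ := P.exists_fix (if P.oB q = none then j else false)
  refine ⟨_, r, h.smul (gi * gj) (U' := {u | F (P.v 1) q = 0 ∧ u = P.v 1}) ?_, ?_, ?_⟩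
  rotate_left
  · rw [mul_smul, hgi1, hgj1, (hr i j q h.mem_self).1, act_oS_self, act_oB_self]
  rotate_left
  · intro z
    constructor
    · rintro hz u ⟨h1, rfl⟩
      have := hz (P.v 1) ⟨h1, rfl⟩
      rwa [mul_smul, hgi1, hgj1] at this
    · rintro hz u ⟨h1, rfl⟩
      rw [mul_smul, hgi1, hgj1]
      exact hz (P.v 1) ⟨h1, rfl⟩
  · intro i' j'
    by_cases hsheet : (P.oS q = none → i' = i) ∧ (P.oB q = none → j' = j)
    · obtain ⟨hs1, hs2⟩ := hsheet
      obtain ⟨aS, haS, haS1⟩ := exists_act (P := P) (P.oS q) i'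
      obtain ⟨aB, haB, haB1⟩ := exists_act (P := P) (P.oB q) j'
      refine ⟨gi * gj * (aB * aS), ?_, fun a ha => ?_⟩
      · simp only [map_mul, Units.val_mul, hgi, hgj, haS1, haB1]
        rcases h1 : P.oS q with _ | n <;> rcases h2 : P.oB q with _ | m
        · rw [h1] at hs1; rw [h2] at hs2
          obtain rfl := hs1 rfl
          obtain rfl := hs2 rfl
          simp
        · rw [h1] at hs1
          obtain rfl := hs1 rfl
          simp [sgn]
        · rw [h2] at hs2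
          obtain rfl := hs2 rfl
          cases i' <;> cases j' <;> simp [sgn]
        · cases i' <;> cases j' <;> simp [sgn]
      · simp only [(hr i' j' a ha).1, haB, haS, mul_smul]
    · obtain ⟨g1, hg1, -⟩ := P.exists_fix i'
      obtain ⟨g2, hg2, -⟩ := P.exists_fix j'
      refine ⟨g1 * g2, by simp only [map_mul, Units.val_mul, hg1, hg2], fun a ha => ?_⟩
      exact absurd (hr i' j' a ha).2 hsheet

/-- Bringing the side `1` to the imaginary axis. -/
lemma exists_normal (P : Poly) : ∃ g : GL (Fin 2) ℝ, g.det.val = 1 ∧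
    ∀ z, F (P.v 0) (g • z) = F (P.v 1) z := by
  have hs2 : (Real.sqrt 2) ≠ 0 := by positivity
  have hsq : Real.sqrt 2 * Real.sqrt 2 = 2 := Real.mul_self_sqrt (by norm_num)
  have hN : bil ((Real.sqrt 2)⁻¹ • (P.v 1 - P.v 0)) ((Real.sqrt 2)⁻¹ • (P.v 1 - P.v 0)) = 1 := by
    simp only [bil_smul_left, bil_smul_right, bil_sub_left, bil_sub_right, P.unit,
      bil_comm (P.v 1) (P.v 0), P.adj 0]
    field_simp
    rw [Real.sq_sqrt (by norm_num)]
    norm_num
  refine ⟨refl (P.v 1) (P.unit 1) * refl _ hN, ?_, fun z => ?_⟩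
  · simp only [map_mul, Units.val_mul, refl_det]; norm_num
  · rw [mul_smul, F_refl, P.adj 0, mul_zero, sub_zero, F_refl]
    simp only [F, bil_smul_left, bil_smul_right, bil_sub_left, bil_sub_right, P.unit, P.adj 0]
    field_simp
    rw [Real.sq_sqrt (by norm_num)]
    ring

lemma F_v_zero (P : Poly) (w : ℍ) : F (P.v 0) w = w.re / w.im := by
  rw [P.v_zero]; simp [F, bil, iota]

lemma F_v_zero_nonneg (P : Poly) (w : ℍ) : 0 ≤ F (P.v 0) w ↔ 0 ≤ w.re := by
  rw [F_v_zero]
  constructor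
  · intro h
    by_contra hcon
    exact absurd h (not_le.mpr (div_neg_of_neg_of_pos (not_le.mp hcon) w.im_pos))
  · intro h; exact div_nonneg h w.im_pos.le

lemma F_v_zero_eq (P : Poly) (w : ℍ) : F (P.v 0) w = 0 ↔ w.re = 0 := by
  rw [F_v_zero, div_eq_zero_iff]
  simp [w.im_ne_zero]

theorem exists_atlas_chart (p : P.X) : ∃ (φ : P.X → ℍ) (r : ℝ),
    ((F (P.v 1) (π P p) = 0 ∧ IsBoundaryChart p φ r) ∨
      (F (P.v 1) (π P p) ≠ 0 ∧ IsInteriorChart p φ r)) ∧
    ∀ i' j', ∃ g : GL (Fin 2) ℝ, g.det.val = sgn i' * sgn j' ∧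
      ∀ a, P.E i' j' a ∈ ball p r → φ (P.E i' j' a) = g • (a : ℍ) := by
  obtain ⟨φ, r, h, hval, hg⟩ := exists_oriented_chart p
  by_cases h1 : F (P.v 1) (π P p) = 0
  · obtain ⟨g0, hg0, hg1⟩ := P.exists_normal
    have h' := h.smul g0 (U' := {P.v 0}) (by
      intro z
      constructor
      · rintro hz u ⟨-, rfl⟩
        have := hz (P.v 0) rfl
        rwa [hg1] at this
      · rintro hz u hu
        rw [mem_singleton_iff.mp hu, hg1]
        exact hz _ ⟨h1, rfl⟩)
    refine ⟨_, r, Or.inl ⟨h1, h'.pos, h'.isom, ?_, ?_⟩, fun i' j' => ?_⟩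
    · rw [← P.F_v_zero_eq, hg1, hval, h1]
    · rw [h'.image]
      ext w
      simp [P.F_v_zero_nonneg]
    · obtain ⟨g, hg2, hg3⟩ := hg i' j'
      refine ⟨g0 * g, by simp [hg0, hg2], fun a ha => ?_⟩
      rw [hg3 a ha, mul_smul]
  · refine ⟨φ, r, Or.inr ⟨h1, h.pos, h.isom, ?_⟩, hg⟩
    rw [h.image]
    ext w
    simp [h1]

/-- Compatibility of the charts. -/
lemma exists_transition {p p' z : P.X} {φ φ' : P.X → ℍ} {r r' : ℝ}
    (h : ∀ y ∈ ball p r, ∀ z ∈ ball p r, dist (φ y) (φ z) = dist y z)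
    (h' : ∀ y ∈ ball p' r', ∀ z ∈ ball p' r', dist (φ' y) (φ' z) = dist y z)
    (hg : ∀ i' j', ∃ g : GL (Fin 2) ℝ, g.det.val = sgn i' * sgn j' ∧
      ∀ a, P.E i' j' a ∈ ball p r → φ (P.E i' j' a) = g • (a : ℍ))
    (hg' : ∀ i' j', ∃ g : GL (Fin 2) ℝ, g.det.val = sgn i' * sgn j' ∧
      ∀ a, P.E i' j' a ∈ ball p' r' → φ' (P.E i' j' a) = g • (a : ℍ))
    (hz : z ∈ ball p r ∩ ball p' r') :
    ∃ g : SL(2, ℝ), ∀ᶠ w in 𝓝 z, φ' w = g • φ w := by
  have hopen : ball p r ∩ ball p' r' ∈ 𝓝 z := (isOpen_ball.inter isOpen_ball).mem_nhds hz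
  obtain ⟨ε, hε, hsub⟩ := Metric.mem_nhds_iff.mp hopen
  obtain ⟨i, j, a0, rfl⟩ := exists_rep z
  obtain ⟨g1, hd1, hg1⟩ := hg i j
  obtain ⟨g2, hd2, hg2⟩ := hg' i j
  have hsg : (sgn i * sgn j) ^ 2 = 1 := by cases i <;> cases j <;> simp [sgn]
  have hdet : (g2 * g1⁻¹).det.val = 1 := by
    have : (g2 * g1⁻¹).det.val = g2.det.val * (g1.det.val)⁻¹ := by
      simp only [map_mul, Units.val_mul, map_inv, Units.val_inv_eq_inv_val]
    rw [this, hd1, hd2]
    cases i <;> cases j <;> simp [sgn]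
  obtain ⟨g, hgs⟩ := exists_sl_smul _ hdet
  refine ⟨g, Filter.mem_of_superset (ball_mem_nhds _ hε) fun w hw => ?_⟩
  show φ' w = g • φ w
  rw [hgs, mul_smul]
  have key : g2⁻¹ • φ' w = g1⁻¹ • φ w := by
    refine eq_of_dist_eq (P.interior_nonempty a0.2 hε) fun a ha => ?_
    have ha' : P.E i j ⟨a, ha.1⟩ ∈ ball (P.E i j a0) ε := by
      rw [mem_ball, dist_E]; exact ha.2
    have h1 := hg1 ⟨a, ha.1⟩ (hsub ha').1
    have h2 := hg2 ⟨a, ha.1⟩ (hsub ha').2
    simp only at h1 h2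
    rw [← dist_gl_smul g2, smul_inv_smul, ← h2, h' _ (hsub hw).2 _ (hsub ha').2,
      ← dist_gl_smul g1 (g1⁻¹ • φ w), smul_inv_smul, ← h1, h _ (hsub hw).1 _ (hsub ha').1]
  rw [← key, smul_inv_smul]

/-- A point with an interior chart has no boundary chart. -/
lemma not_boundary_of_interior {X : Type} [MetricSpace X] {x : X} {φ ψ : X → ℍ} {r s : ℝ}
    (h : IsInteriorChart x φ r) (h' : IsBoundaryChart x ψ s) : False := by
  set δ := min r s / 4 with hδ
  have hmin : 0 < min r s := lt_min h.pos h'.pos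
  have hδ0 : 0 < δ := by positivity
  have hδr : 2 * δ < r := by
    have := min_le_left r s; linarith
  have hδs : 2 * δ < s := by
    have := min_le_right r s; linarith
  have hxr : x ∈ ball x r := mem_ball_self h.pos
  have hxs : x ∈ ball x s := mem_ball_self h'.pos
  have hv : bil ((0, -1, 0) : V) (0, -1, 0) = 1 := by simp [bil]
  have hF : ∀ w : ℍ, F (0, -1, 0) w = w.re / w.im := fun w => by simp [F, bil, iota]
  -- a point in the half disc
  obtain ⟨w, hw1, hw2⟩ := exists_dist_eq (ψ x) hδ0.le hv (by rw [hF, h'.center, zero_div])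
  have hwpos : 0 < F (0, -1, 0) w := by rw [hw2]; exact Real.sinh_pos_iff.mpr hδ0
  have hwre : 0 ≤ w.re := by
    rw [hF] at hwpos
    have := mul_pos hwpos w.im_pos
    rw [div_mul_cancel₀ _ w.im_ne_zero] at this
    exact this.le
  obtain ⟨y, hy, rfl⟩ : w ∈ ψ '' ball x s := by
    rw [h'.image]; exact ⟨by rw [mem_ball, hw1]; linarith, hwre⟩
  have hyx : dist y x = δ := by rw [← h'.isom y hy x hxs, hw1]
  have hyr : y ∈ ball x r := by rw [mem_ball, hyx]; linarith
  -- its antipode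
  obtain ⟨w', hw'1, hw'2⟩ := exists_antipode (φ x) (φ y)
  rw [h.isom y hyr x hxr, hyx] at hw'1 hw'2
  obtain ⟨y', hy', rfl⟩ : w' ∈ φ '' ball x r := by
    rw [h.image]; rw [mem_ball, dist_comm, hw'1]; linarith
  rw [h.isom _ hxr _ hy'] at hw'1
  rw [h.isom _ hyr _ hy'] at hw'2
  have hy's : y' ∈ ball x s := by rw [mem_ball, dist_comm, hw'1]; linarith
  refine no_antipode (v := (0, -1, 0)) (c := ψ x) (w := ψ y) (w' := ψ y') (δ := δ) hw1 ?_ ?_ ?_
    hwpos ?_
  · rw [h'.isom _ hxs _ hy's, hw'1]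
  · rw [h'.isom _ hy _ hy's, hw'2]
  · rw [hF, h'.center, zero_div]
  · have : ψ y' ∈ ψ '' ball x s := mem_image_of_mem _ hy's
    rw [h'.image] at this
    rw [hF]
    exact div_nonneg this.2 (ψ y').im_pos.le

lemma mem_surfaceBoundary (p : P.X) :
    p ∈ surfaceBoundary P.X ↔ F (P.v 1) (π P p) = 0 := by
  obtain ⟨φ, r, h, -⟩ := exists_atlas_chart p
  constructor
  · rintro ⟨ψ, s, hs⟩
    rcases h with ⟨h1, -⟩ | ⟨-, h2⟩
    · exact h1
    · exact (not_boundary_of_interior h2 hs).elim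
  · intro h0
    rcases h with ⟨-, h1⟩ | ⟨h2, -⟩
    · exact ⟨φ, r, h1⟩
    · exact absurd h0 h2

lemma isGeodesicSpace_X : IsGeodesicSpace P.X :=
  (P.isGeodesicSpace.double isClosed_S).double isClosed_B

/-- The side `1` is bounded. -/
lemma isCompact_side_one : IsCompact {q : P.Q | F (P.v 1) q = 0} := by
  obtain ⟨L, l, hL, hc, hd, hF⟩ := P.exists_arc (n := 0) (m := 2) (by omega)
  have hclosed : IsClosed {q : P.Q | F (P.v 1) q = 0} :=
    isClosed_eq ((continuous_F _).comp continuous_subtype_val) continuous_const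
  have hlc : Continuous l := continuous_of_dist hd
  have hcomp : IsCompact (l '' Icc 0 L) := isCompact_Icc.image hlc
  have hsub : ∀ q : P.Q, F (P.v 1) q = 0 → (q : ℍ) ∈ l '' Icc 0 L := by
    intro q hq
    set t := Real.arsinh (F (P.v 0) q) with ht
    have hst : Real.sinh t = F (P.v 0) q := Real.sinh_arsinh _
    have ht0 : 0 ≤ t := Real.arsinh_nonneg_iff.mpr (q.2 0)
    have heq : l t = q := by
      apply eq_of_F_eq (P.unit 0) (P.unit 1) (P.adj 0)
      · rw [hF, arc_start hL hc, hst]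
      · rw [hF, hq, bil_comm (P.v 1) (P.v 0), P.adj 0, P.adj 1]; simp
    refine ⟨t, ⟨ht0, ?_⟩, heq⟩
    have h2 := q.2 2
    rw [← heq, hF, arc_finish hL hc, Real.sinh_nonneg_iff] at h2
    linarith
  have himg : IsCompact ((↑) '' {q : P.Q | F (P.v 1) q = 0} : Set ℍ) := by
    refine hcomp.of_isClosed_subset ?_ ?_
    · exact isClosed_carrier.isClosedEmbedding_subtypeVal.isClosedMap _ hclosed
    · rintro _ ⟨q, hq, rfl⟩
      exact hsub q hq
  exact Topology.IsInducing.subtypeVal.isCompact_iff.mpr himg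

lemma isCompact_surfaceBoundary : IsCompact (surfaceBoundary P.X) := by
  have h : surfaceBoundary P.X = ⋃ i : Bool, ⋃ j : Bool, P.E i j '' {q : P.Q | F (P.v 1) q = 0} := by
    ext p
    rw [mem_surfaceBoundary]
    simp only [mem_iUnion]
    constructor
    · intro hp
      obtain ⟨i, j, q, rfl⟩ := exists_rep p
      rw [π_E] at hp
      exact ⟨i, j, q, hp, rfl⟩
    · rintro ⟨i, j, q, hq, rfl⟩
      rw [π_E]; exact hq
  rw [h]
  exact isCompact_iUnion fun i => isCompact_iUnion fun j =>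
    isCompact_side_one.image (isometry_E i j).continuous

instance : Nonempty P.Q := ⟨(P.exists_mem_side 0).choose⟩

lemma pathConnectedSpace_of_isGeodesicSpace {X : Type} [MetricSpace X] [Nonempty X]
    (h : IsGeodesicSpace X) : PathConnectedSpace X := by
  refine ⟨inferInstance, fun x y => ?_⟩
  obtain ⟨γ, hγ⟩ := h x y
  obtain ⟨p, -⟩ := hγ.exists_path
  exact ⟨p⟩

instance : Nonempty P.X := ⟨P.E false false (Classical.arbitrary _)⟩

instance : PathConnectedSpace P.X := pathConnectedSpace_of_isGeodesicSpace isGeodesicSpace_X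

theorem isHyperbolicSurface (P : Poly) : IsHyperbolicSurface P.X where
  connected := inferInstance
  secondCountable := inferInstance
  length := by
    intro x y ε hε
    obtain ⟨γ, hγ⟩ := P.isGeodesicSpace_X x y
    obtain ⟨p, hp, -⟩ := hγ.exists_path
    exact ⟨p, hp.trans (ENNReal.ofReal_le_ofReal (by linarith))⟩
  atlas := by
    choose φ r h hg using P.exists_atlas_chart
    refine ⟨φ, r, fun x => ?_, fun x y z hz => ?_⟩
    · rcases h x with ⟨-, h1⟩ | ⟨-, h1⟩
      · exact Or.inr h1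
      · exact Or.inl h1
    · have hi : ∀ x, ∀ y ∈ ball x (r x), ∀ z ∈ ball x (r x), dist (φ x y) (φ x z) = dist y z := by
        intro x
        rcases h x with ⟨-, h1⟩ | ⟨-, h1⟩
        · exact h1.isom
        · exact h1.isom
      exact exists_transition (hi x) (hi y) (hg x) (hg y) hz
  compact_boundary := isCompact_surfaceBoundary

end Poly

end Pool.Agent.Hyp72
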